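import Pool.Agent.P.MP_a62d3c_co.FB.Defs
import Pool.Agent.P.MP_a62d3c_co.FF.Lap

namespace Pool.Agent.P.MP_a62d3c_co.FF

open Filter Topology Polynomial MeasureTheory Asymptotics
open scoped ComplexConjugate Matrix ComplexOrder

theorem Disc.finite_inter {Z : Set ℂ} (hZ : Disc Z) {K : Set ℂ} (hK : IsCompact K) :
    (Z ∩ K).Finite := by
  obtain ⟨T, -, hT⟩ := hK.elim_nhds_subcover (fun v => {t | t ∈ ({v}ᶜ : Set ℂ) → t ∉ Z})
    fun v _ => eventually_nhdsWithin_iff.1 (hZ v)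
  refine T.finite_toSet.subset fun t ht => ?_
  obtain ⟨v, hv, h⟩ := Set.mem_iUnion₂.1 (hT ht.2)
  have e : t = v := by
    by_contra hne
    exact h hne ht.1
  exact e ▸ hv

theorem Disc.isOpen_compl {Z : Set ℂ} (hZ : Disc Z) : IsOpen Zᶜ := by
  refine isOpen_iff_mem_nhds.2 fun v hv => ?_
  filter_upwards [eventually_nhdsWithin_iff.1 (hZ v)] with t ht
  by_cases e : t = v
  · exact e ▸ hv
  · exact ht e

theorem Disc.exists_not_mem {Z : Set ℂ} (hZ : Disc Z) : ∃ t, t ∉ Z := (hZ 0).exists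

/-- Taylor expansion at `t₀`: with `u = t - t₁`, `u₀ = t₀ - t₁`, `h = t - t₀`, `A = r² - |u₀|²`:
`log (r² - |u|²) = log A - (2 re (h conj u₀) + |h|²) / A - 2 (re (h conj u₀))² / A² + o(|h|²)` and
`2 (re w)² = re (w²) + |w|²`; `LapGe.of_le`, `lapGe_re` -/
theorem poinc_lap {t₁ t₀ : ℂ} {r : ℝ} (h : ‖t₀ - t₁‖ < r) :
    LapGe (fun t => Real.log (r ^ 2 - ‖t - t₁‖ ^ 2) +
      r ^ 2 / (r ^ 2 - ‖t₀ - t₁‖ ^ 2) ^ 2 * ‖t - t₀‖ ^ 2) t₀ := by
  have hr : 0 < r := (norm_nonneg _).trans_lt h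
  set A : ℝ := r ^ 2 - ‖t₀ - t₁‖ ^ 2 with hA
  have hA0 : 0 < A := sub_pos.2 (pow_lt_pow_left₀ h (norm_nonneg _) two_ne_zero)
  let g : ℂ → ℂ := fun t => ((r ^ 2 : ℝ) : ℂ) - (t - t₁) * conj (t₀ - t₁)
  have hg : AnalyticAt ℂ g t₀ := by fun_prop
  have hid : ∀ t, ‖g t‖ ^ 2 = (r ^ 2 - ‖t - t₁‖ ^ 2) * A + r ^ 2 * ‖t - t₀‖ ^ 2 := fun t => by
    simp only [g, hA, Complex.sq_norm, Complex.normSq_apply, Complex.sub_re, Complex.sub_im,
      Complex.mul_re, Complex.mul_im, Complex.conj_re, Complex.conj_im, Complex.ofReal_re,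
      Complex.ofReal_im]
    ring
  have hlog : ∀ t, 2 * Real.log ‖g t‖ = Real.log (‖g t‖ ^ 2) := fun t => by
    rw [Real.log_pow]; norm_num
  have h0 : ‖g t₀‖ ^ 2 = A * A := by rw [hid, sub_self, norm_zero]; ring
  have hg0 : g t₀ ≠ 0 := fun e => by
    rw [e, norm_zero] at h0
    nlinarith
  refine ((lapGe_log hg hg0 2).add (lapGe_const (-Real.log A) t₀)).of_le ?_ fun η hη => ?_
  · rw [hlog, h0, Real.log_mul hA0.ne' hA0.ne', sub_self, norm_zero]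
    linarith
  · have c1 : ContinuousAt (fun t : ℂ => r ^ 2 - ‖t - t₁‖ ^ 2) t₀ := by fun_prop
    have c2 : ContinuousAt (fun t : ℂ => r ^ 2 / ((r ^ 2 - ‖t - t₁‖ ^ 2) * A)) t₀ :=
      continuousAt_const.div (c1.mul continuousAt_const) (mul_pos hA0 hA0).ne'
    have e1 : ∀ᶠ t in 𝓝 t₀, 0 < r ^ 2 - ‖t - t₁‖ ^ 2 := continuousAt_const.eventually_lt c1 hA0
    have e2 : ∀ᶠ t in 𝓝 t₀, r ^ 2 / ((r ^ 2 - ‖t - t₁‖ ^ 2) * A) < r ^ 2 / A ^ 2 + η :=
      c2.eventually_lt continuousAt_const (by rw [← hA, ← sq]; linarith)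
    filter_upwards [e1, e2] with t h1 h2
    set B : ℝ := r ^ 2 - ‖t - t₁‖ ^ 2 with hB
    have hBA : 0 < B * A := mul_pos h1 hA0
    have h3 : ‖g t‖ ^ 2 = B * A * (1 + r ^ 2 / (B * A) * ‖t - t₀‖ ^ 2) := by
      rw [hid]
      field_simp
      ring
    have h4 : 0 < 1 + r ^ 2 / (B * A) * ‖t - t₀‖ ^ 2 := by positivity
    have h5 := Real.log_le_sub_one_of_pos h4
    have h6 := mul_le_mul_of_nonneg_right h2.le (sq_nonneg ‖t - t₀‖)
    rw [hlog, h3, Real.log_mul hBA.ne' h4.ne', Real.log_mul h1.ne' hA0.ne']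
    linarith

theorem BAS_not_max {φ : ℂ → ℝ} {t₀ : ℂ} (h : LapGe φ t₀) {c : ℝ} (hc : 0 < c) :
    ¬∀ᶠ t in 𝓝 t₀, φ t + c * ‖t - t₀‖ ^ 2 ≤ φ t₀ := by
  intro hm
  let g : ℂ → ℂ := fun t => (c : ℂ) * (((‖t₀‖ ^ 2 : ℝ) : ℂ) - 2 * (t * conj t₀))
  have hg : AnalyticAt ℂ g t₀ := by fun_prop
  have e : ∀ t, (g t).re + c * ‖t‖ ^ 2 = c * ‖t - t₀‖ ^ 2 := fun t => by
    simp only [g, Complex.sq_norm, Complex.normSq_apply, Complex.sub_re, Complex.sub_im,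
      Complex.mul_re, Complex.mul_im, Complex.conj_re, Complex.conj_im, Complex.ofReal_re,
      Complex.ofReal_im, Complex.re_ofNat, Complex.im_ofNat]
    ring
  refine (h.add (lapGe_re hg)).not_max hc (hm.mono fun t ht => ?_)
  have e1 := e t
  have e2 := e t₀
  rw [sub_self, norm_zero] at e2
  linarith

theorem BAS_log_lt {f : ℂ → ℝ} {y : ℂ} (hf : ContinuousAt f y) (h0 : f y = 0) (M : ℝ) :
    ∀ᶠ t in 𝓝 y, 0 < f t → Real.log (f t) < M :=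
  (hf.eventually_lt continuousAt_const (h0.trans_lt (Real.exp_pos M))).mono
    fun _ h1 h2 => (Real.log_lt_iff_lt_exp h2).2 h1

theorem BAS_sum_le {A : Finset ℂ} {t₁ t : ℂ} {r : ℝ} (hA : ∀ v ∈ A, ‖v - t₁‖ ≤ r)
    (ht : ‖t - t₁‖ < r) : ∑ v ∈ A, Real.log ‖t - v‖ ≤ A.card * (2 * r) := by
  rw [← nsmul_eq_mul]
  refine Finset.sum_le_card_nsmul _ _ _ fun v hv => (Real.log_le_self (norm_nonneg _)).trans ?_
  have h1 : t - v = (t - t₁) - (v - t₁) := by ring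
  have h2 := norm_sub_le (t - t₁) (v - t₁)
  rw [h1]
  linarith [hA v hv]

theorem BAS_pos {t t₁ : ℂ} {r : ℝ} (h : ‖t - t₁‖ < r) : 0 < r ^ 2 - ‖t - t₁‖ ^ 2 :=
  sub_pos.2 (pow_lt_pow_left₀ h (norm_nonneg _) two_ne_zero)

/-- the auxiliary function has a maximum point -/
theorem BAS_max (W : ℂ → ℝ) (Z : Set ℂ) {R : ℝ} (hR : 0 < R)
    (hcont : ∀ t, t ∉ Z → ContinuousAt W t)
    (hloc : ∀ v ∈ Z, ∀ η > (0 : ℝ), ∃ C, ∀ᶠ t in 𝓝[≠] v, W t ≤ C - η * Real.log ‖t - v‖)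
    {t₁ : ℂ} (h1 : t₁ ∉ Z) {r : ℝ} (hr : 0 < r) {A : Finset ℂ}
    (hA : ∀ v, v ∈ A ↔ v ∈ Z ∧ ‖v - t₁‖ ≤ r) {η : ℝ} (hη : 0 < η) {F : ℂ → ℝ}
    (hF : ∀ t, F t = W t + 2 * R * Real.log (r ^ 2 - ‖t - t₁‖ ^ 2) +
      η * ∑ v ∈ A, Real.log ‖t - v‖) :
    ∃ s, ‖s - t₁‖ < r ∧ s ∉ Z ∧ ∀ t, ‖t - t₁‖ < r → t ∉ Z → F t ≤ F s := by
  classical
  have hc : ∀ y, ‖y - t₁‖ < r → y ∉ Z → ContinuousAt F y := fun y hy hz => by
    rw [funext hF]
    refine ((hcont y hz).add (continuousAt_const.mul ?_)).add (continuousAt_const.mul ?_)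
    · exact ContinuousAt.log (by fun_prop) (BAS_pos hy).ne'
    · refine tendsto_finsetSum _ fun v hv => ?_
      exact ContinuousAt.log (f := fun t => ‖t - v‖) (by fun_prop)
        (norm_ne_zero_iff.2 (sub_ne_zero.2 fun e => hz (e ▸ ((hA v).1 hv).1)))
  let S : Set ℂ := {t | ‖t - t₁‖ < r ∧ t ∉ Z ∧ F t₁ ≤ F t}
  have h0 : ‖t₁ - t₁‖ < r := by rwa [sub_self, norm_zero]
  have hS1 : t₁ ∈ S := ⟨h0, h1, le_rfl⟩
  have hcl : IsClosed S := by
    rw [← isOpen_compl_iff, isOpen_iff_mem_nhds]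
    intro y hy
    change ∀ᶠ t in 𝓝 y, t ∉ S
    have cn : ContinuousAt (fun t : ℂ => ‖t - t₁‖) y := by fun_prop
    rcases lt_or_ge r ‖y - t₁‖ with hout | hin
    · exact (continuousAt_const.eventually_lt cn hout).mono fun t ht hs => lt_asymm ht hs.1
    by_cases hz : y ∈ Z
    · have hyA : y ∈ A := (hA y).2 ⟨hz, hin⟩
      obtain ⟨C, hC⟩ := hloc y hz (η / 2) (half_pos hη)
      have e1 := BAS_log_lt (f := fun t => ‖t - y‖) (y := y) (by fun_prop) (by simp)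
        ((F t₁ - C - 2 * R * Real.log (r ^ 2) - η * ((A.erase y).card * (2 * r))) / (η / 2))
      filter_upwards [eventually_nhdsWithin_iff.1 hC, e1] with t a1 a2 hs
      have hne : t ≠ y := fun e => hs.2.1 (e ▸ hz)
      have b1 := a1 hne
      have b2 := (lt_div_iff₀ (half_pos hη)).1 (a2 (norm_pos_iff.2 (sub_ne_zero.2 hne)))
      have b3 : Real.log (r ^ 2 - ‖t - t₁‖ ^ 2) ≤ Real.log (r ^ 2) :=
        Real.log_le_log (BAS_pos hs.1) (sub_le_self _ (sq_nonneg _))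
      have b4 := mul_le_mul_of_nonneg_left b3 (show 0 ≤ 2 * R by positivity)
      have b5 := mul_le_mul_of_nonneg_left (BAS_sum_le (A := A.erase y)
        (fun v hv => ((hA v).1 (Finset.mem_of_mem_erase hv)).2) hs.1) hη.le
      have b6 := hs.2.2
      rw [hF t, ← Finset.add_sum_erase A _ hyA] at b6
      linarith
    rcases hin.lt_or_eq with hlt | heq
    · have h2 : F y < F t₁ := not_le.1 fun h3 => hy ⟨hlt, hz, h3⟩
      exact ((hc y hlt hz).eventually_lt continuousAt_const h2).mono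
        fun t ht hs => not_le.2 ht hs.2.2
    · have e1 := BAS_log_lt (f := fun t => r ^ 2 - ‖t - t₁‖ ^ 2) (y := y) (by fun_prop)
        (by rw [heq, sub_self]) ((F t₁ - (W y + 1) - η * (A.card * (2 * r))) / (2 * R))
      have e2 : ∀ᶠ t in 𝓝 y, W t < W y + 1 :=
        (hcont y hz).eventually_lt continuousAt_const (lt_add_one _)
      filter_upwards [e1, e2] with t a1 a2 hs
      have b2 := (lt_div_iff₀ (show 0 < 2 * R by positivity)).1 (a1 (BAS_pos hs.1))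
      have b5 := mul_le_mul_of_nonneg_left (BAS_sum_le (fun v hv => ((hA v).1 hv).2) hs.1) hη.le
      have b6 := hs.2.2
      rw [hF t] at b6
      linarith
  have hcp : IsCompact S := (isCompact_closedBall t₁ r).of_isClosed_subset hcl fun t ht =>
    mem_closedBall_iff_norm.2 ht.1.le
  obtain ⟨s, hs, hmax⟩ := hcp.exists_isMaxOn ⟨t₁, hS1⟩ fun t ht =>
    (hc t ht.1 ht.2.1).continuousWithinAt
  refine ⟨s, hs.1, hs.2.1, fun t a1 a2 => ?_⟩
  rcases le_total (F t₁) (F t) with h | h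
  · exact hmax (show t ∈ S from ⟨a1, a2, h⟩)
  · exact h.trans hs.2.2

theorem BAS_main (W : ℂ → ℝ) (Z : Set ℂ) (hZ : Disc Z) {R c : ℝ} (hR : 0 < R) (hc : 0 < c)
    (hcont : ∀ t, t ∉ Z → ContinuousAt W t)
    (hl : ∀ t₀, t₀ ∉ Z → LapGe (fun t => W t - c * Real.exp (W t₀ / R) * ‖t - t₀‖ ^ 2) t₀)
    (hloc : ∀ v ∈ Z, ∀ η > (0 : ℝ), ∃ C, ∀ᶠ t in 𝓝[≠] v, W t ≤ C - η * Real.log ‖t - v‖)
    {t₁ : ℂ} (h1 : t₁ ∉ Z) {r : ℝ} (hr : 0 < r) :
    ∃ M : ℝ, ∀ η > (0 : ℝ), W t₁ ≤ R * Real.log (2 * R / (c * r ^ 2)) + η * M := by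
  have hfin := hZ.finite_inter (isCompact_closedBall t₁ r)
  set A := hfin.toFinset with hAdef
  have hA : ∀ v, v ∈ A ↔ v ∈ Z ∧ ‖v - t₁‖ ≤ r := fun v => by
    rw [hAdef, Set.Finite.mem_toFinset, Set.mem_inter_iff, mem_closedBall_iff_norm]
  refine ⟨A.card * (2 * r) - ∑ v ∈ A, Real.log ‖t₁ - v‖, fun η hη => ?_⟩
  obtain ⟨s, hs, hsZ, hmax⟩ := BAS_max W Z hR hcont hloc h1 hr hA hη fun _ => rfl
  have hB := BAS_pos hs
  set B : ℝ := r ^ 2 - ‖s - t₁‖ ^ 2 with hBdef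
  have hle : c * Real.exp (W s / R) ≤ 2 * R * (r ^ 2 / B ^ 2) := by
    by_contra hlt
    have hL := ((hl s hsZ).add ((poinc_lap hs).smul (show 0 ≤ 2 * R by positivity))).add
      (LapGe.sum (A := A) (φ := fun v t => η * Real.log ‖t - v‖) fun v hv =>
        lapGe_log (h := fun t => t - v) (by fun_prop)
          (sub_ne_zero.2 fun e : s = v => hsZ (e ▸ ((hA v).1 hv).1)) η)
    refine BAS_not_max hL (sub_pos.2 (not_le.1 hlt)) ?_
    have cn : ContinuousAt (fun t : ℂ => ‖t - t₁‖) s := by fun_prop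
    filter_upwards [cn.eventually_lt continuousAt_const hs, hZ.isOpen_compl.mem_nhds hsZ]
      with t a1 a2
    have b1 := hmax t a1 a2
    rw [← Finset.mul_sum, ← Finset.mul_sum, sub_self, norm_zero, ← hBdef]
    linarith
  have h2 : Real.exp (W s / R) ≤ 2 * R / (c * r ^ 2) * ((r ^ 2) ^ 2 / B ^ 2) := by
    have e : 2 * R / (c * r ^ 2) * ((r ^ 2) ^ 2 / B ^ 2) = 2 * R * (r ^ 2 / B ^ 2) / c := by
      field_simp
    rw [e, le_div_iff₀ hc, mul_comm]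
    exact hle
  have h3 := (Real.le_log_iff_exp_le (by positivity)).2 h2
  rw [Real.log_mul (by positivity) (by positivity),
    Real.log_div (x := (r ^ 2) ^ 2) (by positivity) (by positivity),
    Real.log_pow (r ^ 2), Real.log_pow B, div_le_iff₀ hR] at h3
  have h4 := hmax t₁ (by rwa [sub_self, norm_zero]) h1
  rw [sub_self, norm_zero] at h4
  have h5 := mul_le_mul_of_nonneg_left (BAS_sum_le (fun v hv => ((hA v).1 hv).2) hs) hη.le
  have h6 : r ^ 2 - (0 : ℝ) ^ 2 = r ^ 2 := by ring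
  rw [h6] at h4
  push_cast at h3
  linarith

/-- Paper B4. Fix `t₁ ∉ Z`, a radius `r`, `η > 0`, `A = Z ∩ closedBall t₁ r` (finite). The function
`F = W + 2 R log (r² - |t - t₁|²) + η ∑_{v ∈ A} log |t - v|` on `ball t₁ r \ Z` tends to `-∞` at the circle
and at `A` (`W + η ∑ …` is bounded above on `closedBall \ Z`), so it has a maximum point `t*` (the set
where `F ≥ F t₁` is compact). If `c' = c exp (W t* / R) - 2 R r² / (r² - |t* - t₁|²)² > 0`, write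
`F = φ + c' |t|²` with `φ = F - c' |t - t*|² - 2 c' re (t conj t*) + c' |t*|²` and use `LapGe.not_max`.
Then `η → 0`, `r → ∞`. -/
theorem ahlfors (W : ℂ → ℝ) (Z : Set ℂ) (hZ : Disc Z) {R c : ℝ} (hR : 0 < R) (hc : 0 < c)
    (hcont : ∀ t, t ∉ Z → ContinuousAt W t)
    (hl : ∀ t₀, t₀ ∉ Z → LapGe (fun t => W t - c * Real.exp (W t₀ / R) * ‖t - t₀‖ ^ 2) t₀)
    (hloc : ∀ v ∈ Z, ∀ η > (0 : ℝ), ∃ C, ∀ᶠ t in 𝓝[≠] v, W t ≤ C - η * Real.log ‖t - v‖) :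
    False := by
  obtain ⟨t₁, h1⟩ := hZ.exists_not_mem
  have key : ∀ r : ℝ, 0 < r → W t₁ ≤ R * Real.log (2 * R / (c * r ^ 2)) := fun r hr => by
    refine le_of_forall_pos_le_add fun ε hε => ?_
    obtain ⟨M, hM⟩ := BAS_main W Z hZ hR hc hcont hl hloc h1 hr
    have h2 := hM (ε / (|M| + 1)) (by positivity)
    have h3 : ε / (|M| + 1) * M ≤ ε := by
      rw [div_mul_eq_mul_div, div_le_iff₀ (by positivity)]
      exact mul_le_mul_of_nonneg_left (by linarith [le_abs_self M]) hε.le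
    linarith
  set y : ℝ := 2 * R / (c * Real.exp (W t₁ / R - 1)) with hy
  have hy0 : 0 < y := by positivity
  have h2 := key (Real.sqrt y) (Real.sqrt_pos.2 hy0)
  have h3 : 2 * R / (c * Real.sqrt y ^ 2) = Real.exp (W t₁ / R - 1) := by
    rw [Real.sq_sqrt hy0.le, hy]
    field_simp
  rw [h3, Real.log_exp, mul_sub, mul_div_cancel₀ _ hR.ne'] at h2
  linarith

end Pool.Agent.P.MP_a62d3c_co.FF
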