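import Pool.Agent.P.MP_a62d3c_co.FB.Defs
import Pool.Agent.P.MP_a62d3c_co.FF.IBP
import Pool.Agent.P.MP_a62d3c_co.FF.Gm

namespace Pool.Agent.P.MP_a62d3c_co.FF

open Filter Topology Polynomial MeasureTheory Asymptotics
open scoped ComplexConjugate Matrix ComplexOrder

/-- the regularised Cauchy kernel -/
noncomputable def BCP_K (s : ℝ) (y : ℂ) : ℂ := conj y / ((‖y‖ ^ 2 + s ^ 2 : ℝ) : ℂ)

/-- its `dbar` derivative -/
noncomputable def BCP_rho (s : ℝ) (y : ℂ) : ℝ := s ^ 2 / (‖y‖ ^ 2 + s ^ 2) ^ 2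

/-- the size of the error -/
noncomputable def BCP_e (s : ℝ) (y : ℂ) : ℝ := s ^ 2 / (‖y‖ * (‖y‖ ^ 2 + s ^ 2))

lemma BCP_err {s : ℝ} (hs : 0 < s) (y : ℂ) : ‖y⁻¹ - BCP_K s y‖ = BCP_e s y := by
  rcases eq_or_ne y 0 with rfl | hy
  · simp [BCP_K, BCP_e]
  have hp : 0 < ‖y‖ ^ 2 + s ^ 2 := by positivity
  have hN : ((‖y‖ ^ 2 + s ^ 2 : ℝ) : ℂ) ≠ 0 := Complex.ofReal_ne_zero.2 hp.ne'
  have e : y⁻¹ - BCP_K s y = ((s ^ 2 : ℝ) : ℂ) / (y * ((‖y‖ ^ 2 + s ^ 2 : ℝ) : ℂ)) := by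
    rw [BCP_K]
    field_simp
    push_cast
    linear_combination -Complex.mul_conj' y
  rw [e, norm_div, norm_mul, Complex.norm_real, Complex.norm_real, Real.norm_of_nonneg hp.le,
    Real.norm_of_nonneg (sq_nonneg s), BCP_e]

lemma BCP_K_cont {s : ℝ} (hs : 0 < s) : Continuous (BCP_K s) :=
  Complex.continuous_conj.div (by fun_prop) fun y =>
    Complex.ofReal_ne_zero.2 (by positivity)

lemma BCP_rho_cont {s : ℝ} (hs : 0 < s) : Continuous (BCP_rho s) :=
  continuous_const.div (by fun_prop) fun y => by positivity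

lemma BCP_line (x v : ℂ) (t : ℝ) : HasDerivAt (fun t : ℝ => x + t * v) v t := by
  simpa using ((hasDerivAt_id t).ofReal_comp.mul_const v).const_add x

lemma BCP_K_der {s : ℝ} (hs : 0 < s) (a x v : ℂ) (t : ℝ) :
    HasDerivAt (fun t : ℝ => BCP_K s (x + t * v - a))
      (conj v * BCP_rho s (x + t * v - a) - v * BCP_K s (x + t * v - a) ^ 2) t := by
  have hγ := (BCP_line x v t).sub_const a
  have hN : ((‖x + t * v - a‖ ^ 2 + s ^ 2 : ℝ) : ℂ) ≠ 0 := Complex.ofReal_ne_zero.2 (by positivity)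
  have h := hγ.star.div (hγ.norm_sq.add_const (s ^ 2)).ofReal_comp hN
  refine h.congr_deriv ?_
  simp only [BCP_K, BCP_rho, Complex.star_def, Complex.inner]
  generalize x + t * v - a = y at *
  rw [Complex.ofReal_div, Complex.ofReal_pow (‖y‖ ^ 2 + s ^ 2), Complex.ofReal_mul,
    Complex.re_eq_add_conj]
  simp only [map_mul, Complex.conj_conj]
  field_simp
  push_cast
  linear_combination (-2 * conj v) * Complex.mul_conj' y

lemma BCP_e_one : Integrable (BCP_e 1) := by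
  have h := (integrable_fun_norm_addHaar (volume : Measure ℂ)
    (f := fun r : ℝ => 1 ^ 2 / (r * (r ^ 2 + 1 ^ 2)))).2 (by
      refine integrable_inv_one_add_sq.integrableOn.congr_fun (fun r hr => ?_) measurableSet_Ioi
      have : r ≠ 0 := ne_of_gt hr
      simp only [Complex.finrank_real_complex, smul_eq_mul]
      field_simp
      ring)
  exact h

lemma BCP_e_scale {s : ℝ} (hs : 0 < s) (y : ℂ) : BCP_e s y = s⁻¹ * BCP_e 1 (s⁻¹ • y) := by
  rcases eq_or_ne y 0 with rfl | hy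
  · simp [BCP_e]
  have : ‖y‖ ≠ 0 := norm_ne_zero_iff.2 hy
  simp only [BCP_e, norm_smul, Real.norm_of_nonneg (inv_pos.2 hs).le]
  field_simp

lemma BCP_e_int {s : ℝ} (hs : 0 < s) (a : ℂ) : Integrable (fun x => BCP_e s (x - a)) ∧
    ∫ x, BCP_e s (x - a) = s * ∫ y, BCP_e 1 y := by
  constructor
  · refine Integrable.comp_sub_right ?_ a
    rw [funext (BCP_e_scale hs)]
    exact (BCP_e_one.comp_smul (inv_pos.2 hs).ne').const_mul _
  · rw [integral_sub_right_eq_self (BCP_e s), funext (BCP_e_scale hs), integral_const_mul,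
      Measure.integral_comp_inv_smul_of_nonneg _ _ hs.le, Complex.finrank_real_complex, smul_eq_mul]
    field_simp

lemma BCP_rho_one : Integrable (BCP_rho 1) ∧ ∫ y, BCP_rho 1 y = Real.pi := by
  have hd : ∀ r ∈ Set.Ici (0 : ℝ), HasDerivAt (fun r : ℝ => -(2 * (r ^ 2 + 1))⁻¹)
      (r ^ (Module.finrank ℝ ℂ - 1) • (1 ^ 2 / (r ^ 2 + 1 ^ 2) ^ 2)) r := by
    intro r _
    have h := ((((hasDerivAt_pow 2 r).add_const 1).const_mul 2).inv (by positivity)).neg
    refine h.congr_deriv ?_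
    simp only [Complex.finrank_real_complex, smul_eq_mul]
    field_simp
    ring
  have hn : ∀ r ∈ Set.Ioi (0 : ℝ),
      0 ≤ r ^ (Module.finrank ℝ ℂ - 1) • ((1 : ℝ) ^ 2 / (r ^ 2 + 1 ^ 2) ^ 2) := fun r hr =>
    smul_nonneg (pow_nonneg (le_of_lt hr) _) (by positivity)
  have ht : Tendsto (fun r : ℝ => -(2 * (r ^ 2 + 1))⁻¹) atTop (𝓝 0) := by
    simpa using (tendsto_inv_atTop_zero.comp ((tendsto_atTop_add_const_right _ (1 : ℝ)
      (tendsto_pow_atTop two_ne_zero)).const_mul_atTop two_pos)).neg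
  refine ⟨(integrable_fun_norm_addHaar (volume : Measure ℂ)
    (f := fun r : ℝ => 1 ^ 2 / (r ^ 2 + 1 ^ 2) ^ 2)).2 (integrableOn_Ioi_deriv_of_nonneg' hd hn ht),
    (integral_fun_norm_addHaar (volume : Measure ℂ)
      (fun r : ℝ => 1 ^ 2 / (r ^ 2 + 1 ^ 2) ^ 2)).trans ?_⟩
  rw [integral_Ioi_of_hasDerivAt_of_nonneg' hd hn ht, Complex.finrank_real_complex, Measure.real,
    Complex.volume_ball]
  simp
  ring

lemma BCP_rho_scale {s : ℝ} (hs : 0 < s) (y : ℂ) :
    BCP_rho s y = (s ^ 2)⁻¹ * BCP_rho 1 (s⁻¹ • y) := by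
  simp only [BCP_rho, norm_smul, Real.norm_of_nonneg (inv_pos.2 hs).le]
  field_simp

lemma BCP_rho_int {s : ℝ} (hs : 0 < s) (a : ℂ) :
    Integrable fun x => ((BCP_rho s (x - a) : ℝ) : ℂ) := by
  have h : Integrable (BCP_rho s) := by
    rw [funext (BCP_rho_scale hs)]
    exact (BCP_rho_one.1.comp_smul (inv_pos.2 hs).ne').const_mul _
  exact (h.comp_sub_right a).ofReal

lemma BCP_delta {g : ℂ → ℂ} (hg : Continuous g) {M : ℝ} (hM : ∀ x, ‖g x‖ ≤ M) (a : ℂ) :
    Tendsto (fun s : ℝ => ∫ x, g x * BCP_rho s (x - a)) (𝓝[>] 0) (𝓝 (g a * Real.pi)) := by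
  have h1 : Tendsto (fun s : ℝ => ∫ y, g (s • y + a) * BCP_rho 1 y) (𝓝[>] 0)
      (𝓝 (∫ y, g a * BCP_rho 1 y)) := by
    have hc := BCP_rho_cont one_pos
    refine tendsto_integral_filter_of_dominated_convergence (fun y => M * ‖BCP_rho 1 y‖)
      (Eventually.of_forall fun s => Continuous.aestronglyMeasurable (by fun_prop))
      (Eventually.of_forall fun s => Eventually.of_forall fun y => ?_)
      (BCP_rho_one.1.norm.const_mul M) (Eventually.of_forall fun y => ?_)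
    · rw [norm_mul, Complex.norm_real]
      exact mul_le_mul_of_nonneg_right (hM _) (norm_nonneg _)
    · exact Tendsto.mono_left (Continuous.tendsto' (by fun_prop) _ _ (by simp)) nhdsWithin_le_nhds
  rw [integral_const_mul, integral_complex_ofReal, BCP_rho_one.2] at h1
  refine h1.congr' (eventually_nhdsWithin_of_forall fun s hs => ?_)
  have hs' : 0 < s := hs
  have h2 := Measure.integral_comp_inv_smul_of_nonneg (volume : Measure ℂ)
    (fun y => g (s • y + a) * BCP_rho 1 y) hs'.le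
  have h3 := integral_sub_right_eq_self (μ := (volume : Measure ℂ))
    (fun x => g (x + a) * BCP_rho s x) a
  simp only [sub_add_cancel] at h3
  simp only [smul_inv_smul₀ hs'.ne', Complex.finrank_real_complex] at h2
  dsimp only
  rw [h3]
  simp only [BCP_rho_scale hs', Complex.ofReal_mul, mul_left_comm _ (((s ^ 2)⁻¹ : ℝ) : ℂ)]
  rw [integral_const_mul, h2, Complex.real_smul, ← mul_assoc, ← Complex.ofReal_mul,
    inv_mul_cancel₀ (by positivity), Complex.ofReal_one, one_mul]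

lemma BCP_far (R : ℝ) : ∀ᶠ x : ℂ in cocompact ℂ, R ≤ ‖x‖ :=
  tendsto_norm_cocompact_atTop.eventually_ge_atTop R

lemma BCP_int {F : ℂ → ℂ} (hc : Continuous F) (h : F =O[cocompact ℂ] fun x => x⁻¹ ^ 3) :
    Integrable F := by
  refine hc.locallyIntegrable.integrable_of_isBigO_cocompact (h.trans (IsBigO.of_bound 8 ?_))
    ((integrable_one_add_norm (E := ℂ) (r := 3) (by simp; norm_num)).integrableAtFilter _)
  refine (BCP_far 1).mono fun x hx => ?_
  rw [norm_pow, norm_inv, Real.norm_of_nonneg (by positivity), Real.rpow_neg (by positivity),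
    show (3 : ℝ) = (3 : ℕ) by norm_num, Real.rpow_natCast, ← inv_pow,
    show (8 : ℝ) = 2 ^ 3 by norm_num, ← mul_pow, ← div_eq_mul_inv, ← one_div]
  gcongr ?_ ^ 3
  rw [div_le_div_iff₀ (by linarith) (by linarith)]
  linarith

lemma BCP_u (a : ℂ) : (fun x => (x - a)⁻¹) =O[cocompact ℂ] fun x : ℂ => x⁻¹ := by
  refine IsBigO.of_bound 2 ((BCP_far (2 * ‖a‖ + 1)).mono fun x hx => ?_)
  have h1 := norm_sub_norm_le x a
  have h2 := norm_nonneg a
  rw [norm_inv, norm_inv, ← div_eq_mul_inv, ← one_div, div_le_div_iff₀ (by linarith) (by linarith)]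
  linarith

lemma BCP_w (n : ℕ) : (fun x : ℂ => x⁻¹ ^ (n + 1)) =O[cocompact ℂ] fun x : ℂ => x⁻¹ ^ n := by
  refine IsBigO.of_bound 1 ((BCP_far 1).mono fun x hx => ?_)
  rw [pow_succ', norm_mul, norm_inv]
  exact mul_le_mul_of_nonneg_right (inv_le_one_of_one_le₀ hx) (norm_nonneg _)

lemma BCP_K1 {s : ℝ} (hs : 0 < s) (a : ℂ) :
    (fun x => BCP_K s (x - a) - x⁻¹ - a * x⁻¹ ^ 2) =O[cocompact ℂ] fun x : ℂ => x⁻¹ ^ 3 := by
  have h1 : (fun x => (x - a)⁻¹ - BCP_K s (x - a)) =O[cocompact ℂ] fun x : ℂ => x⁻¹ ^ 3 := by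
    refine IsBigO.trans (IsBigO.of_bound (s ^ 2) (Eventually.of_forall fun x => ?_))
      ((BCP_u a).pow 3)
    rw [BCP_err hs, BCP_e, norm_pow, norm_inv, inv_pow, ← div_eq_mul_inv]
    rcases (norm_nonneg (x - a)).eq_or_lt with h | h
    · simp [← h]
    · refine div_le_div_of_nonneg_left (sq_nonneg s) (by positivity) ?_
      nlinarith [mul_pos h (pow_pos hs 2)]
  have h2 : (fun x => a ^ 2 * ((x - a)⁻¹ * x⁻¹ ^ 2)) =O[cocompact ℂ] fun x : ℂ => x⁻¹ ^ 3 :=
    (((BCP_u a).mul (isBigO_refl (fun x : ℂ => x⁻¹ ^ 2) _)).congr_right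
      fun x => (pow_succ' _ 2).symm).const_mul_left _
  refine (h2.sub h1).congr' ((BCP_far (‖a‖ + 1)).mono fun x hx => ?_) EventuallyEq.rfl
  have hx0 : x ≠ 0 := norm_pos_iff.1 (by linarith [norm_nonneg a])
  have hxa : x - a ≠ 0 := sub_ne_zero.2 fun e => by rw [e] at hx; linarith
  dsimp only
  field_simp
  ring

lemma BCP_K2 {s : ℝ} (hs : 0 < s) (a : ℂ) :
    (fun x => BCP_K s (x - a) ^ 2 - x⁻¹ ^ 2) =O[cocompact ℂ] fun x : ℂ => x⁻¹ ^ 3 := by
  have h1 : (fun x => BCP_K s (x - a) - x⁻¹) =O[cocompact ℂ] fun x : ℂ => x⁻¹ ^ 2 :=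
    (((BCP_K1 hs a).trans (BCP_w 2)).add
      ((isBigO_refl (fun x : ℂ => x⁻¹ ^ 2) _).const_mul_left a)).congr_left fun x => by ring
  have h2 : (fun x => BCP_K s (x - a) + x⁻¹) =O[cocompact ℂ] fun x : ℂ => x⁻¹ ^ 1 :=
    ((h1.trans (BCP_w 1)).add
      ((isBigO_refl (fun x : ℂ => x⁻¹ ^ 1) _).const_mul_left 2)).congr_left fun x => by ring
  exact (h1.mul h2).congr (fun x => by ring) fun x => by ring

section

variable {J : Type} [Fintype J] {z c : J → ℂ} {s : ℝ}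

lemma BCP_H (hs : 0 < s) (h0 : ∑ j, c j = 0) (h1 : ∑ j, c j * z j = 0) :
    (fun x => ∑ j, c j * BCP_K s (x - z j)) =O[cocompact ℂ] fun x : ℂ => x⁻¹ ^ 3 := by
  refine (IsBigO.sum (s := Finset.univ)
    fun j _ => (BCP_K1 hs (z j)).const_mul_left (c j)).congr_left fun x => ?_
  simp only [Finset.sum_apply, mul_sub, ← mul_assoc, Finset.sum_sub_distrib, ← Finset.sum_mul, h0,
    h1]
  simp

lemma BCP_H2 (hs : 0 < s) (h0 : ∑ j, c j = 0) :
    (fun x => ∑ j, c j * BCP_K s (x - z j) ^ 2) =O[cocompact ℂ] fun x : ℂ => x⁻¹ ^ 3 := by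
  refine (IsBigO.sum (s := Finset.univ)
    fun j _ => (BCP_K2 hs (z j)).const_mul_left (c j)).congr_left fun x => ?_
  simp only [Finset.sum_apply, mul_sub, Finset.sum_sub_distrib, ← Finset.sum_mul, h0]
  simp

lemma BCP_H_int (hs : 0 < s) (h0 : ∑ j, c j = 0) (h1 : ∑ j, c j * z j = 0) :
    Integrable fun x => ∑ j, c j * BCP_K s (x - z j) := by
  have := BCP_K_cont hs
  exact BCP_int (by fun_prop) (BCP_H hs h0 h1)

lemma BCP_ibp (hs : 0 < s) (h0 : ∑ j, c j = 0) (h1 : ∑ j, c j * z j = 0) {g : ℂ → ℂ}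
    (hg : ContDiff ℝ 1 g) {B M : ℝ} (hB : ∀ x, ‖fderiv ℝ g x‖ ≤ B) (hM : ∀ x, ‖g x‖ ≤ M) :
    ‖∑ j, c j * ∫ x, g x * BCP_rho s (x - z j)‖ ≤ B * ∫ x, ‖∑ j, c j * BCP_K s (x - z j)‖ := by
  have hK := BCP_K_cont hs
  have hgc := hg.continuous
  have hdc : Continuous (fderiv ℝ g) := hg.continuous_fderiv one_ne_zero
  have iH := BCP_H_int hs h0 h1
  have iH2 : Integrable fun x => ∑ j, c j * BCP_K s (x - z j) ^ 2 :=
    BCP_int (by fun_prop) (BCP_H2 hs h0)
  have iR : Integrable fun x => ∑ j, c j * (BCP_rho s (x - z j) : ℂ) :=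
    integrable_finsetSum _ fun j _ => (BCP_rho_int hs (z j)).const_mul _
  have ig : ∀ {F : ℂ → ℂ}, Integrable F → Integrable fun x => g x * F x := fun hF =>
    hF.bdd_mul hgc.aestronglyMeasurable (Eventually.of_forall hM)
  have iD : ∀ v, Integrable fun x => fderiv ℝ g x v * ∑ j, c j * BCP_K s (x - z j) := fun v =>
    iH.bdd_mul (c := B * ‖v‖) (Continuous.aestronglyMeasurable (by fun_prop))
      (Eventually.of_forall fun x => (fderiv ℝ g x).le_of_opNorm_le (hB x) v)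
  have iS : ∀ v : ℂ, Integrable fun x => g x * (conj v * ∑ j, c j * (BCP_rho s (x - z j) : ℂ) -
      v * ∑ j, c j * BCP_K s (x - z j) ^ 2) := fun v =>
    ig ((iR.const_mul _).sub (iH2.const_mul _))
  have iG : ∀ v, Integrable fun x => fderiv ℝ g x v * ∑ j, c j * BCP_K s (x - z j) +
      g x * (conj v * ∑ j, c j * (BCP_rho s (x - z j) : ℂ) -
        v * ∑ j, c j * BCP_K s (x - z j) ^ 2) := fun v => (iD v).add (iS v)
  have hder : ∀ (v x : ℂ) (t : ℝ), HasDerivAt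
      (fun t : ℝ => g (x + t * v) * ∑ j, c j * BCP_K s (x + t * v - z j))
      (fderiv ℝ g (x + t * v) v * ∑ j, c j * BCP_K s (x + t * v - z j) +
        g (x + t * v) * (conj v * ∑ j, c j * (BCP_rho s (x + t * v - z j) : ℂ) -
          v * ∑ j, c j * BCP_K s (x + t * v - z j) ^ 2)) t := by
    intro v x t
    have a1 := (hg.differentiable one_ne_zero (x + t * v)).hasFDerivAt.comp_hasDerivAt t
      (BCP_line x v t)
    have a2 := HasDerivAt.fun_sum (u := Finset.univ)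
      fun j _ => (BCP_K_der hs (z j) x v t).const_mul (c j)
    refine (a1.fun_mul a2).congr_deriv ?_
    simp only [Function.comp_apply, Finset.mul_sum, ← Finset.sum_sub_distrib]
    congr 1
    exact Finset.sum_congr rfl fun j _ => by ring
  have iF : Integrable fun x => (g x * ∑ j, c j * BCP_K s (x - z j)) ^ 2 := by
    have b1 : (fun x => g x * ∑ j, c j * BCP_K s (x - z j)) =O[cocompact ℂ]
        fun x : ℂ => x⁻¹ ^ 3 := by
      refine IsBigO.trans (IsBigO.of_bound M (Eventually.of_forall fun x => ?_)) (BCP_H hs h0 h1)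
      rw [norm_mul]
      exact mul_le_mul_of_nonneg_right (hM x) (norm_nonneg _)
    refine BCP_int (by fun_prop) (((b1.pow 2).congr_right fun x => ?_).trans
      (((BCP_w 5).trans (BCP_w 4)).trans (BCP_w 3)))
    ring
  have e1 := IBP_re (F := fun x => g x * ∑ j, c j * BCP_K s (x - z j)) (hder 1) (iG 1) iF
  have e2 := IBP_im (F := fun x => g x * ∑ j, c j * BCP_K s (x - z j)) (hder Complex.I)
    (iG Complex.I) iF
  rw [integral_add (iD _) (iS _)] at e1 e2
  simp only [mul_sub, mul_left_comm (g _)] at e1 e2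
  rw [integral_sub ((ig iR).const_mul _) ((ig iH2).const_mul _), integral_const_mul,
    integral_const_mul] at e1 e2
  have e3 : ∑ j, c j * ∫ x, g x * BCP_rho s (x - z j) =
      ∫ x, g x * ∑ j, c j * (BCP_rho s (x - z j) : ℂ) := by
    simp only [Finset.mul_sum, mul_left_comm (g _)]
    rw [integral_finsetSum _ fun j _ => (ig (BCP_rho_int hs (z j))).const_mul _]
    simp only [integral_const_mul]
  have hb : ∀ v : ℂ, ‖v‖ = 1 → ‖∫ x, fderiv ℝ g x v * ∑ j, c j * BCP_K s (x - z j)‖ ≤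
      B * ∫ x, ‖∑ j, c j * BCP_K s (x - z j)‖ := by
    intro v hv
    rw [← integral_const_mul]
    refine norm_integral_le_of_norm_le (iH.norm.const_mul B) (Eventually.of_forall fun x => ?_)
    rw [norm_mul]
    refine mul_le_mul_of_nonneg_right ?_ (norm_nonneg _)
    simpa [hv] using (fderiv ℝ g x).le_of_opNorm_le (hB x) v
  have e4 : 2 * ∫ x, g x * ∑ j, c j * (BCP_rho s (x - z j) : ℂ) =
      -((∫ x, fderiv ℝ g x 1 * ∑ j, c j * BCP_K s (x - z j)) +
        Complex.I * ∫ x, fderiv ℝ g x Complex.I * ∑ j, c j * BCP_K s (x - z j)) := by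
    rw [map_one] at e1
    rw [Complex.conj_I] at e2
    linear_combination e1 + Complex.I * e2 + ((∫ x, g x * ∑ j, c j * (BCP_rho s (x - z j) : ℂ)) +
      ∫ x, g x * ∑ j, c j * BCP_K s (x - z j) ^ 2) * Complex.I_sq
  have e5 := congrArg norm e4
  rw [norm_mul, norm_neg, Complex.norm_two] at e5
  have e6 := norm_add_le (∫ x, fderiv ℝ g x 1 * ∑ j, c j * BCP_K s (x - z j))
    (Complex.I * ∫ x, fderiv ℝ g x Complex.I * ∑ j, c j * BCP_K s (x - z j))
  rw [norm_mul, Complex.norm_I, one_mul] at e6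
  rw [e3]
  linarith [hb 1 norm_one, hb Complex.I Complex.norm_I]

lemma BCP_Q_int (h0 : ∑ j, c j = 0) (h1 : ∑ j, c j * z j = 0) :
    Integrable fun x => ∑ j, c j * (x - z j)⁻¹ := by
  have hK := (BCP_K_cont one_pos).measurable
  have i1 : ∀ j, Integrable fun x => (x - z j)⁻¹ - BCP_K 1 (x - z j) := fun j =>
    (BCP_e_int one_pos (z j)).1.mono' (Measurable.aestronglyMeasurable (by fun_prop))
      (Eventually.of_forall fun x => (BCP_err one_pos _).le)
  refine ((BCP_H_int one_pos h0 h1).add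
    (integrable_finsetSum Finset.univ fun j _ => (i1 j).const_mul (c j))).congr
    (Eventually.of_forall fun x => ?_)
  simp only [Pi.add_apply, ← Finset.sum_add_distrib]
  exact Finset.sum_congr rfl fun j _ => by ring

lemma BCP_H_le (hs : 0 < s) (h0 : ∑ j, c j = 0) (h1 : ∑ j, c j * z j = 0) :
    ∫ x, ‖∑ j, c j * BCP_K s (x - z j)‖ ≤
      (∫ x, ‖∑ j, c j * (x - z j)⁻¹‖) + ∑ j, ‖c j‖ * (s * ∫ y, BCP_e 1 y) := by
  have i1 : ∀ j ∈ Finset.univ, Integrable fun x => ‖c j‖ * BCP_e s (x - z j) := fun j _ =>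
    (BCP_e_int hs (z j)).1.const_mul _
  have e : ∑ j, ‖c j‖ * (s * ∫ y, BCP_e 1 y) = ∫ x, ∑ j, ‖c j‖ * BCP_e s (x - z j) := by
    rw [integral_finsetSum _ i1]
    exact Finset.sum_congr rfl fun j _ => by rw [integral_const_mul, (BCP_e_int hs (z j)).2]
  rw [e, ← integral_add (BCP_Q_int h0 h1).norm (integrable_finsetSum _ i1)]
  refine integral_mono (BCP_H_int hs h0 h1).norm
    ((BCP_Q_int h0 h1).norm.add (integrable_finsetSum _ i1)) fun x => ?_
  have e2 : ∑ j, c j * BCP_K s (x - z j) =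
      ∑ j, c j * (x - z j)⁻¹ - ∑ j, c j * ((x - z j)⁻¹ - BCP_K s (x - z j)) := by
    rw [← Finset.sum_sub_distrib]
    exact Finset.sum_congr rfl fun j _ => by ring
  dsimp only
  rw [e2]
  refine (norm_sub_le _ _).trans (add_le_add le_rfl ((norm_sum_le _ _).trans (le_of_eq ?_)))
  exact Finset.sum_congr rfl fun j _ => by rw [norm_mul, BCP_err hs]

lemma BCP_main (h0 : ∑ j, c j = 0) (h1 : ∑ j, c j * z j = 0) {g : ℂ → ℂ}
    (hg : ContDiff ℝ 1 g) {B M : ℝ} (hB : ∀ x, ‖fderiv ℝ g x‖ ≤ B) (hM : ∀ x, ‖g x‖ ≤ M) :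
    ‖∑ j, c j * g (z j)‖ ≤ B * ∫ x, ‖∑ j, c j * (x - z j)⁻¹‖ := by
  have hB0 : 0 ≤ B := (norm_nonneg _).trans (hB 0)
  have t1 : Tendsto (fun s : ℝ => ‖∑ j, c j * ∫ x, g x * BCP_rho s (x - z j)‖) (𝓝[>] 0)
      (𝓝 ‖∑ j, c j * (g (z j) * Real.pi)‖) :=
    (tendsto_finsetSum _ fun j _ => (BCP_delta hg.continuous hM (z j)).const_mul (c j)).norm
  have t2 : Tendsto (fun s : ℝ => B * ((∫ x, ‖∑ j, c j * (x - z j)⁻¹‖) +
      ∑ j, ‖c j‖ * (s * ∫ y, BCP_e 1 y))) (𝓝[>] 0) (𝓝 (B * ∫ x, ‖∑ j, c j * (x - z j)⁻¹‖)) :=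
    Tendsto.mono_left (Continuous.tendsto' (by fun_prop) _ _ (by simp)) nhdsWithin_le_nhds
  have h := le_of_tendsto_of_tendsto t1 t2 (eventually_nhdsWithin_of_forall fun s hs =>
    (BCP_ibp hs h0 h1 hg hB hM).trans (mul_le_mul_of_nonneg_left (BCP_H_le hs h0 h1) hB0))
  simp only [← mul_assoc, ← Finset.sum_mul] at h
  rw [norm_mul, Complex.norm_real, Real.norm_of_nonneg Real.pi_pos.le] at h
  exact (le_mul_of_one_le_right (norm_nonneg _) (by linarith [Real.pi_gt_three])).trans h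

end

/-- Cauchy-Pompeiu. `c j = P (z j) / dpr z j`, `∑ c j / (x - z j) = P x / f x`; `k ε x = conj x /
(|x|² + ε)`, `H ε x = ∑ c j * k ε (x - z j)`. For large `x`, `H ε = P / f + O(|x|⁻³) = O(|x|⁻³)` and its
derivatives are `O(|x|⁻⁴)` (`k ε x = 1 / x - ε / (x (|x|² + ε))`). `IBP_re`, `IBP_im` for `g * H ε`,
combined as `(∂₁ + I ∂₂) / 2`, give `∫ (dbar g) H ε = - ∑ c j ∫ g x * ε / (|x - z j|² + ε)²`; the right
side tends to `- π ∑ c j g (z j)` (substitute `x = z j + √ε y`, dominated convergence,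
`∫ (1 + |y|²)⁻² = π`; only a lower bound `≥ 1` of this constant is needed), and the left side tends to
`∫ (dbar g) P / f` (dominated by `C / |x - z j|` near the points). -/
theorem pompeiu {J : Type} [Fintype J] [DecidableEq J] {z : J → ℂ} (hz : Function.Injective z)
    {g : ℂ → ℂ} (hg : ContDiff ℝ 1 g) {B M : ℝ} (hB : ∀ x, ‖fderiv ℝ g x‖ ≤ B)
    (hM : ∀ x, ‖g x‖ ≤ M) {P : ℂ[X]} (hP : P.natDegree + 3 ≤ Fintype.card J) :
    ‖hig z (fun j => g (z j)) P‖ ≤ B * ∫ x : ℂ, ‖P.eval x / (fP z).eval x‖ := by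
  have h0 : ∑ j, P.eval (z j) / dpr z j = 0 := by
    simpa [hig] using hig_one hz (P := P) (by omega)
  have h1 : ∑ j, P.eval (z j) / dpr z j * z j = 0 := by
    have := hig_one hz (P := P * X) (by
      have := natDegree_mul_le (p := P) (q := X)
      rw [natDegree_X] at this
      omega)
    simp only [hig, eval_mul, eval_X, mul_one] at this
    rw [← this]
    exact Finset.sum_congr rfl fun j _ => by ring
  have e1 : hig z (fun j => g (z j)) P = ∑ j, P.eval (z j) / dpr z j * g (z j) :=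
    Finset.sum_congr rfl fun j _ => by ring
  have e2 : ∫ x : ℂ, ‖P.eval x / (fP z).eval x‖ =
      ∫ x : ℂ, ‖∑ j, P.eval (z j) / dpr z j * (x - z j)⁻¹‖ := by
    refine integral_congr_ae (((Set.finite_range z).countable.ae_notMem volume).mono
      fun x hx => congrArg norm ?_)
    have hx' : ∀ i ∈ Finset.univ, x ≠ z i := fun i _ e => hx ⟨i, e.symm⟩
    have hd : P.degree < (Finset.univ : Finset J).card :=
      degree_le_natDegree.trans_lt (by rw [Finset.card_univ]; exact_mod_cast (by omega))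
    have h2 := Lagrange.eval_interpolate_not_at_node (fun i => P.eval (z i)) hx'
    rw [← Lagrange.eq_interpolate hz.injOn hd] at h2
    have h3 : (fP z).eval x ≠ 0 := Lagrange.eval_nodal_not_at_node hx'
    rw [div_eq_iff h3, h2, mul_comm]
    congr 1
    refine Finset.sum_congr rfl fun j _ => ?_
    rw [Lagrange.nodalWeight, Finset.prod_inv_distrib, dpr]
    ring
  rw [e1, e2]
  exact BCP_main h0 h1 hg hB hM

end Pool.Agent.P.MP_a62d3c_co.FF
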