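import Pool.Agent.P.MP_a62d3c_co.FF.Defs

/-! Definitions for the entire-curve version (paper: FB_paper.md). -/

namespace Pool.Agent.P.MP_a62d3c_co.FF

open Filter Topology Polynomial

noncomputable section

/-! ### real trees, uniform bounds -/

/-- `clip` with real data -/
def clipR (lo len ρ : ℝ) : ℝ := min len (max (ρ - lo) 0)

/-- `mn` with real data -/
def mnR {J : Type} [DecidableEq J] (d : J → J → ℝ) (i j : J) (ρ : ℝ) : ℝ :=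
  if i = j then ρ else min ρ (d i j)

/-- `En` with real data -/
def EnR {J : Type} [Fintype J] [DecidableEq J] (d : J → J → ℝ) (mu : J → ℕ) (μ : ℝ) (j : J)
    (ρ : ℝ) : ℝ :=
  ρ + ∑ i, ((mu i : ℝ) - μ) * mnR d i j ρ

/-- symmetric and ultrametric, real values -/
structure UltraR {J : Type} (d : J → J → ℝ) : Prop where
  symm : ∀ i j, d i j = d j i
  ultra : ∀ i j k, i ≠ j → j ≠ k → i ≠ k → min (d i j) (d j k) ≤ d i k

/-- a tree with real levels -/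
structure RTree {J U : Type} [DecidableEq J] [Fintype U] (d : J → J → ℝ) (n0 : ℝ)
    (S : U → Finset J) (lo len : U → ℝ) : Prop where
  len_nonneg : ∀ u, 0 ≤ len u
  base : ∀ i j, i ≠ j → n0 ≤ d i j
  lo_ge : ∀ u, len u ≠ 0 → n0 ≤ lo u
  inn : ∀ u, len u ≠ 0 → ∀ i ∈ S u, ∀ j ∈ S u, i ≠ j → lo u + len u ≤ d i j
  out : ∀ u, len u ≠ 0 → ∀ i ∈ S u, ∀ j, j ∉ S u → d i j ≤ lo u
  min_eq : ∀ i j, i ≠ j → ∀ ρ, n0 ≤ ρ →
    min ρ (d i j) = n0 + ∑ u, if i ∈ S u ∧ j ∈ S u then clipR (lo u) (len u) ρ else 0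
  chain_le : ∀ j ρ, n0 ≤ ρ → n0 + (∑ u, if j ∈ S u then clipR (lo u) (len u) ρ else 0) ≤ ρ

/-- `|z i - z j|` is `exp (- d i j)` up to the factor `C₀` -/
def Cmp {J : Type} (C₀ : ℝ) (z : J → ℂ) (d : J → J → ℝ) : Prop :=
  ∀ i j, i ≠ j → Real.exp (-d i j) ≤ ‖z i - z j‖ ∧ ‖z i - z j‖ ≤ C₀ * Real.exp (-d i j)

/-- uniform bound `|F x| ≤ C exp (- ω x)` -/
def Bw {X : Type} (F : X → ℂ) (ω : X → ℝ) : Prop :=
  ∃ C, 0 < C ∧ ∀ x, ‖F x‖ ≤ C * Real.exp (-ω x)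

/-- uniform version of `IntF` -/
def IntW {X : Type} (e : ℕ) (Λ : X → R2 →ₗ[ℂ] ℂ) (c c' : X → ℂ) (a a' : X → ℝ) : Prop :=
  ∀ m : Box e, Bw (fun x => Λ x (mono (c x) (c' x) m))
    fun x => (m.1 : ℕ) * a x + (m.2 : ℕ) * a' x

/-- uniform version of `Cl` -/
def ClW {X κ : Type} [Fintype κ] [DecidableEq κ] {e : ℕ} (g : κ ≃ Mb e) (z w : X → κ → ℂ)
    (a a' : X → κ → ℝ) (ν : X → ℝ) : Prop :=
  ∀ Λ : X → κ → R2 →ₗ[ℂ] ℂ,
    (∀ i, IntW e (fun x => Λ x i) (fun x => z x i) (fun x => w x i) (fun x => a x i)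
      fun x => a' x i) → Bw (fun x => DetF g (Λ x)) ν

/-- gain of the Hodge term per unit length -/
def gA (ρ s : ℕ) : ℝ :=
  kH ρ * ((s : ℝ) * ((s : ℝ) - 1) / 2) - Pf (pP ρ) (1 / 4 * s) - Pf (qP ρ) (3 / 4 * s)

section
variable {J : Type} [Fintype J] [DecidableEq J]

/-- pairs of pairs of distinct indices -/
def Q4 (J : Type) [Fintype J] [DecidableEq J] : Finset ((J × J) × (J × J)) :=
  (Finset.univ : Finset J).offDiag ×ˢ (Finset.univ : Finset J).offDiag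

/-- `log |(z i - z j) / (z k - z l)|` -/
def lr (z : J → ℂ) (p : (J × J) × (J × J)) : ℝ :=
  Real.log ‖z p.1.1 - z p.1.2‖ - Real.log ‖z p.2.1 - z p.2.2‖

/-- logarithmic derivative of `(z i - z j) / (z k - z l)` -/
def ld (z τ : J → ℂ) (p : (J × J) × (J × J)) : ℂ :=
  (τ p.1.1 - τ p.1.2) / (z p.1.1 - z p.1.2) - (τ p.2.1 - τ p.2.2) / (z p.2.1 - z p.2.2)

/-- degeneration of the configuration -/
def Qs (z : J → ℂ) : ℝ := ∑ p ∈ Q4 J, |lr z p|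

/-- the auxiliary function `V` -/
def Vf (a : ℝ) (z : J → ℂ) : ℝ := ∑ p ∈ Q4 J, Real.log (2 * Real.cosh (a * lr z p))

end

/-- admissible size of `a` at the places -/
def aOne (ρ : ℕ) : ℝ := 1 / (5 * (ρ : ℝ) * (64 * (ρ : ℝ) ^ 2) ^ 4)

/-! ### meromorphic families -/

/-- closed and discrete -/
def Disc (Z : Set ℂ) : Prop := ∀ v, ∀ᶠ t in 𝓝[≠] v, t ∉ Z

/-- meromorphic on the plane, analytic outside `Z` -/
def MA (Z : Set ℂ) (f : ℂ → ℂ) : Prop := Meromorphic f ∧ ∀ t, t ∉ Z → AnalyticAt ℂ f t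

/-- meromorphic data with square distances -/
structure MFam (κ : Type) where
  x : κ → ℂ → ℂ
  η : κ → ℂ → ℂ
  D : ℂ → ℂ
  dd : κ → κ → ℂ → ℂ
  Z : Set ℂ
  disc : Disc Z
  mx : ∀ i, MA Z (x i)
  mη : ∀ i, MA Z (η i)
  mD : MA Z D
  mdd : ∀ i j, MA Z (dd i j)
  D_ne : ∀ t, t ∉ Z → D t ≠ 0
  dd_ne : ∀ t, t ∉ Z → ∀ i j, i ≠ j → dd i j t ≠ 0
  ident : ∀ t, t ∉ Z → ∀ i j, (x i t - x j t) ^ 2 - (η i t - η j t) ^ 2 * D t = dd i j t ^ 2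

/-- `z = x + η δ` -/
def MFam.z {κ : Type} (F : MFam κ) (t δ : ℂ) (i : κ) : ℂ := F.x i t + F.η i t * δ

/-- `dz / dt` on the curve `δ ^ 2 = D t` -/
def MFam.τ {κ : Type} (F : MFam κ) (t δ : ℂ) (i : κ) : ℂ :=
  deriv (F.x i) t + deriv (F.η i) t * δ + F.η i t * deriv F.D t / (2 * δ)

/-- the curve -/
def RtM (D : ℂ → ℂ) (t δ : ℂ) : Prop := δ ^ 2 = D t ∧ ((D = fun _ => 1) → δ = 1)

/-- `D` is the square of a meromorphic function -/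
def SqM (D : ℂ → ℂ) : Prop := ∃ g Z, Meromorphic g ∧ Disc Z ∧ ∀ t, t ∉ Z → D t = g t ^ 2

/-- the function has the form `P + Q δ` on the curve outside `Z` -/
def RegM (Z : Set ℂ) (D : ℂ → ℂ) (h : ℂ → ℂ → ℂ) : Prop :=
  ∃ P Q, MA Z P ∧ MA Z Q ∧ ∀ t, t ∉ Z → ∀ δ, δ ^ 2 = D t → h t δ = P t + Q t * δ

end

end Pool.Agent.P.MP_a62d3c_co.FF
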