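import Pool.Agent.P.MP_a62d3c_co.FB.Defs

namespace Pool.Agent.P.MP_a62d3c_co.FF

open Filter Topology Polynomial MeasureTheory Asymptotics
open scoped ComplexConjugate Matrix ComplexOrder

theorem BRN1_low {J U : Type} [Fintype J] [DecidableEq J] [Fintype U] {d : J → J → ℝ}
    {n0 : ℝ} {S : U → Finset J} {lo len : U → ℝ} (T : RTree d n0 S lo len) {μ : ℝ}
    (h1 : μ ≤ 1) (m : J → ℕ) (j : J) {ρ : ℝ} (hρ : n0 ≤ ρ) :
    n0 * (1 + ((∑ i, m i : ℕ) : ℝ) - μ * Fintype.card J) -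
      (∑ u, if j ∈ S u then len u *
        max (μ * (S u).card - 1 - ((∑ i ∈ S u, m i : ℕ) : ℝ)) 0 else 0) ≤ EnR d m μ j ρ := by
  have hc := T.chain_le j ρ hρ
  set lam : ℝ := n0 + ∑ u, if j ∈ S u then clipR (lo u) (len u) ρ else 0 with hlam
  have hmn : ∀ i, mnR d i j ρ = (if i = j then ρ - lam else 0) + n0 +
      ∑ u, if i ∈ S u ∧ j ∈ S u then clipR (lo u) (len u) ρ else 0 := by
    intro i
    unfold mnR
    by_cases hij : i = j
    · subst hij
      simp only [if_true, and_self, hlam]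
      ring
    · rw [if_neg hij, if_neg hij, T.min_eq i j hij ρ hρ, zero_add]
  have e1 : ∑ i, ((m i : ℝ) - μ) * (if i = j then ρ - lam else 0) = (m j - μ) * (ρ - lam) := by
    simp only [mul_ite, mul_zero, Finset.sum_ite_eq', Finset.mem_univ, if_true]
  have e2 : ∑ i, ((m i : ℝ) - μ) * n0 = n0 * (((∑ i, m i : ℕ) : ℝ) - μ * Fintype.card J) := by
    rw [← Finset.sum_mul, Finset.sum_sub_distrib, Finset.sum_const, Finset.card_univ, nsmul_eq_mul,
      Nat.cast_sum]
    ring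
  have e3 : ∑ i, ((m i : ℝ) - μ) * (∑ u, if i ∈ S u ∧ j ∈ S u then clipR (lo u) (len u) ρ else 0) =
      ∑ u, if j ∈ S u then clipR (lo u) (len u) ρ *
        (((∑ i ∈ S u, m i : ℕ) : ℝ) - μ * (S u).card) else 0 := by
    simp only [Finset.mul_sum]
    rw [Finset.sum_comm]
    refine Finset.sum_congr rfl fun u _ => ?_
    by_cases hj : j ∈ S u
    · simp only [hj, and_true, if_true, mul_ite, mul_zero, Finset.sum_ite_mem, Finset.univ_inter]
      rw [← Finset.sum_mul, Finset.sum_sub_distrib, Finset.sum_const, nsmul_eq_mul, Nat.cast_sum]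
      ring
    · simp only [hj, and_false, if_false, mul_zero, Finset.sum_const_zero]
  have e4 : -(∑ u, if j ∈ S u then len u *
        max (μ * (S u).card - 1 - ((∑ i ∈ S u, m i : ℕ) : ℝ)) 0 else 0) ≤
      (∑ u, if j ∈ S u then clipR (lo u) (len u) ρ else 0) +
      ∑ u, if j ∈ S u then clipR (lo u) (len u) ρ *
        (((∑ i ∈ S u, m i : ℕ) : ℝ) - μ * (S u).card) else 0 := by
    rw [← Finset.sum_add_distrib, ← Finset.sum_neg_distrib]
    refine Finset.sum_le_sum fun u _ => ?_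
    split_ifs
    · have a1 : clipR (lo u) (len u) ρ ≤ len u := min_le_left _ _
      have a2 : 0 ≤ clipR (lo u) (len u) ρ := le_min (T.len_nonneg u) (le_max_right _ _)
      have a3 := le_max_left (μ * (S u).card - 1 - ((∑ i ∈ S u, m i : ℕ) : ℝ)) 0
      have a4 := le_max_right (μ * (S u).card - 1 - ((∑ i ∈ S u, m i : ℕ) : ℝ)) 0
      nlinarith [mul_le_mul_of_nonneg_left a3 a2, mul_le_mul_of_nonneg_right a1 a4]
    · simp
  have e5 : 0 ≤ (1 + (m j : ℝ) - μ) * (ρ - lam) :=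
    mul_nonneg (by have : (0 : ℝ) ≤ m j := Nat.cast_nonneg _; linarith) (by linarith)
  unfold EnR
  simp only [hmn, mul_add, Finset.sum_add_distrib]
  rw [e1, e2, e3]
  nlinarith

/-- the proof of `n1` (FF/N1.lean) with real levels -/
theorem n1R {J U : Type} [Fintype J] [DecidableEq J] [Nonempty J] [Fintype U] {d : J → J → ℝ}
    {n0 : ℝ} {S : U → Finset J} {lo len : U → ℝ} (T : RTree d n0 S lo len) {μ : ℝ}
    (h1 : μ ≤ 1) (p : ℕ) :
    ∃ (mu : Fin p → J → ℕ) (ν : Fin p → ℝ), (∀ a, ∑ i, mu a i = a) ∧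
      (∀ a j (ρ : ℝ), n0 ≤ ρ → ν a ≤ EnR d (mu a) μ j ρ) ∧
      n0 * ∑ a ∈ Finset.range p, (1 + (a : ℝ) - μ * Fintype.card J) -
        ∑ u, len u * Pf p (μ * (S u).card) ≤ ∑ a, ν a := by
  let D : (J → ℕ) → J → ℝ := fun m j => ∑ u, if j ∈ S u then len u *
    max (μ * (S u).card - 1 - ((∑ i ∈ S u, m i : ℕ) : ℝ)) 0 else 0
  choose jj hjj using fun m => Finite.exists_max (D m)
  let mu : ℕ → J → ℕ := fun a => (fun m => m + Pi.single (jj m) 1)^[a] 0
  have hs : ∀ a, mu (a + 1) = mu a + Pi.single (jj (mu a)) 1 := fun a =>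
    Function.iterate_succ_apply' _ _ _
  have hA : ∀ a (A : Finset J), ∑ i ∈ A, mu (a + 1) i =
      ∑ i ∈ A, mu a i + if jj (mu a) ∈ A then 1 else 0 := fun a A => by
    simp only [hs, Pi.add_apply, Finset.sum_add_distrib, Finset.sum_pi_single']
  have ht : ∀ a, ∑ i, mu a i = a := fun a => by
    induction a with
    | zero => simp [mu]
    | succ a ih => rw [hA, ih, if_pos (Finset.mem_univ _)]
  have hp : ∀ a, ∑ b ∈ Finset.range a, D (mu b) (jj (mu b)) =
      ∑ u, len u * Pf (∑ i ∈ S u, mu a i) (μ * (S u).card) := fun a => by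
    induction a with
    | zero => simp [mu, Pf]
    | succ a ih =>
      rw [Finset.sum_range_succ, ih, ← Finset.sum_add_distrib]
      refine Finset.sum_congr rfl fun u _ => ?_
      rw [hA]
      split_ifs
      · rw [Pf, Pf, Finset.sum_range_succ, mul_add]
      · rw [add_zero, add_zero]
  refine ⟨fun a => mu a, fun a => n0 * (1 + ((a : ℕ) : ℝ) - μ * Fintype.card J) -
    D (mu a) (jj (mu a)), fun a => ht a, fun a j ρ hρ => ?_, ?_⟩
  · have h2 := BRN1_low T h1 (mu a) j hρ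
    rw [ht] at h2
    have h3 := hjj (mu a) j
    exact le_trans (sub_le_sub_left h3 _) h2
  · rw [Fin.sum_univ_eq_sum_range (fun a : ℕ => n0 * (1 + (a : ℝ) - μ * Fintype.card J) -
      D (mu a) (jj (mu a))) p, Finset.sum_sub_distrib (fun a : ℕ => n0 * (1 + (a : ℝ) - μ * Fintype.card J)),
      ← Finset.mul_sum, hp]
    refine sub_le_sub_left (Finset.sum_le_sum fun u _ =>
      mul_le_mul_of_nonneg_left ?_ (T.len_nonneg u)) _
    refine Finset.sum_le_sum_of_subset_of_nonneg (Finset.range_subset_range.2 ?_)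
      fun k _ _ => le_max_right _ _
    exact (Finset.sum_le_sum_of_subset (Finset.subset_univ _)).trans (ht p).le

end Pool.Agent.P.MP_a62d3c_co.FF
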