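import Pool.Agent.P.MP_a62d3c_co.FB.Defs
import Pool.Agent.P.MP_a62d3c_co.FF.Ker
import Pool.Agent.P.MP_a62d3c_co.FF.N3

namespace Pool.Agent.P.MP_a62d3c_co.FF

open Filter Topology Polynomial MeasureTheory Asymptotics
open scoped ComplexConjugate Matrix ComplexOrder

/-- the plateau kernel -/
noncomputable def BRN3_pl (c n0 Λ : ℝ) (u : ℂ) : ℝ :=
  ‖u‖ ^ (-2 : ℝ) * Real.exp (-c * max 0 (max (n0 + Real.log ‖u‖) (-Real.log ‖u‖ - n0 - Λ)))

theorem BRN3_pl_nonneg (c n0 Λ : ℝ) (u : ℂ) : 0 ≤ BRN3_pl c n0 Λ u :=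
  mul_nonneg (Real.rpow_nonneg (norm_nonneg _) _) (Real.exp_pos _).le

theorem BRN3_pl_meas (c n0 Λ : ℝ) : Measurable (BRN3_pl c n0 Λ) := by
  unfold BRN3_pl
  fun_prop

theorem BRN3_pl_eq (c n0 Λ : ℝ) {u : ℂ} (hu : u ≠ 0) :
    BRN3_pl c n0 Λ u = Real.exp (-2 * Real.log ‖u‖ -
      c * max 0 (max (n0 + Real.log ‖u‖) (-Real.log ‖u‖ - n0 - Λ))) := by
  rw [BRN3_pl, Real.rpow_def_of_pos (norm_pos_iff.2 hu), ← Real.exp_add]
  refine congrArg Real.exp ?_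
  ring

theorem BRN3_scaled (c a : ℝ) {u : ℂ} (hu : u ≠ 0) :
    Real.exp a ^ 2 * ker c (Real.exp a • u) =
      Real.exp (-2 * Real.log ‖u‖ - c * |a + Real.log ‖u‖|) := by
  have h0 : 0 < ‖u‖ := norm_pos_iff.2 hu
  rw [N3_ker c (smul_ne_zero (Real.exp_pos a).ne' hu), norm_smul,
    Real.norm_of_nonneg (Real.exp_pos a).le, Real.log_mul (Real.exp_pos a).ne' h0.ne',
    Real.log_exp, ← Real.exp_nat_mul, ← Real.exp_add]
  refine congrArg Real.exp ?_
  push_cast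
  ring

theorem BRN3_scaled_int {c : ℝ} (hc : 0 < c) (a : ℝ) :
    Integrable (fun u : ℂ => Real.exp a ^ 2 * ker c (Real.exp a • u)) ∧
      ∫ u : ℂ, Real.exp a ^ 2 * ker c (Real.exp a • u) = ∫ u, ker c u := by
  refine ⟨((ker_integrable hc).comp_smul (Real.exp_pos a).ne').const_mul _, ?_⟩
  rw [integral_const_mul, Measure.integral_comp_smul, Complex.finrank_real_complex,
    abs_of_pos (by positivity), smul_eq_mul, ← mul_assoc, mul_inv_cancel₀ (by positivity), one_mul]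

theorem BRN3_pl_le {c : ℝ} (hc : 0 < c) (n0 : ℝ) {Λ : ℝ} (u : ℂ) :
    BRN3_pl c n0 Λ u ≤ Real.exp c * ∑ k ∈ Finset.range (⌈Λ⌉₊ + 1),
      Real.exp (n0 + k) ^ 2 * ker c (Real.exp (n0 + k) • u) := by
  have hnn : ∀ k ∈ Finset.range (⌈Λ⌉₊ + 1),
      0 ≤ Real.exp (n0 + (k : ℕ)) ^ 2 * ker c (Real.exp (n0 + k) • u) :=
    fun k _ => mul_nonneg (by positivity) (ker_nonneg _ _)
  by_cases hu : u = 0
  · have : BRN3_pl c n0 Λ u = 0 := by
      rw [BRN3_pl, hu, norm_zero, Real.zero_rpow (by norm_num), zero_mul]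
    rw [this]
    exact mul_nonneg (Real.exp_pos _).le (Finset.sum_nonneg hnn)
  obtain ⟨k, hk, hk'⟩ : ∃ k ∈ Finset.range (⌈Λ⌉₊ + 1), |n0 + (k : ℕ) + Real.log ‖u‖| ≤
      1 + max 0 (max (n0 + Real.log ‖u‖) (-Real.log ‖u‖ - n0 - Λ)) := by
    generalize Real.log ‖u‖ = L
    have m0 := le_max_left 0 (max (n0 + L) (-L - n0 - Λ))
    have m1 := (le_max_left (n0 + L) (-L - n0 - Λ)).trans (le_max_right 0 _)
    have m2 := (le_max_right (n0 + L) (-L - n0 - Λ)).trans (le_max_right 0 _)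
    have c1 := Nat.le_ceil Λ
    rcases le_total (-L - n0) 0 with h | h
    · refine ⟨0, by simp, abs_le.2 ⟨?_, ?_⟩⟩ <;> push_cast <;> linarith
    · rcases le_total (⌈Λ⌉₊ : ℝ) (-L - n0) with h' | h'
      · exact ⟨⌈Λ⌉₊, by simp, abs_le.2 ⟨by linarith, by linarith⟩⟩
      · have f1 := Nat.floor_le h
        have f2 := Nat.lt_floor_add_one (-L - n0)
        refine ⟨⌊-L - n0⌋₊, ?_, abs_le.2 ⟨by linarith, by linarith⟩⟩
        rw [Finset.mem_range, Nat.lt_succ_iff]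
        exact_mod_cast f1.trans h'
  refine le_trans ?_ (mul_le_mul_of_nonneg_left (Finset.single_le_sum hnn hk) (Real.exp_pos _).le)
  rw [BRN3_scaled c _ hu, BRN3_pl_eq c n0 Λ hu, ← Real.exp_add, Real.exp_le_exp]
  have := mul_le_mul_of_nonneg_left hk' hc.le
  linarith

theorem BRN3_plateau {c : ℝ} (hc : 0 < c) : ∃ K, 0 < K ∧ ∀ n0 Λ : ℝ, 0 ≤ Λ →
    Integrable (BRN3_pl c n0 Λ) ∧ ∫ u : ℂ, BRN3_pl c n0 Λ u ≤ K * (1 + Λ) := by
  have hI : 0 ≤ ∫ u, ker c u := integral_nonneg fun u => ker_nonneg c u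
  refine ⟨Real.exp c * (2 * ((∫ u, ker c u) + 1)), by positivity, fun n0 Λ hΛ => ?_⟩
  have hG : Integrable fun u : ℂ => Real.exp c * ∑ k ∈ Finset.range (⌈Λ⌉₊ + 1),
      Real.exp (n0 + k) ^ 2 * ker c (Real.exp (n0 + k) • u) :=
    (integrable_finsetSum _ fun k _ => (BRN3_scaled_int hc _).1).const_mul _
  have hF : Integrable (BRN3_pl c n0 Λ) :=
    Integrable.mono' hG (BRN3_pl_meas c n0 Λ).aestronglyMeasurable
      (Eventually.of_forall fun u => by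
        rw [Real.norm_of_nonneg (BRN3_pl_nonneg _ _ _ _)]
        exact BRN3_pl_le hc n0 u)
  refine ⟨hF, (integral_mono hF hG fun u => BRN3_pl_le hc n0 u).trans ?_⟩
  rw [integral_const_mul, integral_finsetSum _ fun k _ => (BRN3_scaled_int hc _).1,
    Finset.sum_congr rfl fun k _ => (BRN3_scaled_int hc _).2, Finset.sum_const, Finset.card_range,
    nsmul_eq_mul, mul_assoc]
  refine mul_le_mul_of_nonneg_left ?_ (Real.exp_pos _).le
  have h1 := (Nat.ceil_lt_add_one hΛ).le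
  push_cast
  nlinarith

/-- the kernel with a plateau: with `ρ = - log |u|` it is `|u|⁻²` for `n0 ≤ ρ ≤ n0 + Λ` and decays
outside. It is at most `exp c` times the sum over `k = 0, …, ⌈Λ⌉` of the rescaled kernels
`λ² ker c (λ u)`, `λ = exp (n0 + k)`, each of integral `∫ ker c` (`Measure.integral_comp_smul`). -/
theorem plateau {c : ℝ} (hc : 0 < c) : ∃ K, 0 < K ∧ ∀ n0 Λ : ℝ, 0 ≤ Λ →
    Integrable (fun u : ℂ => ‖u‖ ^ (-2 : ℝ) *
      Real.exp (-c * max 0 (max (n0 + Real.log ‖u‖) (-Real.log ‖u‖ - n0 - Λ)))) ∧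
    ∫ u : ℂ, ‖u‖ ^ (-2 : ℝ) *
      Real.exp (-c * max 0 (max (n0 + Real.log ‖u‖) (-Real.log ‖u‖ - n0 - Λ))) ≤ K * (1 + Λ) :=
  BRN3_plateau hc

section
variable {J : Type} [Fintype J] [DecidableEq J]

theorem BRN3_low {d : J → J → ℝ} {n0 : ℝ} (hb : ∀ i j, i ≠ j → n0 ≤ d i j) (μ : ℝ) (mu : J → ℕ)
    (j : J) {ρ : ℝ} (h : ρ ≤ n0) :
    EnR d mu μ j ρ = -((μ * Fintype.card J - (((∑ i, mu i : ℕ) : ℝ) + 1)) * ρ) := by
  have h1 : ∀ i, mnR d i j ρ = ρ := by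
    intro i
    unfold mnR
    split_ifs with hij
    · rfl
    · exact min_eq_left (h.trans (hb i j hij))
  simp only [EnR, h1]
  rw [← Finset.sum_mul, Finset.sum_sub_distrib, Finset.sum_const, Finset.card_univ, nsmul_eq_mul]
  push_cast
  ring

theorem BRN3_high {d : J → J → ℝ} {N : ℝ} (hN : ∀ i j, i ≠ j → d i j ≤ N) (μ : ℝ) (mu : J → ℕ)
    (j : J) {ρ : ℝ} (h : N ≤ ρ) :
    EnR d mu μ j ρ = EnR d mu μ j N + (1 + mu j - μ) * (ρ - N) := by
  have h1 : ∀ i, ((mu i : ℝ) - μ) * mnR d i j ρ = ((mu i : ℝ) - μ) * mnR d i j N +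
      if i = j then ((mu i : ℝ) - μ) * (ρ - N) else 0 := by
    intro i
    unfold mnR
    split_ifs with hij
    · ring
    · rw [min_eq_right ((hN i j hij).trans h), min_eq_right (hN i j hij), add_zero]
  simp only [EnR, h1]
  rw [Finset.sum_add_distrib, Finset.sum_ite_eq' Finset.univ j, if_pos (Finset.mem_univ j)]
  ring

theorem BRN3_grow {d : J → J → ℝ} {n0 Λ μ c ν : ℝ} {p : ℕ} {mu : J → ℕ} (hΛ : 0 ≤ Λ)
    (hd : ∀ i j, i ≠ j → n0 ≤ d i j ∧ d i j ≤ n0 + Λ) (hmu : ∑ i, mu i < p)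
    (hc1 : c ≤ μ * Fintype.card J - p) (hc2 : c ≤ 1 - μ)
    (hν : ∀ j ρ, n0 ≤ ρ → ν ≤ EnR d mu μ j ρ) (j : J) (ρ : ℝ) :
    ν + c * max 0 (max (n0 - ρ) (ρ - n0 - Λ)) ≤ EnR d mu μ j ρ := by
  have hp : ((∑ i, mu i : ℕ) : ℝ) + 1 ≤ p := by exact_mod_cast hmu
  rcases le_total ρ n0 with h | h
  · have h2 := hν j n0 le_rfl
    rw [BRN3_low (fun i j hij => (hd i j hij).1) μ mu j le_rfl] at h2
    rw [BRN3_low (fun i j hij => (hd i j hij).1) μ mu j h,
      max_eq_left (by linarith : ρ - n0 - Λ ≤ n0 - ρ), max_eq_right (by linarith)]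
    have h5 := mul_le_mul_of_nonneg_right
      (by linarith : c ≤ μ * Fintype.card J - (((∑ i, mu i : ℕ) : ℝ) + 1)) (sub_nonneg.2 h)
    nlinarith
  · rcases le_total ρ (n0 + Λ) with h' | h'
    · rw [max_eq_left (max_le (by linarith) (by linarith)), mul_zero, add_zero]
      exact hν j ρ h
    · have h2 := hν j (n0 + Λ) (by linarith)
      rw [BRN3_high (fun i j hij => (hd i j hij).2) μ mu j h',
        max_eq_right (by linarith : n0 - ρ ≤ ρ - n0 - Λ), max_eq_right (by linarith)]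
      have h6 : c ≤ 1 + mu j - μ := by
        have : (0 : ℝ) ≤ mu j := Nat.cast_nonneg _
        linarith
      have h5 := mul_le_mul_of_nonneg_right h6 (sub_nonneg.2 h')
      nlinarith

theorem BRN3_cmp {z : J → ℂ} {d : J → J → ℝ} {C : ℝ} (hC : 1 ≤ C) (hs : Cmp C z d)
    {x : ℂ} (hx : ∀ i, x ≠ z i) {j : J} (hj : ∀ i, ‖x - z j‖ ≤ ‖x - z i‖) (i : J) :
    |Real.log ‖x - z i‖ + mnR d i j (-Real.log ‖x - z j‖)| ≤ Real.log (2 * C) := by
  have ht : 0 < ‖x - z i‖ := norm_pos_iff.2 (sub_ne_zero.2 (hx i))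
  have hu : 0 < ‖x - z j‖ := norm_pos_iff.2 (sub_ne_zero.2 (hx j))
  have hD : (0 : ℝ) < 2 * C := by linarith
  obtain ⟨ρ, hρ⟩ : ∃ ρ, ρ = -Real.log ‖x - z j‖ := ⟨_, rfl⟩
  have hρ' : Real.exp (-ρ) = ‖x - z j‖ := by rw [hρ, neg_neg, Real.exp_log hu]
  rw [← hρ]
  have hm : 0 < Real.exp (-mnR d i j ρ) := Real.exp_pos _
  have key : ‖x - z i‖ ≤ 2 * C * Real.exp (-mnR d i j ρ) ∧
      Real.exp (-mnR d i j ρ) ≤ 2 * C * ‖x - z i‖ := by
    unfold mnR
    split_ifs with hij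
    · rw [hρ', hij]
      constructor <;> nlinarith
    · obtain ⟨a2, a1⟩ := hs i j hij
      obtain ⟨b1, b2⟩ := near z x j hj i
      have c1 := le_max_left ‖x - z j‖ ‖z i - z j‖
      have c2 := le_max_right ‖x - z j‖ ‖z i - z j‖
      have m1 : Real.exp (-ρ) ≤ Real.exp (-min ρ (d i j)) :=
        Real.exp_le_exp.2 (neg_le_neg (min_le_left _ _))
      have m2 : Real.exp (-d i j) ≤ Real.exp (-min ρ (d i j)) :=
        Real.exp_le_exp.2 (neg_le_neg (min_le_right _ _))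
      have m0 : 0 < Real.exp (-min ρ (d i j)) := Real.exp_pos _
      constructor
      · have : max ‖x - z j‖ ‖z i - z j‖ ≤ C * Real.exp (-min ρ (d i j)) := by
          refine max_le ?_ (a1.trans (mul_le_mul_of_nonneg_left m2 (by linarith)))
          rw [← hρ']
          nlinarith
        linarith
      · rcases min_choice ρ (d i j) with h | h <;> rw [h]
        · rw [hρ']
          nlinarith
        · nlinarith
  have b1 := Real.log_le_log ht key.1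
  have b2 := Real.log_le_log hm key.2
  rw [Real.log_mul hD.ne' hm.ne', Real.log_exp] at b1
  rw [Real.log_mul hD.ne' ht.ne', Real.log_exp] at b2
  rw [abs_le]
  constructor <;> linarith

theorem BRN3_pt {z : J → ℂ} {d : J → J → ℝ} {C : ℝ} (hC : 1 ≤ C) (hs : Cmp C z d)
    {μ a c n0 Λ B : ℝ} {mu mu' : J → ℕ}
    (hB : ∀ i, |(mu i : ℝ) - μ + ((mu' i : ℝ) - μ)| ≤ B)
    (hE : ∀ j (ρ : ℝ), a + c * max 0 (max (n0 - ρ) (ρ - n0 - Λ)) ≤
      EnR d mu μ j ρ + EnR d mu' μ j ρ)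
    {x : ℂ} (hx : ∀ i, x ≠ z i) {j : J} (hj : ∀ i, ‖x - z j‖ ≤ ‖x - z i‖) :
    ‖momI z μ 0 (nP z mu) (nP z mu') x‖ ≤
      Real.exp (Fintype.card J * (B * Real.log (2 * C))) * Real.exp (-a) *
        BRN3_pl c n0 Λ (x - z j) := by
  rw [N3_norm z μ mu mu' x hx, BRN3_pl_eq c n0 Λ (sub_ne_zero.2 (hx j)),
    ← Real.exp_add, ← Real.exp_add, Real.exp_le_exp]
  have hl : 0 ≤ Real.log (2 * C) := Real.log_nonneg (by linarith)
  have h1 : ∑ i, ((mu i : ℝ) - μ + ((mu' i : ℝ) - μ)) * Real.log ‖x - z i‖ ≤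
      ∑ i, (B * Real.log (2 * C) -
        (((mu i : ℝ) - μ) * mnR d i j (-Real.log ‖x - z j‖) +
          ((mu' i : ℝ) - μ) * mnR d i j (-Real.log ‖x - z j‖))) := by
    refine Finset.sum_le_sum fun i _ => ?_
    have h2 := BRN3_cmp hC hs hx hj i
    have h3 := le_abs_self (((mu i : ℝ) - μ + ((mu' i : ℝ) - μ)) *
      (Real.log ‖x - z i‖ + mnR d i j (-Real.log ‖x - z j‖)))
    rw [abs_mul] at h3
    have h4 := mul_le_mul (hB i) h2 (abs_nonneg _) ((abs_nonneg _).trans (hB i))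
    linarith
  rw [Finset.sum_sub_distrib, Finset.sum_add_distrib, Finset.sum_const, Finset.card_univ,
    nsmul_eq_mul] at h1
  have h5 := hE j (-Real.log ‖x - z j‖)
  unfold EnR at h5
  rw [sub_neg_eq_add] at h5
  linarith

theorem BRN3_dom (z : J → ℂ) {k : ℂ → ℝ} (hk : Integrable k) (hk0 : ∀ u, 0 ≤ k u) {K : ℝ}
    (hK : 0 ≤ K) (F : ℂ → ℝ) (hF0 : ∀ x, 0 ≤ F x)
    (h : ∀ x, (∀ j, x ≠ z j) → ∃ j, F x ≤ K * k (x - z j)) :
    ∫ x, F x ≤ K * (Fintype.card J * ∫ u, k u) := by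
  have hi : ∀ j, Integrable (fun x : ℂ => k (x - z j)) := fun j => hk.comp_sub_right (z j)
  have hG : Integrable (fun x : ℂ => K * ∑ j, k (x - z j)) :=
    (integrable_finsetSum _ fun j _ => hi j).const_mul K
  have hae : ∀ᵐ x : ℂ, ∀ j, x ≠ z j := by
    rw [ae_all_iff]
    intro j
    exact compl_mem_ae_iff.2 (measure_singleton (z j))
  have hb : ∀ᵐ x : ℂ, F x ≤ K * ∑ j, k (x - z j) := by
    filter_upwards [hae] with x hx
    obtain ⟨j, hj⟩ := h x hx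
    refine hj.trans (mul_le_mul_of_nonneg_left ?_ hK)
    exact Finset.single_le_sum (f := fun j => k (x - z j)) (fun i _ => hk0 _) (Finset.mem_univ j)
  refine (integral_mono_of_nonneg (Eventually.of_forall hF0) hG hb).trans (le_of_eq ?_)
  rw [integral_const_mul, integral_finsetSum _ fun j _ => hi j]
  refine congrArg (K * ·) ?_
  have : ∀ j, ∫ x : ℂ, k (x - z j) = ∫ u, k u := fun j => integral_sub_right_eq_self k (z j)
  simp [this]

end

/-- Uniform version of `n3` (FF/N3.lean). For `x` with nearest point `z j`, `u = x - z j`,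
`ρ = - log |u|`: `|x - z i|` and `exp (- mnR d i j ρ) = max |u| (exp (- d i j))` agree up to the
factor `2 C₀` (`near`). `EnR ≥ ν + c max 0 (max (n0 - ρ) (ρ - n0 - Λ))` with
`c = min (μ n - p) (1 - μ)`. Bound the integrand by the sum over `j` of the translated kernels. -/
theorem n3_st {J : Type} [Fintype J] [DecidableEq J] {μ C₀ : ℝ} (h0 : 0 < μ) (h1 : μ < 1)
    (hC : 1 ≤ C₀) {p : ℕ} (hp : (p : ℝ) < μ * Fintype.card J) :
    ∃ K, 0 < K ∧ ∀ (z : J → ℂ) (d : J → J → ℝ) (n0 Λ : ℝ) (mu mu' : J → ℕ) (ν ν' : ℝ),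
      Cmp C₀ z d → 0 ≤ Λ → (∀ i j, i ≠ j → n0 ≤ d i j ∧ d i j ≤ n0 + Λ) → ∑ i, mu i < p →
      ∑ i, mu' i < p → (∀ j ρ, n0 ≤ ρ → ν ≤ EnR d mu μ j ρ) →
      (∀ j ρ, n0 ≤ ρ → ν' ≤ EnR d mu' μ j ρ) →
      ‖mom z μ 0 (nP z mu) (nP z mu')‖ ≤ K * (1 + Λ) * Real.exp (-(ν + ν')) := by
  have hn : 0 < Fintype.card J := by
    refine Nat.pos_of_ne_zero fun h => ?_
    rw [h, Nat.cast_zero, mul_zero] at hp
    have : (0 : ℝ) ≤ p := Nat.cast_nonneg _
    linarith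
  have hn' : (0 : ℝ) < Fintype.card J := by exact_mod_cast hn
  have hne : (Finset.univ : Finset J).Nonempty := by rwa [← Finset.card_pos, Finset.card_univ]
  have hc : 0 < min (μ * Fintype.card J - p) (1 - μ) := lt_min (by linarith) (by linarith)
  have hc1 := min_le_left (μ * Fintype.card J - p) (1 - μ)
  have hc2 := min_le_right (μ * Fintype.card J - p) (1 - μ)
  generalize min (μ * Fintype.card J - p) (1 - μ) = c at hc hc1 hc2
  obtain ⟨K, hK, hpl⟩ := BRN3_plateau hc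
  refine ⟨Real.exp (Fintype.card J * ((2 * p + 2) * Real.log (2 * C₀))) * (Fintype.card J * K),
    by positivity, fun z d n0 Λ mu mu' ν ν' hs hΛ hd hmu hmu' hν hν' => ?_⟩
  have hB : ∀ i, |(mu i : ℝ) - μ + ((mu' i : ℝ) - μ)| ≤ 2 * p + 2 := by
    intro i
    have a1 : (mu i : ℝ) ≤ p := by
      exact_mod_cast ((Finset.single_le_sum (f := mu) (fun _ _ => Nat.zero_le _)
        (Finset.mem_univ i)).trans hmu.le)
    have a2 : (mu' i : ℝ) ≤ p := by
      exact_mod_cast ((Finset.single_le_sum (f := mu') (fun _ _ => Nat.zero_le _)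
        (Finset.mem_univ i)).trans hmu'.le)
    have a3 : (0 : ℝ) ≤ mu i := Nat.cast_nonneg _
    have a4 : (0 : ℝ) ≤ mu' i := Nat.cast_nonneg _
    exact abs_le.2 ⟨by linarith, by linarith⟩
  have hE : ∀ j (ρ : ℝ), ν + ν' + c * max 0 (max (n0 - ρ) (ρ - n0 - Λ)) ≤
      EnR d mu μ j ρ + EnR d mu' μ j ρ := by
    intro j ρ
    have a1 := BRN3_grow hΛ hd hmu hc1 hc2 hν j ρ
    have a2 := BRN3_grow hΛ hd hmu' hc1 hc2 hν' j ρ
    have a3 : 0 ≤ c * max 0 (max (n0 - ρ) (ρ - n0 - Λ)) := mul_nonneg hc.le (le_max_left _ _)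
    linarith
  obtain ⟨hi, hle⟩ := hpl n0 Λ hΛ
  have h2 := BRN3_dom z hi (BRN3_pl_nonneg c n0 Λ)
    (K := Real.exp (Fintype.card J * ((2 * p + 2) * Real.log (2 * C₀))) * Real.exp (-(ν + ν')))
    (by positivity) (fun x => ‖momI z μ 0 (nP z mu) (nP z mu') x‖) (fun _ => norm_nonneg _)
    fun x hx => by
      obtain ⟨j, -, hj⟩ := Finset.exists_min_image Finset.univ (fun i => ‖x - z i‖) hne
      exact ⟨j, BRN3_pt hC hs hB hE hx fun i => hj i (Finset.mem_univ i)⟩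
  refine ((norm_integral_le_integral_norm _).trans h2).trans ?_
  refine (mul_le_mul_of_nonneg_left (mul_le_mul_of_nonneg_left hle hn'.le) (by positivity)).trans
    (le_of_eq ?_)
  ring

end Pool.Agent.P.MP_a62d3c_co.FF
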