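import Pool.Agent.P.MP_a62d3c_co.FB.Defs

namespace Pool.Agent.P.MP_a62d3c_co.FF

open Filter Topology Polynomial MeasureTheory Asymptotics
open scoped ComplexConjugate Matrix ComplexOrder

variable {J : Type} [Fintype J] [DecidableEq J]

/-- smallest value inside `S` -/
private noncomputable def BRTr_tin (d : J → J → ℝ) (S : Finset J) : ℝ :=
  sInf {x | ∃ i ∈ S, ∃ j ∈ S, i ≠ j ∧ x = d i j}

/-- largest value from `S` to the outside -/
private noncomputable def BRTr_tout (d : J → J → ℝ) (S : Finset J) : ℝ :=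
  sSup {x | ∃ i ∈ S, ∃ j, j ∉ S ∧ x = d i j}

/-- length of the edge of `S` -/
private noncomputable def BRTr_len (d : J → J → ℝ) (S : Finset J) : ℝ :=
  if 2 ≤ S.card ∧ S ≠ Finset.univ then max (BRTr_tin d S - BRTr_tout d S) 0 else 0

omit [DecidableEq J] in
private theorem BRTr_fin (d : J → J → ℝ) (S : Finset J) :
    {x | ∃ i ∈ S, ∃ j, j ∉ S ∧ x = d i j}.Finite :=
  (Set.finite_range fun p : J × J => d p.1 p.2).subset
    (by rintro x ⟨i, _, j, _, rfl⟩; exact ⟨(i, j), rfl⟩)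

omit [DecidableEq J] in
private theorem BRTr_fin' (d : J → J → ℝ) (S : Finset J) :
    {x | ∃ i ∈ S, ∃ j ∈ S, i ≠ j ∧ x = d i j}.Finite :=
  (Set.finite_range fun p : J × J => d p.1 p.2).subset
    (by rintro x ⟨i, _, j, _, _, rfl⟩; exact ⟨(i, j), rfl⟩)

omit [DecidableEq J] in
private theorem BRTr_tin_le (d : J → J → ℝ) {S : Finset J} {i j : J} (hi : i ∈ S) (hj : j ∈ S)
    (hij : i ≠ j) : BRTr_tin d S ≤ d i j :=
  csInf_le (BRTr_fin' d S).bddBelow ⟨i, hi, j, hj, hij, rfl⟩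

omit [DecidableEq J] in
private theorem BRTr_exists_tin (d : J → J → ℝ) {S : Finset J} (h : 2 ≤ S.card) :
    ∃ i ∈ S, ∃ j ∈ S, i ≠ j ∧ BRTr_tin d S = d i j := by
  obtain ⟨i, hi, j, hj, hij⟩ := Finset.one_lt_card.1 (show 1 < S.card from h)
  exact Set.Nonempty.csInf_mem (s := {x | ∃ i ∈ S, ∃ j ∈ S, i ≠ j ∧ x = d i j})
    ⟨d i j, i, hi, j, hj, hij, rfl⟩ (BRTr_fin' d S)

omit [DecidableEq J] in
private theorem BRTr_le_tout (d : J → J → ℝ) {S : Finset J} {i j : J} (hi : i ∈ S) (hj : j ∉ S) :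
    d i j ≤ BRTr_tout d S := le_csSup (BRTr_fin d S).bddAbove ⟨i, hi, j, hj, rfl⟩

omit [DecidableEq J] in
private theorem BRTr_exists_tout (d : J → J → ℝ) {S : Finset J} (h : S.Nonempty)
    (h' : S ≠ Finset.univ) : ∃ i ∈ S, ∃ j, j ∉ S ∧ BRTr_tout d S = d i j := by
  obtain ⟨i, hi⟩ := h
  obtain ⟨j, hj⟩ : ∃ j, j ∉ S := by
    by_contra c
    exact h' (Finset.eq_univ_iff_forall.2 fun j => by_contra fun hj => c ⟨j, hj⟩)
  exact Set.Nonempty.csSup_mem (s := {x | ∃ i ∈ S, ∃ j, j ∉ S ∧ x = d i j})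
    ⟨d i j, i, hi, j, hj, rfl⟩ (BRTr_fin d S)

private theorem BRTr_len_nonneg (d : J → J → ℝ) (S : Finset J) : 0 ≤ BRTr_len d S := by
  unfold BRTr_len
  split_ifs
  · exact le_max_right _ _
  · exact le_rfl

private theorem BRTr_len_ne {d : J → J → ℝ} {S : Finset J} (h : BRTr_len d S ≠ 0) :
    2 ≤ S.card ∧ S ≠ Finset.univ ∧ BRTr_tout d S + BRTr_len d S = BRTr_tin d S := by
  unfold BRTr_len at h ⊢
  by_cases c : 2 ≤ S.card ∧ S ≠ Finset.univ
  · rw [if_pos c] at h ⊢
    refine ⟨c.1, c.2, ?_⟩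
    rcases le_total (BRTr_tin d S - BRTr_tout d S) 0 with a | a
    · exact absurd (max_eq_right a) h
    · rw [max_eq_left a]; ring
  · rw [if_neg c] at h
    exact absurd rfl h

private theorem BRTr_cls {d : J → J → ℝ} {S : Finset J} {j : J} {l : ℝ} (hj : j ∈ S)
    (h1 : BRTr_tout d S < l) (h2 : l ≤ BRTr_tout d S + BRTr_len d S) (k : J) :
    k ∈ S ↔ k = j ∨ l ≤ d j k := by
  have h0 : BRTr_len d S ≠ 0 := fun e => by rw [e] at h2; linarith
  obtain ⟨-, -, h3⟩ := BRTr_len_ne h0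
  constructor
  · intro hk
    by_cases e : k = j
    · exact Or.inl e
    · have := BRTr_tin_le d hj hk (Ne.symm e)
      exact Or.inr (by linarith)
  · rintro (rfl | hk)
    · exact hj
    · by_contra c
      have := BRTr_le_tout d hj c
      linarith

private theorem BRTr_ex {d : J → J → ℝ} (h : UltraR d) {i j : J} (hij : i ≠ j) {l : ℝ}
    (h1 : BRTr_tin d Finset.univ < l) (h3 : l ≤ d i j) :
    ∃ S : Finset J, i ∈ S ∧ j ∈ S ∧ BRTr_tout d S < l ∧ l ≤ BRTr_tout d S + BRTr_len d S := by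
  obtain ⟨S, hS⟩ : ∃ S : Finset J, ∀ k, k ∈ S ↔ k = i ∨ l ≤ d i k :=
    ⟨Finset.univ.filter fun k => k = i ∨ l ≤ d i k, fun k => by simp⟩
  have hi : i ∈ S := (hS i).2 (Or.inl rfl)
  have hj : j ∈ S := (hS j).2 (Or.inr h3)
  have hin : ∀ a ∈ S, ∀ b ∈ S, a ≠ b → l ≤ d a b := by
    intro a ha b hb' hab
    by_cases e1 : a = i
    · subst e1
      exact ((hS b).1 hb').resolve_left hab.symm
    · have a1 := ((hS a).1 ha).resolve_left e1
      by_cases e2 : b = i
      · subst e2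
        rwa [h.symm]
      · have a2 := ((hS b).1 hb').resolve_left e2
        have a3 := h.ultra a i b e1 (Ne.symm e2) hab
        rw [h.symm a i] at a3
        exact (le_min a1 a2).trans a3
  have hout : ∀ a ∈ S, ∀ b, b ∉ S → d a b < l := by
    intro a ha b hb'
    by_contra c
    have c' : l ≤ d a b := not_lt.1 c
    apply hb'
    rw [hS]
    by_cases e1 : a = i
    · subst e1
      exact Or.inr c'
    · have a1 := ((hS a).1 ha).resolve_left e1
      by_cases e2 : b = i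
      · exact Or.inl e2
      · have a3 := h.ultra i a b (Ne.symm e1) (fun e => hb' (e ▸ ha)) (Ne.symm e2)
        exact Or.inr ((le_min a1 c').trans a3)
  have hc : 2 ≤ S.card := Finset.one_lt_card.2 ⟨i, hi, j, hj, hij⟩
  have ht : l ≤ BRTr_tin d S := by
    obtain ⟨a, ha, b, hb', hab, e⟩ := BRTr_exists_tin d hc
    rw [e]; exact hin a ha b hb' hab
  have hu : S ≠ Finset.univ := by
    rintro rfl
    linarith
  have ho : BRTr_tout d S < l := by
    obtain ⟨a, ha, b, hb', e⟩ := BRTr_exists_tout d ⟨i, hi⟩ hu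
    rw [e]; exact hout a ha b hb'
  refine ⟨S, hi, hj, ho, ?_⟩
  unfold BRTr_len
  rw [if_pos ⟨hc, hu⟩, max_eq_left (by linarith)]
  linarith

private theorem BRTr_clip {lo len : ℝ} (h : 0 ≤ len) (ρ : ℝ) :
    clipR lo len ρ = volume.real (Set.Ioc lo (lo + len) ∩ Set.Iic ρ) := by
  rw [Set.Ioc_inter_Iic, Real.volume_real_Ioc, clipR]
  rcases le_total (lo + len) ρ with a | a
  · rw [min_eq_left a, max_eq_left (by linarith), max_eq_left (by linarith),
      min_eq_left (by linarith)]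
    ring
  · rw [min_eq_right a]
    exact min_eq_right (max_le (by linarith) h)

private theorem BRTr_sum (d : J → J → ℝ) (P : Finset J → Prop) [DecidablePred P] (j : J)
    (hP : ∀ u, P u → j ∈ u) (ρ : ℝ) :
    (∑ u, if P u then clipR (BRTr_tout d u) (BRTr_len d u) ρ else 0) =
      volume.real (⋃ u ∈ Finset.univ.filter P,
        Set.Ioc (BRTr_tout d u) (BRTr_tout d u + BRTr_len d u) ∩ Set.Iic ρ) := by
  rw [measureReal_biUnion_finset ?_ ?_ ?_, ← Finset.sum_filter]
  · exact Finset.sum_congr rfl fun u _ => BRTr_clip (BRTr_len_nonneg d u) ρ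
  · intro u hu v hv huv
    rw [Finset.mem_coe, Finset.mem_filter] at hu hv
    refine Set.disjoint_left.2 fun l a b => huv ?_
    ext k
    exact (BRTr_cls (hP u hu.2) a.1.1 a.1.2 k).trans (BRTr_cls (hP v hv.2) b.1.1 b.1.2 k).symm
  · exact fun u _ => measurableSet_Ioc.inter measurableSet_Iic
  · exact fun u _ => ((measure_mono Set.inter_subset_left).trans_lt measure_Ioc_lt_top).ne

/-- Real version of `isTree_tlen` (see FF/Tree.lean): `lo S` is the maximum of `d` from `S` to the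
outside, `len S = max (min inside - lo S) 0` for `2 ≤ |S|`, `S ≠ univ`, else `0`; `n0 = min d`. At a level
`l` with `lo S < l ≤ lo S + len S` the set `S` is the class of any of its points, so the intervals
`Ioc (lo S) (lo S + len S)` of the edges through `j` are disjoint and those through `i, j` cover
`Ioc n0 (d i j)`. `clipR lo len ρ` is the measure of `Ioc lo (lo + len) ∩ Iic ρ`
(`measure_biUnion_finset`, `Real.volume_Ioc`). -/
theorem exists_rtree {d : J → J → ℝ} (h : UltraR d) (h2 : 2 ≤ Fintype.card J) :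
    ∃ (n0 : ℝ) (lo len : Finset J → ℝ), RTree d n0 id lo len ∧
      ∀ S, len S ≠ 0 → 2 ≤ S.card ∧ S ≠ Finset.univ := by
  have hb : ∀ i j, i ≠ j → BRTr_tin d Finset.univ ≤ d i j := fun i j hij =>
    BRTr_tin_le d (Finset.mem_univ i) (Finset.mem_univ j) hij
  have hlo : ∀ u, BRTr_len d u ≠ 0 → BRTr_tin d Finset.univ ≤ BRTr_tout d u := by
    intro u hu
    obtain ⟨h1, h3, -⟩ := BRTr_len_ne hu
    obtain ⟨i, hi, j, hj, e⟩ := BRTr_exists_tout d (Finset.card_pos.1 (by omega : 0 < u.card)) h3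
    rw [e]
    exact hb i j (fun c => hj (c ▸ hi))
  have hinn : ∀ u, BRTr_len d u ≠ 0 → ∀ i ∈ u, ∀ j ∈ u, i ≠ j →
      BRTr_tout d u + BRTr_len d u ≤ d i j := by
    intro u hu i hi j hj hij
    obtain ⟨-, -, h3⟩ := BRTr_len_ne hu
    rw [h3]
    exact BRTr_tin_le d hi hj hij
  have hne : ∀ u l, l ∈ Set.Ioc (BRTr_tout d u) (BRTr_tout d u + BRTr_len d u) →
      BRTr_len d u ≠ 0 := fun u l hl e => by
    have h1 := hl.1
    have h3 := hl.2
    rw [e] at h3
    linarith
  refine ⟨BRTr_tin d Finset.univ, BRTr_tout d, BRTr_len d, ⟨BRTr_len_nonneg d, hb, hlo, hinn,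
    fun u _ i hi j hj => BRTr_le_tout d hi hj, fun i j hij ρ hρ => ?_, fun j ρ hρ => ?_⟩,
    fun S hS => ⟨(BRTr_len_ne hS).1, (BRTr_len_ne hS).2.1⟩⟩
  · have e : (⋃ u ∈ Finset.univ.filter fun u : Finset J => i ∈ u ∧ j ∈ u,
        Set.Ioc (BRTr_tout d u) (BRTr_tout d u + BRTr_len d u) ∩ Set.Iic ρ) =
        Set.Ioc (BRTr_tin d Finset.univ) (min ρ (d i j)) := by
      ext l
      simp only [Set.mem_iUnion, Finset.mem_filter, Finset.mem_univ, true_and, exists_prop]
      constructor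
      · rintro ⟨u, ⟨a, b⟩, c1, c2⟩
        have h0 := hne u l c1
        exact ⟨(hlo u h0).trans_lt c1.1, le_min c2 (c1.2.trans (hinn u h0 i a j b hij))⟩
      · rintro ⟨a, b⟩
        obtain ⟨u, c1, c2, c3⟩ := BRTr_ex h hij a (b.trans (min_le_right _ _))
        exact ⟨u, ⟨c1, c2⟩, c3, b.trans (min_le_left _ _)⟩
    have h3 := BRTr_sum d (fun u : Finset J => i ∈ u ∧ j ∈ u) i (fun u hu => hu.1) ρ
    rw [e, Real.volume_real_Ioc, max_eq_left (sub_nonneg.2 (le_min hρ (hb i j hij)))] at h3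
    simp only [id]
    linarith
  · have hs : (⋃ u ∈ Finset.univ.filter fun u : Finset J => j ∈ u,
        Set.Ioc (BRTr_tout d u) (BRTr_tout d u + BRTr_len d u) ∩ Set.Iic ρ) ⊆
        Set.Ioc (BRTr_tin d Finset.univ) ρ := by
      intro l hl
      simp only [Set.mem_iUnion, exists_prop] at hl
      obtain ⟨u, -, c1, c2⟩ := hl
      exact ⟨(hlo u (hne u l c1)).trans_lt c1.1, c2⟩
    have h3 := BRTr_sum d (fun u : Finset J => j ∈ u) j (fun u hu => hu) ρ
    have h4 := measureReal_mono (μ := volume) hs measure_Ioc_lt_top.ne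
    rw [Real.volume_real_Ioc, max_eq_left (sub_nonneg.2 hρ)] at h4
    simp only [id]
    linarith

variable {U : Type} [Fintype U] {d : J → J → ℝ} {n0 : ℝ} {S : U → Finset J} {lo len : U → ℝ}

theorem RTree.restrict (T : RTree d n0 S lo len) (A : Finset J) :
    RTree (fun i j : A => d i.1 j.1) n0 (fun u => (S u).subtype (· ∈ A)) lo len := by
  refine ⟨T.len_nonneg, fun i j a => T.base _ _ (fun e => a (Subtype.ext e)), T.lo_ge, ?_, ?_, ?_,
    ?_⟩
  · intro u hu i hi j hj a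
    exact T.inn u hu _ (Finset.mem_subtype.1 hi) _ (Finset.mem_subtype.1 hj)
      (fun e => a (Subtype.ext e))
  · intro u hu i hi j hj
    exact T.out u hu _ (Finset.mem_subtype.1 hi) _ (fun c => hj (Finset.mem_subtype.2 c))
  · intro i j a ρ hρ
    simp only [Finset.mem_subtype]
    exact T.min_eq i.1 j.1 (fun e => a (Subtype.ext e)) ρ hρ
  · intro j ρ hρ
    simp only [Finset.mem_subtype]
    exact T.chain_le j.1 ρ hρ

theorem RTree.d_eq (T : RTree d n0 S lo len) {i j : J} (hij : i ≠ j) :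
    d i j = n0 + ∑ u, if i ∈ S u ∧ j ∈ S u then len u else 0 := by
  have h := T.min_eq i j hij (d i j) (T.base i j hij)
  rw [min_self] at h
  refine h.trans (congrArg _ (Finset.sum_congr rfl fun u _ => ?_))
  by_cases c : i ∈ S u ∧ j ∈ S u
  · rw [if_pos c, if_pos c]
    unfold clipR
    by_cases h0 : len u = 0
    · rw [h0]
      exact min_eq_left (le_max_right _ _)
    · have h1 := T.inn u h0 i c.1 j c.2 hij
      exact min_eq_left (le_max_of_le_left (by linarith))
  · rw [if_neg c, if_neg c]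

theorem RTree.d_le (T : RTree d n0 S lo len) {i j : J} (hij : i ≠ j) :
    d i j ≤ n0 + ∑ u, len u := by
  rw [T.d_eq hij]
  refine add_le_add le_rfl (Finset.sum_le_sum fun u _ => ?_)
  split_ifs
  · exact le_rfl
  · exact T.len_nonneg u

private theorem BRTr_cnt (A : Finset J) (c : ℝ) :
    ∑ i, ∑ j ∈ Finset.univ.erase i, (if i ∈ A ∧ j ∈ A then c else 0) =
      c * ((A.card : ℝ) * ((A.card : ℝ) - 1)) := by
  have e : ∀ i, ∑ j ∈ Finset.univ.erase i, (if i ∈ A ∧ j ∈ A then c else 0) =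
      if i ∈ A then c * ((A.card : ℝ) - 1) else 0 := by
    intro i
    by_cases hi : i ∈ A
    · have e1 : (Finset.univ.erase i).filter (fun j => i ∈ A ∧ j ∈ A) = A.erase i := by
        ext j
        simp [hi]
      rw [if_pos hi, ← Finset.sum_filter, e1, Finset.sum_const, nsmul_eq_mul,
        Finset.cast_card_erase_of_mem hi, mul_comm]
    · rw [if_neg hi]
      exact Finset.sum_eq_zero fun j _ => if_neg fun c => hi c.1
  rw [Finset.sum_congr rfl fun i _ => e i, ← Finset.sum_filter, Finset.filter_mem_eq_inter,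
    Finset.univ_inter, Finset.sum_const, nsmul_eq_mul]
  ring

theorem RTree.sum_d (T : RTree d n0 S lo len) :
    ∑ i, ∑ j ∈ Finset.univ.erase i, d i j =
      n0 * ((Fintype.card J : ℝ) * ((Fintype.card J : ℝ) - 1)) +
        ∑ u, len u * (((S u).card : ℝ) * (((S u).card : ℝ) - 1)) := by
  have e : ∀ i, ∑ j ∈ Finset.univ.erase i, d i j =
      ∑ j ∈ Finset.univ.erase i, (if i ∈ (Finset.univ : Finset J) ∧ j ∈ (Finset.univ : Finset J)
        then n0 else 0) +
      ∑ u, ∑ j ∈ Finset.univ.erase i, (if i ∈ S u ∧ j ∈ S u then len u else 0) := by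
    intro i
    rw [Finset.sum_comm, ← Finset.sum_add_distrib]
    refine Finset.sum_congr rfl fun j hj => ?_
    rw [T.d_eq (Finset.ne_of_mem_erase hj).symm, if_pos ⟨Finset.mem_univ _, Finset.mem_univ _⟩]
  rw [Finset.sum_congr rfl fun i _ => e i, Finset.sum_add_distrib, BRTr_cnt, Finset.card_univ,
    Finset.sum_comm]
  exact congrArg _ (Finset.sum_congr rfl fun u _ => BRTr_cnt _ _)

theorem Cmp.injective {C₀ : ℝ} {z : J → ℂ} (h : Cmp C₀ z d) : Function.Injective z := by
  intro i j e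
  by_contra c
  have h1 := (h i j c).1
  rw [e, sub_self, norm_zero] at h1
  exact absurd h1 (not_le.2 (Real.exp_pos _))

omit [Fintype J] [DecidableEq J] in
private theorem BRTr_log {C₀ : ℝ} (hC : 1 ≤ C₀) {z : J → ℂ} (h : Cmp C₀ z d) {i j : J}
    (hij : i ≠ j) : -d i j ≤ Real.log ‖z i - z j‖ ∧
      Real.log ‖z i - z j‖ ≤ -d i j + Real.log C₀ := by
  obtain ⟨h1, h2⟩ := h i j hij
  have h0 := Real.exp_pos (-d i j)
  constructor
  · have := Real.log_le_log h0 h1
    rwa [Real.log_exp] at this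
  · have := Real.log_le_log (h0.trans_le h1) h2
    rw [Real.log_mul (by linarith) h0.ne', Real.log_exp] at this
    linarith

theorem Cmp.lsum {C₀ : ℝ} (hC : 1 ≤ C₀) {z : J → ℂ} (h : Cmp C₀ z d) :
    -(∑ i, ∑ j ∈ Finset.univ.erase i, d i j) ≤ Lsum z ∧
      Lsum z ≤ -(∑ i, ∑ j ∈ Finset.univ.erase i, d i j) +
        (Fintype.card J : ℝ) ^ 2 * Real.log C₀ := by
  have hL : 0 ≤ Real.log C₀ := Real.log_nonneg hC
  unfold Lsum
  constructor
  · rw [← Finset.sum_neg_distrib]
    refine Finset.sum_le_sum fun i _ => ?_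
    rw [← Finset.sum_neg_distrib]
    exact Finset.sum_le_sum fun j hj => (BRTr_log hC h (Finset.ne_of_mem_erase hj).symm).1
  · have e : (Fintype.card J : ℝ) ^ 2 * Real.log C₀ =
        ∑ _i : J, (Fintype.card J : ℝ) * Real.log C₀ := by
      rw [Finset.sum_const, Finset.card_univ, nsmul_eq_mul]
      ring
    rw [e, ← Finset.sum_neg_distrib, ← Finset.sum_add_distrib]
    refine Finset.sum_le_sum fun i _ => ?_
    have h1 : ∑ j ∈ Finset.univ.erase i, Real.log ‖z i - z j‖ ≤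
        ∑ j ∈ Finset.univ.erase i, (-d i j + Real.log C₀) :=
      Finset.sum_le_sum fun j hj => (BRTr_log hC h (Finset.ne_of_mem_erase hj).symm).2
    rw [Finset.sum_add_distrib, Finset.sum_neg_distrib, Finset.sum_const, nsmul_eq_mul] at h1
    have h2 : ((Finset.univ.erase i).card : ℝ) ≤ Fintype.card J :=
      Nat.cast_le.2 (Finset.card_le_univ _)
    have h3 := mul_le_mul_of_nonneg_right h2 hL
    linarith

theorem Cmp.qs {C₀ : ℝ} (hC : 1 ≤ C₀) {z : J → ℂ} (h : Cmp C₀ z d) (T : RTree d n0 S lo len) :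
    Qs z ≤ (Fintype.card J : ℝ) ^ 4 * (∑ u, len u + Real.log C₀) := by
  have hL : 0 ≤ Real.log C₀ := Real.log_nonneg hC
  have hs : 0 ≤ ∑ u, len u := Finset.sum_nonneg fun u _ => T.len_nonneg u
  have h1 : Qs z ≤ ∑ _p ∈ Q4 J, (∑ u, len u + Real.log C₀) := by
    refine Finset.sum_le_sum fun p hp => ?_
    rw [Q4, Finset.mem_product, Finset.mem_offDiag, Finset.mem_offDiag] at hp
    have a1 := BRTr_log hC h hp.1.2.2
    have a2 := BRTr_log hC h hp.2.2.2
    have b1 := T.base _ _ hp.1.2.2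
    have b2 := T.base _ _ hp.2.2.2
    have c1 := T.d_le hp.1.2.2
    have c2 := T.d_le hp.2.2.2
    rw [lr, abs_le]
    constructor <;> linarith [a1.1, a1.2, a2.1, a2.2]
  rw [Finset.sum_const, nsmul_eq_mul] at h1
  have h2 : ((Q4 J).card : ℝ) ≤ (Fintype.card J : ℝ) ^ 4 := by
    have := Finset.card_le_univ (Q4 J)
    rw [Fintype.card_prod, Fintype.card_prod] at this
    have h3 : ((Q4 J).card : ℝ) ≤ ((Fintype.card J * Fintype.card J *
      (Fintype.card J * Fintype.card J) : ℕ) : ℝ) := Nat.cast_le.2 this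
    push_cast at h3
    linarith [show (Fintype.card J : ℝ) ^ 4 = Fintype.card J * Fintype.card J *
      (Fintype.card J * Fintype.card J) by ring]
  exact h1.trans (mul_le_mul_of_nonneg_right h2 (by linarith))

end Pool.Agent.P.MP_a62d3c_co.FF
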