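import Pool.Agent.P.MP_a62d3c_co.FB.Hig
import Pool.Agent.P.MP_a62d3c_co.FB.RN1
import Pool.Agent.P.MP_a62d3c_co.FB.RN3
import Pool.Agent.P.MP_a62d3c_co.FB.RTr
import Pool.Agent.P.MP_a62d3c_co.FF.HA
import Pool.Agent.P.MP_a62d3c_co.FF.Num1

namespace Pool.Agent.P.MP_a62d3c_co.FF

open Filter Topology Polynomial MeasureTheory Asymptotics
open scoped ComplexConjugate Matrix ComplexOrder

theorem BHTs_det {p : ℕ} (M : Matrix (Fin p) (Fin p) ℂ) {B : ℝ} (ν : Fin p → ℝ)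
    (h : ∀ a b, ‖M a b‖ ≤ B * Real.exp (-(ν a + ν b))) :
    ‖M.det‖ ≤ p.factorial * (B ^ p * Real.exp (-(2 * ∑ a, ν a))) := by
  rw [Matrix.det_apply]
  refine (norm_sum_le _ _).trans ?_
  have key : ∀ σ : Equiv.Perm (Fin p), ‖Equiv.Perm.sign σ • ∏ i, M (σ i) i‖ ≤
      B ^ p * Real.exp (-(2 * ∑ a, ν a)) := by
    intro σ
    have e : ‖Equiv.Perm.sign σ • ∏ i, M (σ i) i‖ = ∏ i, ‖M (σ i) i‖ := by
      rcases Int.units_eq_one_or (Equiv.Perm.sign σ) with h | h <;> simp [h]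
    rw [e]
    refine (Finset.prod_le_prod (fun i _ => norm_nonneg _) fun i _ => h (σ i) i).trans
      (le_of_eq ?_)
    rw [Finset.prod_mul_distrib, Finset.prod_const, Finset.card_univ, Fintype.card_fin,
      ← Real.exp_sum, Finset.sum_neg_distrib, Finset.sum_add_distrib, Equiv.sum_comp σ ν, two_mul]
  refine (Finset.sum_le_card_nsmul _ _ _ fun σ _ => key σ).trans (le_of_eq ?_)
  rw [Finset.card_univ, Fintype.card_perm, Fintype.card_fin, nsmul_eq_mul]

theorem BHTs_pos {p : ℕ} {G : Matrix (Fin p) (Fin p) ℂ} (hG : G.PosDef) : 0 < G.det.re :=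
  (Complex.pos_iff.1 hG.det_pos).1

theorem BHTs_theta {J : Type} [Fintype J] [DecidableEq J] {p q : ℕ} (z τ : J → ℂ)
    (v : Fin p → ℂ) (v' : Fin q → ℂ) : v ⬝ᵥ (theta p q z τ *ᵥ v') =
      hig z τ ((∑ c, C (v c) * X ^ (c : ℕ)) * ∑ c, C (v' c) * X ^ (c : ℕ)) := by
  have h := HA_theta (p := p) (q := q) z τ (T := Matrix.of fun _ c => v c)
    (T' := Matrix.of fun _ c => v' c) (P := fun _ => ∑ c, C (v c) * X ^ (c : ℕ))
    (P' := fun _ => ∑ c, C (v' c) * X ^ (c : ℕ)) (fun _ => rfl) fun _ => rfl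
  rcases Nat.eq_zero_or_pos p with rfl | hp
  · simp [hig]
  rcases Nat.eq_zero_or_pos q with rfl | hq
  · simp [hig, Matrix.mulVec, dotProduct]
  have h2 := congrFun (congrFun h ⟨0, hp⟩) ⟨0, hq⟩
  rw [Matrix.mul_assoc] at h2
  exact h2

theorem BHTs_log {c η : ℝ} (hc : 0 < c) (hη : 0 < η) {Λ : ℝ} (hΛ : 0 ≤ Λ) :
    c * Real.log (1 + Λ) ≤ η * Λ + (η - c * Real.log (η / c)) := by
  have h1 := Real.log_le_sub_one_of_pos (x := η / c * (1 + Λ)) (by positivity)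
  rw [Real.log_mul (by positivity) (by positivity)] at h1
  have h2 := mul_le_mul_of_nonneg_left h1 hc.le
  have e : c * (η / c * (1 + Λ) - 1) = η * (1 + Λ) - c := by field_simp
  rw [e] at h2
  linarith

/-- `det G = det (T G Tᴴ)` with `T` from `newton_mat` for the multiplicities of `n1R`; entries by
`gram_mul` and `n3_st` with `Λ = ∑ len` (`RTree.d_le`); Leibniz formula -/
theorem det_gram_st {J U : Type} [Fintype J] [DecidableEq J] [Fintype U] {μ C₀ : ℝ} (h0 : 0 < μ)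
    (h1 : μ < 1) (hC : 1 ≤ C₀) {p : ℕ} (hp : (p : ℝ) < μ * Fintype.card J) :
    ∃ K, ∀ (z : J → ℂ) (d : J → J → ℝ) (n0 : ℝ) (S : U → Finset J) (lo len : U → ℝ),
      Cmp C₀ z d → RTree d n0 S lo len →
      Real.log (gram μ p z).det.re ≤ K + p * Real.log (1 + ∑ u, len u) -
        2 * (n0 * ∑ a ∈ Finset.range p, (1 + (a : ℝ) - μ * Fintype.card J) -
          ∑ u, len u * Pf p (μ * (S u).card)) := by
  have hJ : Nonempty J := by
    refine Fintype.card_pos_iff.1 (Nat.pos_of_ne_zero fun e => ?_)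
    rw [e, Nat.cast_zero, mul_zero] at hp
    exact absurd hp (not_lt.2 (Nat.cast_nonneg p))
  obtain ⟨K, hK, H⟩ := n3_st (J := J) h0 h1 hC hp
  refine ⟨Real.log p.factorial + p * Real.log K, fun z d n0 S lo len hz T => ?_⟩
  obtain ⟨mu, ν, hmu, hν, s1⟩ := n1R T h1.le p
  have hΛ : 0 ≤ ∑ u, len u := Finset.sum_nonneg fun u _ => T.len_nonneg u
  obtain ⟨N, n1, n2⟩ := newton_mat z hmu
  have e1 := congrArg Matrix.det (HA_gram hz.injective h0 h1 hp n2)
  rw [Matrix.det_mul, Matrix.det_mul, Matrix.det_conjTranspose, n1, star_one, one_mul,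
    mul_one] at e1
  have b1 := BHTs_det (Matrix.of fun x y => mom z μ 0 (nP z (mu x)) (nP z (mu y)))
    (B := K * (1 + ∑ u, len u)) ν fun a b => H z d n0 _ (mu a) (mu b) (ν a) (ν b) hz hΛ
      (fun i j hij => ⟨T.base i j hij, T.d_le hij⟩) (by rw [hmu]; exact a.2)
      (by rw [hmu]; exact b.2) (hν a) (hν b)
  rw [← e1] at b1
  have b2 := Real.log_le_log (BHTs_pos (gram_posDef hz.injective h0 h1 hp))
    ((Complex.re_le_norm _).trans b1)
  have hf : (0 : ℝ) < p.factorial := by exact_mod_cast p.factorial_pos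
  rw [Real.log_mul hf.ne' (by positivity), Real.log_mul (by positivity) (by positivity),
    Real.log_exp, Real.log_pow, Real.log_mul hK.ne' (by positivity)] at b2
  linarith

/-- Paper B1 (b), (c): `higgs_bound`, `phi_le_det` (`v ⬝ᵥ theta *ᵥ v' = hig (A * A')`, `gram_mul`),
`det_gram_st` for `μ = 1/4, 3/4`, `Cmp.lsum`, `RTree.sum_d`, `top_zero`, `Piv.r_le`,
`log (1 + Λ) ≤ η' Λ + C` -/
theorem ht_st {J U : Type} [Fintype J] [DecidableEq J] [Fintype U] {ρ : ℕ} (hρ : 1 ≤ ρ)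
    (hn : Fintype.card J = mP ρ ∨ Fintype.card J = mP ρ - 1) {C₀ : ℝ} (hC : 1 ≤ C₀) {η : ℝ}
    (hη : 0 < η) :
    ∃ K, ∀ (z τ : J → ℂ) (π : Piv (pP ρ) (qP ρ)) (d : J → J → ℝ) (n0 : ℝ) (S : U → Finset J)
      (lo len : U → ℝ) (L : ℝ), Cmp C₀ z d → RTree d n0 S lo len →
      Valid (theta (pP ρ) (qP ρ) z τ) π → 0 < L → (∀ r ∈ Q4 J, ‖ld z τ r‖ ≤ L) →
      HT ρ z τ π ≤ K + 2 * π.r * Real.log L - 2 * ∑ u, len u * gA ρ (S u).card +
        η * ∑ u, len u := by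
  have hy : Hyp (1 / 4) (pP ρ) (qP ρ) (Fintype.card J) := by
    rcases hn with e | e <;> rw [e]
    · exact hyp_m hρ
    · exact hyp_m1 hρ
  have hp := hy.degs.1
  have hq := hy.swap.degs.1
  have e34 : (1 : ℝ) - 1 / 4 = 3 / 4 := by norm_num
  rw [e34] at hq
  obtain ⟨K0, hK0, H0⟩ := higgs_bound J
  obtain ⟨K1, H1⟩ := det_gram_st (J := J) (U := U) (μ := 1 / 4) (by norm_num) (by norm_num) hC hp
  obtain ⟨K2, H2⟩ := det_gram_st (J := J) (U := U) (μ := 3 / 4) (by norm_num) (by norm_num) hC hq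
  have hpq : (0 : ℝ) < (pP ρ : ℕ) + (qP ρ : ℕ) := by
    have := hy.2.2.1
    exact_mod_cast (by omega : 0 < pP ρ + qP ρ)
  have hk : 0 ≤ kH ρ := by
    have : (1 : ℝ) ≤ ρ := by exact_mod_cast hρ
    exact div_nonneg (by linarith) (by linarith)
  refine ⟨qP ρ * Real.log 2 + 2 * pP ρ * |Real.log K0| + K1 + K2 +
    kH ρ * ((Fintype.card J : ℝ) ^ 2 * Real.log C₀) +
    (η - ((pP ρ : ℕ) + (qP ρ : ℕ)) * Real.log (η / ((pP ρ : ℕ) + (qP ρ : ℕ)))),
    fun z τ π d n0 S lo len L hz T hV hL hl => ?_⟩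
  have hi := hz.injective
  have hΛ : 0 ≤ ∑ u, len u := Finset.sum_nonneg fun u _ => T.len_nonneg u
  have g1 := gram_posDef hi (μ := 1 / 4) (by norm_num) (by norm_num) hp
  have g2 := gram_posDef hi (μ := 3 / 4) (by norm_num) (by norm_num) hq
  have b1 := phi_le_det g1 g2 hV (mul_pos hK0 hL) fun v v' => by
    rw [BHTs_theta, gram_mul hi (by norm_num) (by norm_num) hp,
      gram_mul hi (by norm_num) (by norm_num) hq, ← e34]
    exact H0 _ _ _ hy z τ L hi hL.le hl _ _ (degree_sum_fin_lt v) (degree_sum_fin_lt v')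
  have d1 := BHTs_pos g1
  have d2 := BHTs_pos g2
  have b2 := Real.log_le_log (phi_pos g1 g2 hV) b1
  rw [Real.log_mul (by positivity) (by positivity), Real.log_mul (by positivity) (by positivity),
    Real.log_mul d1.ne' d2.ne', Real.log_pow, Real.log_pow, Real.log_mul hK0.ne' hL.ne'] at b2
  have b3 := H1 z d n0 S lo len hz T
  have b4 := H2 z d n0 S lo len hz T
  have b5 := mul_le_mul_of_nonneg_left (hz.lsum hC).2 hk
  rw [T.sum_d] at b5
  have b6 := congrArg (n0 * ·) (top_zero hρ hn)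
  have b7 := BHTs_log hpq hη hΛ
  have b8 : (π.r : ℝ) * Real.log K0 ≤ pP ρ * |Real.log K0| :=
    (mul_le_mul_of_nonneg_left (le_abs_self _) (Nat.cast_nonneg _)).trans
      (mul_le_mul_of_nonneg_right (by exact_mod_cast π.r_le) (abs_nonneg _))
  have b9 : 2 * ∑ u, len u * gA ρ (S u).card =
      kH ρ * ∑ u, len u * (((S u).card : ℝ) * (((S u).card : ℝ) - 1)) -
        2 * ∑ u, len u * Pf (pP ρ) (1 / 4 * (S u).card) -
        2 * ∑ u, len u * Pf (qP ρ) (3 / 4 * (S u).card) := by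
    simp only [Finset.mul_sum, ← Finset.sum_sub_distrib]
    exact Finset.sum_congr rfl fun u _ => by rw [gA]; ring
  simp only [topH, mul_zero] at b6
  rw [HT, Phi, b9]
  push_cast at b2
  linarith

end Pool.Agent.P.MP_a62d3c_co.FF
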