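import Pool.Agent.P.MP_a62d3c_co.FB.Shep
import Pool.Agent.P.MP_a62d3c_co.FB.CP
import Pool.Agent.P.MP_a62d3c_co.FF.PL
import Pool.Agent.P.MP_a62d3c_co.FF.Alp

namespace Pool.Agent.P.MP_a62d3c_co.FF

open Filter Topology Polynomial MeasureTheory Asymptotics
open scoped ComplexConjugate Matrix ComplexOrder

theorem BHig_pt {w u v t : ℝ} (hw : 0 ≤ w) (hu : 0 ≤ u) (hv : 0 ≤ v) (ht : 0 < t)
    (h : w ^ 2 = u * v) : 2 * w ≤ t * u + v / t := by
  refine (sq_le_sq₀ (by positivity) (by positivity)).1 ?_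
  have e : t * u * (v / t) = u * v := by field_simp
  nlinarith [sq_nonneg (t * u - v / t)]

theorem BHig_opt {I U V : ℝ} (hI : 0 ≤ I) (hU : 0 ≤ U) (hV : 0 ≤ V)
    (h : ∀ t, 0 < t → 2 * I ≤ t * U + V / t) : I ^ 2 ≤ U * V := by
  rcases hI.eq_or_lt with rfl | hI
  · simpa using mul_nonneg hU hV
  rcases hU.eq_or_lt with rfl | hU
  · have h1 := h ((V + 1) / I) (by positivity)
    rw [mul_zero, zero_add, div_div_eq_mul_div, le_div_iff₀ (by positivity)] at h1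
    nlinarith
  · have h1 := h (I / U) (by positivity)
    rw [div_mul_cancel₀ _ hU.ne', div_div_eq_mul_div, ← sub_le_iff_le_add', le_div_iff₀ hI] at h1
    nlinarith

theorem BHig_nat {P : ℂ[X]} {p : ℕ} (hp : 0 < p) (h : P.degree < p) : P.natDegree < p := by
  by_cases h0 : P = 0
  · rwa [h0, natDegree_zero]
  · exact (natDegree_lt_iff_degree_lt h0).2 h

theorem BHig_cs {J : Type} [Fintype J] [DecidableEq J] {z : J → ℂ} {μ : ℝ} {A A' : ℂ[X]}
    (h1 : Integrable (momI z μ 0 A A)) (h2 : Integrable (momI z (1 - μ) 0 A' A')) :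
    (∫ x : ℂ, ‖(A * A').eval x / (fP z).eval x‖) ^ 2 ≤
      (mom z μ 0 A A).re * (mom z (1 - μ) 0 A' A').re := by
  have e : ∀ (ν : ℝ) (P : ℂ[X]), (mom z ν 0 P P).re =
      ∫ x : ℂ, ‖P.eval x‖ ^ 2 * (‖(fP z).eval x‖ ^ 2 + 0) ^ (-ν) := fun ν P => by
    unfold mom
    simp only [Mom_self]
    rw [integral_complex_ofReal, Complex.ofReal_re]
  have i : ∀ (ν : ℝ) (P : ℂ[X]), Integrable (momI z ν 0 P P) →
      Integrable fun x : ℂ => ‖P.eval x‖ ^ 2 * (‖(fP z).eval x‖ ^ 2 + 0) ^ (-ν) := fun ν P h => by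
    refine h.re.congr (Eventually.of_forall fun x => ?_)
    simp only [Mom_self]
    exact Complex.ofReal_re _
  refine BHig_opt (integral_nonneg fun x => norm_nonneg _) (mom_self_nonneg z _ le_rfl _)
    (mom_self_nonneg z _ le_rfl _) fun t ht => ?_
  rw [e, e, ← integral_const_mul, ← integral_const_mul, ← integral_div,
    ← integral_add ((i _ _ h1).const_mul t) ((i _ _ h2).div_const t)]
  refine integral_mono_of_nonneg (Eventually.of_forall fun x => by positivity)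
    (((i _ _ h1).const_mul t).add ((i _ _ h2).div_const t)) (Eventually.of_forall fun x => ?_)
  refine BHig_pt (norm_nonneg _) (by positivity) (by positivity) ht ?_
  rw [mul_mul_mul_comm, ← Real.rpow_add' (by positivity) (by ring_nf; norm_num),
    show -μ + -(1 - μ) = -1 by ring, Real.rpow_neg_one, eval_mul, norm_div, norm_mul, add_zero,
    div_pow, mul_pow, div_eq_mul_inv]

theorem BHig_shift {J : Type} [Fintype J] [DecidableEq J] {z : J → ℂ} (hz : Function.Injective z)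
    (τ : J → ℂ) (α : ℂ) {P : ℂ[X]} (hP : P.natDegree + 3 ≤ Fintype.card J) :
    hig z τ P = hig z (fun j => τ j - α * z j) P := by
  have h : hig z (fun _ => 1) (P * X) = 0 := hig_one hz (by
    have := natDegree_mul_le (p := P) (q := X)
    rw [natDegree_X] at this
    omega)
  rw [← add_zero (hig z (fun j => τ j - α * z j) P), ← mul_zero α, ← h]
  unfold hig
  rw [Finset.mul_sum, ← Finset.sum_add_distrib]
  refine Finset.sum_congr rfl fun j _ => ?_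
  rw [eval_mul, eval_X]
  ring

/-- Fix `k ≠ l`, `α = (τ k - τ l) / (z k - z l)`, `τ' = τ - α z`; `hig z τ P = hig z τ' P` (`hig_one` for
`P * X`), `shepard`, `pompeiu`, Cauchy-Schwarz (`integral_mul_le_Lp_mul_Lq` or
`2 a b ≤ t a² + b² / t`) with `|f| = |f| ^ μ |f| ^ (1 - μ)`; integrability by `mom_int0`. -/
theorem higgs_bound (J : Type) [Fintype J] [DecidableEq J] : ∃ K, 0 < K ∧
    ∀ (μ : ℝ) (p q : ℕ), Hyp μ p q (Fintype.card J) → ∀ (z τ : J → ℂ) (L : ℝ),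
      Function.Injective z → 0 ≤ L → (∀ r ∈ Q4 J, ‖ld z τ r‖ ≤ L) → ∀ A A' : ℂ[X],
      A.degree < p → A'.degree < q →
      ‖hig z τ (A * A')‖ ^ 2 ≤
        (K * L) ^ 2 * ((mom z μ 0 A A).re * (mom z (1 - μ) 0 A' A').re) := by
  obtain ⟨K, hK, H⟩ := shepard J
  refine ⟨K, hK, fun μ p q hyp z τ L hz hL hld A A' hA hA' => ?_⟩
  have d1 := hyp.degs
  have d2 := hyp.swap.degs
  obtain ⟨μ0, μ1, hp, hq, -⟩ := hyp
  have hn := d1.2.2.2.2
  obtain ⟨k, l, hkl⟩ := Fintype.one_lt_card_iff.1 (show 1 < Fintype.card J by omega)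
  obtain ⟨g, hg, hgz, hB, M, hM⟩ := H z (fun j => τ j - (τ k - τ l) / (z k - z l) * z j) L hz hL
    fun i j => by
      by_cases hij : i = j
      · simp [hij]
      have h1 := hld ((i, j), (k, l)) (by simp [Q4, hij, hkl])
      have h2 : z i - z j ≠ 0 := sub_ne_zero.2 (hz.ne hij)
      have e : τ i - (τ k - τ l) / (z k - z l) * z i - (τ j - (τ k - τ l) / (z k - z l) * z j) =
          ld z τ ((i, j), (k, l)) * (z i - z j) := by
        rw [ld, sub_mul, div_mul_cancel₀ _ h2]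
        ring
      rw [e, norm_mul]
      exact mul_le_mul_of_nonneg_right h1 (norm_nonneg _)
  have hP : (A * A').natDegree + 3 ≤ Fintype.card J := by
    have := natDegree_mul_le (p := A) (q := A')
    have := BHig_nat (by omega) hA
    have := BHig_nat (by omega) hA'
    omega
  have h1 := pompeiu hz hg hB hM hP
  rw [funext hgz, ← BHig_shift hz τ _ hP] at h1
  have h2 := BHig_cs (mom_int0 hz μ0 μ1 hA hA (by linarith [d1.1]))
    (mom_int0 hz (ν := 1 - μ) (by linarith) (by linarith) hA' hA' (by linarith [d2.1]))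
  refine (pow_le_pow_left₀ (norm_nonneg _) h1 2).trans ?_
  rw [mul_pow]
  exact mul_le_mul_of_nonneg_left h2 (by positivity)

theorem BHig_one {p q : ℕ} {G : Matrix (Fin p) (Fin p) ℂ} {G' : Matrix (Fin q) (Fin q) ℂ}
    {Θ : Matrix (Fin p) (Fin q) ℂ} {π : Piv p q} (hG : G.PosDef) (hG' : G'.PosDef)
    (hV : Valid Θ π)
    (h : ∀ (v : Fin p → ℂ) (v' : Fin q → ℂ), ‖v ⬝ᵥ (Θ *ᵥ v')‖ ^ 2 ≤
      (v ⬝ᵥ (G *ᵥ star v)).re * (v' ⬝ᵥ (G' *ᵥ star v')).re) :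
    phi G G' Θ π ≤ 2 ^ q * (G.det.re * G'.det.re) := by
  have hW : (Θᴴ * G⁻¹ * Θ).PosSemidef := hG.inv.posSemidef.conjTranspose_mul_mul_same Θ
  have hS : (G'ᵀ - Θᴴ * G⁻¹ * Θ).PosSemidef := by
    refine Matrix.PosSemidef.of_dotProduct_mulVec_nonneg (hG'.transpose.1.sub hW.1) fun x => ?_
    have hu : IsUnit G.det := (Matrix.isUnit_iff_isUnit_det G).1 hG.isUnit
    obtain ⟨y, hy⟩ : ∃ y, y = G⁻¹ *ᵥ (Θ *ᵥ x) := ⟨_, rfl⟩
    have e1 : G *ᵥ y = Θ *ᵥ x := by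
      rw [hy, Matrix.mulVec_mulVec, Matrix.mul_nonsing_inv _ hu, Matrix.one_mulVec]
    have e2 : star x ⬝ᵥ ((Θᴴ * G⁻¹ * Θ) *ᵥ x) = star y ⬝ᵥ (G *ᵥ y) := by
      rw [← Matrix.mulVec_mulVec, ← Matrix.mulVec_mulVec, ← hy, Matrix.dotProduct_mulVec,
        ← Matrix.star_mulVec, ← e1, Matrix.star_mulVec, ← Matrix.dotProduct_mulVec, hG.1.eq]
    have e3 : star x ⬝ᵥ (G'ᵀ *ᵥ x) = x ⬝ᵥ (G' *ᵥ star x) := by
      rw [Matrix.mulVec_transpose, dotProduct_comm, ← Matrix.dotProduct_mulVec]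
    have h1 := h (star y) x
    rw [star_star, ← e1, ← e3] at h1
    have h2 := hG.posSemidef.dotProduct_mulVec_nonneg y
    have h3 := hG'.transpose.posSemidef.dotProduct_mulVec_nonneg x
    rw [Matrix.sub_mulVec, dotProduct_sub, e2]
    obtain ⟨a, ha⟩ : ∃ a : ℝ, star y ⬝ᵥ (G *ᵥ y) = a := ⟨_, (Complex.eq_re_of_ofReal_le h2)⟩
    obtain ⟨b, hb⟩ : ∃ b : ℝ, star x ⬝ᵥ (G'ᵀ *ᵥ x) = b := ⟨_, (Complex.eq_re_of_ofReal_le h3)⟩
    rw [ha] at h2
    rw [hb] at h3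
    rw [ha, hb] at h1 ⊢
    rw [Complex.norm_real, Real.norm_eq_abs, sq_abs, Complex.ofReal_re, Complex.ofReal_re] at h1
    have ha0 : 0 ≤ a := by exact_mod_cast h2
    have hb0 : 0 ≤ b := by exact_mod_cast h3
    have hab : 0 ≤ b - a := by
      by_contra hc
      nlinarith
    exact_mod_cast hab
  have hP := hG'.transpose.add_posSemidef hW
  have h1 := det_add_ge hS hP
  have e : G'ᵀ - Θᴴ * G⁻¹ * Θ + (G'ᵀ + Θᴴ * G⁻¹ * Θ) = (2 : ℂ) • G'ᵀ := by
    rw [two_smul]; abel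
  obtain ⟨a, ha0, ha⟩ := PL_real hG
  obtain ⟨b, hb0, hb⟩ := PL_real hG'
  obtain ⟨c, hc0, hc⟩ := PL_real hP
  rw [e, Matrix.det_smul, Matrix.det_transpose, Fintype.card_fin, hb, hc] at h1
  have h2 : c ≤ 2 ^ q * b := by exact_mod_cast h1
  refine (phi_le hG hG' hV).trans ?_
  rw [PL_det_bigM _ _ hG.isUnit, ha, hb, hc, norm_mul, Complex.norm_real, Complex.norm_real,
    Real.norm_of_nonneg ha0.le, Real.norm_of_nonneg hc0.le, Complex.ofReal_re, Complex.ofReal_re]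
  nlinarith

/-- Scale `Θ` by `K⁻¹` (`phi_smul`, `valid_smul`). `phi_le`; `det bigM = det G * det (G'ᵀ + Θᴴ G⁻¹ Θ)`
(`Matrix.det_fromBlocks₁₁`); `G'ᵀ - Θᴴ G⁻¹ Θ` is positive semidefinite (test the hypothesis with
`v = star (G⁻¹ Θ v')`); `det_add_ge` gives `det (G'ᵀ + W) ≤ det (2 G'ᵀ)`. -/
theorem phi_le_det {p q : ℕ} {G : Matrix (Fin p) (Fin p) ℂ} {G' : Matrix (Fin q) (Fin q) ℂ}
    {Θ : Matrix (Fin p) (Fin q) ℂ} {π : Piv p q} (hG : G.PosDef) (hG' : G'.PosDef)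
    (hV : Valid Θ π) {K : ℝ} (hK : 0 < K)
    (h : ∀ (v : Fin p → ℂ) (v' : Fin q → ℂ), ‖v ⬝ᵥ (Θ *ᵥ v')‖ ^ 2 ≤
      K ^ 2 * ((v ⬝ᵥ (G *ᵥ star v)).re * (v' ⬝ᵥ (G' *ᵥ star v')).re)) :
    phi G G' Θ π ≤ 2 ^ q * K ^ (2 * π.r) * (G.det.re * G'.det.re) := by
  have hK' : ((K : ℂ))⁻¹ ≠ 0 := inv_ne_zero (by exact_mod_cast hK.ne')
  have hn : ‖((K : ℂ))⁻¹‖ = K⁻¹ := by rw [norm_inv, Complex.norm_real, Real.norm_of_nonneg hK.le]
  have h1 := BHig_one (Θ := ((K : ℂ))⁻¹ • Θ) hG hG' ((valid_smul hK').2 hV) fun v v' => by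
    rw [Matrix.smul_mulVec, dotProduct_smul, smul_eq_mul, norm_mul, hn, mul_pow, inv_pow,
      inv_mul_le_iff₀ (by positivity)]
    exact h v v'
  rw [phi_smul hK', hn, inv_pow, inv_mul_le_iff₀ (by positivity)] at h1
  linarith

end Pool.Agent.P.MP_a62d3c_co.FF
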