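import Pool.Agent.P.MP_a62d3c_co.FB.Num5
import Pool.Agent.P.MP_a62d3c_co.FF.Loc

namespace Pool.Agent.P.MP_a62d3c_co.FF

open Filter Topology Polynomial MeasureTheory Asymptotics
open scoped ComplexConjugate Matrix ComplexOrder

/-! Strict forms of FF/Loc.lean (adapt those proofs). -/

variable {κ : Type} [Fintype κ] [DecidableEq κ] {ρ : ℕ}

theorem BLocS_log {C x r a : ℝ} (hC : 1 ≤ C) (hr : 0 < r) (h1 : x ≤ C * r ^ a)
    (h2 : r ^ a ≤ C * x) : |Real.log x - a * Real.log r| ≤ Real.log C := by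
  have hp : 0 < r ^ a := Real.rpow_pos_of_pos hr a
  have hC0 : 0 < C := by linarith
  have hx : 0 < x := (mul_pos_iff_of_pos_left hC0).1 (hp.trans_le h2)
  have k1 := Real.log_le_log hx h1
  have k2 := Real.log_le_log hp h2
  rw [Real.log_mul hC0.ne' hp.ne', Real.log_rpow hr] at k1
  rw [Real.log_mul hC0.ne' hx.ne', Real.log_rpow hr] at k2
  exact abs_le.2 ⟨by linarith, by linarith⟩

theorem BLocS_d {U : Type} [Fintype U] {d : κ → κ → ℤ} {n0 : ℤ} {S : U → Finset κ} {lo : U → ℤ}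
    {len : U → ℕ} (T : IsTree d n0 S lo len) {i j : κ} (hij : i ≠ j) :
    (n0 : ℝ) ≤ d i j ∧ (d i j : ℝ) ≤ n0 + ∑ u, (len u : ℝ) := by
  refine ⟨Int.cast_le.2 (T.base i j hij), ?_⟩
  have h1 : d i j ≤ n0 + ∑ u, (len u : ℤ) := by
    rw [T.d_eq hij]
    refine add_le_add le_rfl (Finset.sum_le_sum fun u _ => ?_)
    split_ifs
    · exact le_rfl
    · exact Int.natCast_nonneg _
  exact_mod_cast h1

/-- `|lr| ≤ C + |d i j - d k l| |log s|` (`Sep.consts`) and `0 ≤ d i j - n0 ≤ ∑ len` (`IsTree.d_eq`) -/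
theorem qs_loc {U : Type} [Fintype U] {z : ℂ → κ → ℂ} {d : κ → κ → ℤ} {n0 : ℤ}
    {S : U → Finset κ} {lo : U → ℤ} {len : U → ℕ} (hz : Sep z d) (T : IsTree d n0 S lo len) :
    ∃ C, ∀ᶠ s in L0, Qs (z s) ≤
      C - (Fintype.card κ : ℝ) ^ 4 * (∑ u, (len u : ℝ)) * Real.log ‖s‖ := by
  obtain ⟨C, hC, h⟩ := hz.consts
  refine ⟨(Fintype.card κ : ℝ) ^ 4 * (2 * Real.log C), ?_⟩
  filter_upwards [h, L0_pos, L0_lt one_pos] with s h1 h2 h3
  have hl : Real.log ‖s‖ ≤ 0 := Real.log_nonpos h2.le h3.le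
  have hC' : 0 ≤ Real.log C := Real.log_nonneg hC
  have hS : 0 ≤ ∑ u, (len u : ℝ) := Finset.sum_nonneg fun u _ => Nat.cast_nonneg _
  have hB : 0 ≤ 2 * Real.log C - (∑ u, (len u : ℝ)) * Real.log ‖s‖ := by
    nlinarith [mul_nonneg hS (neg_nonneg.2 hl)]
  have h4 : ∀ p ∈ Q4 κ, |lr (z s) p| ≤ 2 * Real.log C - (∑ u, (len u : ℝ)) * Real.log ‖s‖ := by
    rintro ⟨⟨i, j⟩, k, l⟩ hp
    obtain ⟨a1, a2⟩ := Finset.mem_product.1 hp
    have hij : i ≠ j := (Finset.mem_offDiag.1 a1).2.2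
    have hkl : k ≠ l := (Finset.mem_offDiag.1 a2).2.2
    have b1 := abs_le.1 (BLocS_log hC h2 (h1 i j hij).1 (h1 i j hij).2)
    have b2 := abs_le.1 (BLocS_log hC h2 (h1 k l hkl).1 (h1 k l hkl).2)
    have c1 := BLocS_d T hij
    have c2 := BLocS_d T hkl
    have e1 := mul_le_mul_of_nonpos_right
      (show (d i j : ℝ) - d k l ≤ ∑ u, (len u : ℝ) by linarith [c1.2, c2.1]) hl
    have e2 := mul_le_mul_of_nonpos_right
      (show (d k l : ℝ) - d i j ≤ ∑ u, (len u : ℝ) by linarith [c1.1, c2.2]) hl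
    show |Real.log ‖z s i - z s j‖ - Real.log ‖z s k - z s l‖| ≤ _
    exact abs_le.2 ⟨by linarith [b1.1, b2.2], by linarith [b1.2, b2.1]⟩
  have h5 := Finset.sum_le_card_nsmul _ _ _ h4
  have h6 : (Q4 κ).card ≤ Fintype.card κ ^ 4 := by
    have := (Q4 κ).card_le_univ
    rw [Fintype.card_prod, Fintype.card_prod] at this
    exact this.trans (le_of_eq (by ring))
  have h7 : ((Q4 κ).card : ℝ) ≤ (Fintype.card κ : ℝ) ^ 4 := by exact_mod_cast h6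
  rw [nsmul_eq_mul] at h5
  have h8 := mul_le_mul_of_nonneg_right h7 hB
  unfold Qs
  linarith

theorem avgH_strict {α : Type} [Fintype α] [DecidableEq α] (hρ : 1000 ≤ ρ)
    (hN : Fintype.card α = NP ρ) (T : Finset α) (hT : 2 ≤ sb ρ T.card) (l : ℕ) :
    ((l / 2 : ℕ) : ℝ) * (2 * bL ρ T.card + 2 / (5 * (ρ : ℝ))) - ((l % 2 : ℕ) : ℝ) * aL ρ T.card ≤
      avgH ρ T l := by
  have h1 := avg_ind (ρ := ρ) (by omega) hN T
  have h2 := avg_H2_strict hρ hN T hT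
  have h3 : ∑ I ∈ Finset.powersetCard (mP ρ) (Finset.univ : Finset α),
      (((l / 2 : ℕ) : ℝ) * H2 ρ (T ∩ I).card - ((l % 2 : ℕ) : ℝ) *
        (if 2 ≤ (T ∩ I).card ∧ (T ∩ I).card + 2 ≤ mP ρ then (5 / 4 : ℝ) else 0)) ≤
      ∑ I ∈ Finset.powersetCard (mP ρ) (Finset.univ : Finset α), hA ρ (T ∩ I).card l := by
    refine Finset.sum_le_sum fun I hI => hA_ge (by omega) ?_ l
    rw [← (Finset.mem_powersetCard.1 hI).2]
    exact Finset.card_le_card Finset.inter_subset_right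
  rw [Finset.sum_sub_distrib, ← Finset.mul_sum, ← Finset.mul_sum] at h3
  have h4 := mul_le_mul_of_nonneg_left h3 (Loc_yC_nonneg ρ)
  have ha : (0 : ℝ) ≤ ((l / 2 : ℕ) : ℝ) := Nat.cast_nonneg _
  have hb : (0 : ℝ) ≤ ((l % 2 : ℕ) : ℝ) := Nat.cast_nonneg _
  have h5 := mul_le_mul_of_nonneg_left h1 hb
  have h6 := mul_le_mul_of_nonneg_left h2 ha
  unfold avgH
  nlinarith [h4, h5, h6]

/-- a cluster and its complement have at least two points -/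
theorem BLocS_sb (hρ : 1 ≤ ρ) (g : κ ≃ Mb (eP ρ)) {d : κ → κ → ℤ} {S : Finset κ}
    (h : tlen d S ≠ 0) : 2 ≤ sb ρ S.card := by
  obtain ⟨h1, h2, -⟩ := tlen_ne_zero h
  have h3 := card_kappa hρ g
  have h4 : S.card < Fintype.card κ := (Finset.card_lt_iff_ne_univ S).2 h2
  unfold sb
  omega

theorem BLocS_edge_nb (hρ : 2 ^ 22 ≤ ρ) (g : κ ≃ Mb (eP ρ)) (S : Finset κ) (lz lw : ℕ)
    (hp : lz % 2 = lw % 2) (h2s : 2 ≤ sb ρ S.card) :
    ((lz : ℝ) + lw) * (1 / (10 * (ρ : ℝ))) ≤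
      (((lz - lz % 2 : ℕ) : ℝ) * gmin (wZ (e := eP ρ)) S.card +
        ((lw - lz % 2 : ℕ) : ℝ) * gmin (wW (e := eP ρ)) S.card +
        ((lz % 2 : ℕ) : ℝ) * gmin (wJ (e := eP ρ)) S.card) +
      (avgH ρ (S.map Function.Embedding.some) lz + avgH ρ (S.map Function.Embedding.some) lw -
        kD ρ * (((lz : ℝ) + lw) * ((S.card : ℝ) * ((S.card : ℝ) - 1) / 2))) := by
  have hs := Loc_card_le (by omega) g S
  have hZ := gZ_ge (ρ := ρ) (by omega) hs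
  have hW := gW_ge (ρ := ρ) (by omega) hs
  have hJ := gJ_A_strict hρ hs h2s
  have h1 := avgH_strict (ρ := ρ) (by omega) (Loc_card_opt (by omega) g)
    (S.map Function.Embedding.some) (by rwa [Finset.card_map]) lz
  have h2 := avgH_strict (ρ := ρ) (by omega) (Loc_card_opt (by omega) g)
    (S.map Function.Embedding.some) (by rwa [Finset.card_map]) lw
  rw [Finset.card_map] at h1 h2
  rw [← hp] at h2
  have e1 : lz - lz % 2 = 2 * (lz / 2) := by omega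
  have e2 : lw - lz % 2 = 2 * (lw / 2) := by omega
  have e3 : (lz : ℝ) = 2 * ((lz / 2 : ℕ) : ℝ) + ((lz % 2 : ℕ) : ℝ) := by
    exact_mod_cast (Nat.div_add_mod lz 2).symm
  have e4 : (lw : ℝ) = 2 * ((lw / 2 : ℕ) : ℝ) + ((lz % 2 : ℕ) : ℝ) := by
    rw [hp]
    exact_mod_cast (Nat.div_add_mod lw 2).symm
  rw [e1, e2, Nat.cast_mul, Nat.cast_mul, Nat.cast_ofNat]
  have ha : (0 : ℝ) ≤ ((lz / 2 : ℕ) : ℝ) := Nat.cast_nonneg _
  have hb : (0 : ℝ) ≤ ((lw / 2 : ℕ) : ℝ) := Nat.cast_nonneg _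
  have hc : (0 : ℝ) ≤ ((lz % 2 : ℕ) : ℝ) := Nat.cast_nonneg _
  have hr : (1 : ℝ) ≤ ρ := by exact_mod_cast (by omega : 1 ≤ ρ)
  have f1 : 2 / (5 * (ρ : ℝ)) = 4 * (1 / (10 * (ρ : ℝ))) := by
    field_simp
    ring
  have f2 : 0 ≤ 1 / (10 * (ρ : ℝ)) := by positivity
  have f3 : 1 / (10 * (ρ : ℝ)) ≤ 1 / 10 :=
    one_div_le_one_div_of_le (by norm_num) (by linarith)
  rw [f1] at h1 h2
  generalize 1 / (10 * (ρ : ℝ)) = t at *
  generalize ((lz / 2 : ℕ) : ℝ) = a at *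
  generalize ((lw / 2 : ℕ) : ℝ) = b at *
  generalize ((lz % 2 : ℕ) : ℝ) = c at *
  rw [e3, e4]
  have k1 := mul_le_mul_of_nonneg_left hZ ha
  have k2 := mul_le_mul_of_nonneg_left hW hb
  have k3 := mul_le_mul_of_nonneg_left hJ hc
  have k4 := mul_le_mul_of_nonneg_left f3 hc
  have k5 := mul_nonneg ha f2
  have k6 := mul_nonneg hb f2
  nlinarith [k1, k2, k3, k4, k5, k6, h1, h2]

omit [DecidableEq κ] in
theorem BLocS_aOne (hρ : 1 ≤ ρ) (g : κ ≃ Mb (eP ρ)) :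
    0 ≤ aOne ρ ∧ aOne ρ * (Fintype.card κ : ℝ) ^ 4 ≤ 2 * (1 / (10 * (ρ : ℝ))) := by
  have hr : (1 : ℝ) ≤ ρ := by exact_mod_cast hρ
  have h0 : 0 ≤ aOne ρ := by
    unfold aOne
    positivity
  have h1 : Fintype.card κ + 1 = 64 * ρ ^ 2 := card_kappa hρ g
  have h2 : (Fintype.card κ : ℝ) ≤ 64 * (ρ : ℝ) ^ 2 := by
    exact_mod_cast (by omega : Fintype.card κ ≤ 64 * ρ ^ 2)
  have h3 := mul_le_mul_of_nonneg_left (pow_le_pow_left₀ (Nat.cast_nonneg _) h2 4) h0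
  refine ⟨h0, h3.trans (le_of_eq ?_)⟩
  unfold aOne
  field_simp
  ring

/-- the gain on the edges pays for the degeneration of the configurations -/
theorem BLocS_fin (hρ : 1 ≤ ρ) (g : κ ≃ Mb (eP ρ)) {z w : ℂ → κ → ℂ} {dz dw : κ → κ → ℤ}
    {nz nw : ℤ} {loz low : Finset κ → ℤ} {lz lw : Finset κ → ℕ} (hz : Sep z dz) (hw : Sep w dw)
    (Tz : IsTree dz nz id loz lz) (Tw : IsTree dw nw id low lw) {F : ℂ → ℝ} {E η : ℝ}
    (hF : ∃ C, ∀ᶠ s in L0, F s ≤ C + (2 * E - η) * Real.log ‖s‖)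
    (hE : (∑ S, (lz S : ℝ) + ∑ S, (lw S : ℝ)) * (1 / (10 * (ρ : ℝ))) ≤ E) :
    ∃ C, ∀ᶠ s in L0, F s + aOne ρ * (Qs (z s) + Qs (w s)) ≤ C - η * Real.log ‖s‖ := by
  obtain ⟨C, hC⟩ := hF
  obtain ⟨C₁, h1⟩ := qs_loc hz Tz
  obtain ⟨C₂, h2⟩ := qs_loc hw Tw
  obtain ⟨a0, a1⟩ := BLocS_aOne hρ g
  have s1 : 0 ≤ ∑ S, (lz S : ℝ) := Finset.sum_nonneg fun u _ => Nat.cast_nonneg _
  have s2 : 0 ≤ ∑ S, (lw S : ℝ) := Finset.sum_nonneg fun u _ => Nat.cast_nonneg _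
  refine ⟨C + aOne ρ * (C₁ + C₂), ?_⟩
  filter_upwards [hC, h1, h2, L0_lt one_pos] with s b0 b1 b2 b3
  have hl : Real.log ‖s‖ ≤ 0 := Real.log_nonpos (norm_nonneg _) b3.le
  have c1 := mul_le_mul_of_nonneg_left (add_le_add b1 b2) a0
  have c2 := mul_le_mul_of_nonneg_right a1 (add_nonneg s1 s2)
  have c3 : aOne ρ * (Fintype.card κ : ℝ) ^ 4 * (∑ S, (lz S : ℝ) + ∑ S, (lw S : ℝ)) ≤ 2 * E := by
    linarith
  have c4 := mul_le_mul_of_nonpos_right c3 hl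
  linarith

/-- every edge contributes at least `(tlen dz S + tlen dw S) / (10 ρ)`; then `qs_loc` -/
theorem loc_nb_strict (hρ : 2 ^ 22 ≤ ρ) (g : κ ≃ Mb (eP ρ)) (πz πw : Pivs κ ρ)
    {z τ w τ' : ℂ → κ → ℂ} {dz dw : κ → κ → ℤ} (hz : Sep z dz) (hw : Sep w dw)
    (hDz : Der z τ dz) (hDw : Der w τ' dw) (uz : Ultra dz) (uw : Ultra dw)
    (hpar : ∀ i j, i ≠ j → Even (dz i j + dw i j)) {θ : ℂ → ℂ} (hθ : Bd θ 0)
    (hθ0 : ∀ᶠ s in L0, θ s ≠ 0)
    (hG : ∀ᶠ s in L0, Good ρ g πz πw (z s) (θ s • τ s) (w s) (θ s • τ' s)) {η : ℝ} (hη : 0 < η) :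
    ∃ C, ∀ᶠ s in L0, Uf ρ g πz πw (z s) (θ s • τ s) (w s) (θ s • τ' s) +
      aOne ρ * (Qs (z s) + Qs (w s)) ≤ C - η * Real.log ‖s‖ := by
  have hρ1 : 1 ≤ ρ := by omega
  have h2 : 2 ≤ Fintype.card κ := by
    have := Loc_card_two hρ1 g
    omega
  have he : 2 ≤ eP ρ := by
    show 2 ≤ 8 * ρ
    omega
  have Tz := isTree_tlen uz h2
  have Tw := isTree_tlen uw h2
  have hp := parity uz uw hpar
  have hΔ := delta_nb (g := g) he hz hw Tz Tw (fun S => tlen dz S % 2)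
    (fun S => Nat.mod_le _ _) (fun S => by rw [hp S]; exact Nat.mod_le _ _)
  refine BLocS_fin hρ1 g hz hw Tz Tw (loc_core hρ1 g πz πw hz hw hDz hDw Tz Tw hθ hθ0 hG hΔ hη) ?_
  have h3 := Finset.sum_le_sum (s := Finset.univ) fun (S : Finset κ) _ =>
    show ((tlen dz S : ℝ) + tlen dw S) * (1 / (10 * (ρ : ℝ))) ≤ _ from by
      by_cases h0 : tlen dz S = 0 ∧ tlen dw S = 0
      · refine le_trans (le_of_eq ?_) (Loc_edge_nb hρ g S (tlen dz S) (tlen dw S) (hp S))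
        rw [h0.1, h0.2, Nat.cast_zero, add_zero, zero_mul]
      · refine BLocS_edge_nb hρ g S (tlen dz S) (tlen dw S) (hp S) ?_
        rcases not_and_or.1 h0 with h | h
        · exact BLocS_sb hρ1 g h
        · exact BLocS_sb hρ1 g h
  rw [← Finset.sum_mul, Finset.sum_add_distrib, Finset.sum_add_distrib] at h3
  linarith

/-- every edge gains one half on each joint step -/
theorem BLocS_edge_br (hρ : 2 ^ 22 ≤ ρ) (g : κ ≃ Mb (eP ρ)) (d : κ → κ → ℤ) (S : Finset κ) :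
    (tlen d S : ℝ) * (1 / 2) ≤ (tlen d S : ℝ) * gmin (wJ (e := eP ρ)) S.card +
      (avgH ρ (S.map Function.Embedding.some) (tlen d S) +
        avgH ρ (S.map Function.Embedding.some) (tlen d S) -
        kD ρ * (((tlen d S : ℝ) + tlen d S) * ((S.card : ℝ) * ((S.card : ℝ) - 1) / 2))) := by
  have hρ1 : 1 ≤ ρ := by omega
  by_cases h0 : tlen d S = 0
  · have h1 := Loc_edge_br hρ g S (tlen d S) 0 (Nat.zero_le _) (G := 0)
      (by rw [add_zero]; exact gJ_A hρ (Loc_card_le hρ1 g S))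
    rw [Nat.sub_zero, Nat.cast_zero, zero_mul, sub_zero, mul_zero] at h1
    refine le_trans (le_of_eq ?_) h1
    rw [h0, Nat.cast_zero, zero_mul]
  · have h1 := Loc_edge_br hρ g S (tlen d S) 0 (Nat.zero_le _)
      (gJ_A_strict hρ (Loc_card_le hρ1 g S) (BLocS_sb hρ1 g h0))
    rwa [Nat.sub_zero, Nat.cast_zero, zero_mul, sub_zero] at h1

/-- every edge contributes at least `tlen d S / 2`, children of `H` lose at most
`kD |S|² + 39 |S|`; `16 ρ³ ≥ 8 ρ³ + (39 * 64 + 672) ρ²` -/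
theorem loc_br_strict (hρ : 2 ^ 22 ≤ ρ) (g : κ ≃ Mb (eP ρ)) (πz πw : Pivs κ ρ)
    {z τ w τ' : ℂ → κ → ℂ} {d : κ → κ → ℤ} (hz : Sep z d) (hw : Sep w d) (hDz : Der z τ d)
    (hDw : Der w τ' d) (u : Ultra d)
    (hd : ∀ i j, i ≠ j → ∀ n : ℤ, n ≤ d i j →
      Bd (fun s => (w s i - w s j) - (-1) ^ n * (z s i - z s j)) ((n : ℝ) + 1))
    {θ : ℂ → ℂ} (hθ : Bd θ (-1)) (hθ0 : ∀ᶠ s in L0, θ s ≠ 0)
    (hG : ∀ᶠ s in L0, Good ρ g πz πw (z s) (θ s • τ s) (w s) (θ s • τ' s)) {η : ℝ} (hη : 0 < η) :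
    ∃ C, ∀ᶠ s in L0, Uf ρ g πz πw (z s) (θ s • τ s) (w s) (θ s • τ' s) +
      aOne ρ * (Qs (z s) + Qs (w s)) ≤ C - η * Real.log ‖s‖ := by
  have hρ1 : 1 ≤ ρ := by omega
  have hc := Loc_card_two hρ1 g
  have h2 : 2 ≤ Fintype.card κ := by omega
  have he : 2 ≤ eP ρ := by
    show 2 ≤ 8 * ρ
    omega
  have T := isTree_tlen u h2
  have hrk := Loc_rk_le hρ1 g πz πw
  have h8 : (1000 : ℝ) ≤ ρ := by exact_mod_cast (by omega : 1000 ≤ ρ)
  have key : ∀ ν : ℝ, Bd (fun s => Delta g (z s) (w s)) ν →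
      672 * (ρ : ℝ) ^ 2 + (∑ S, (tlen d S : ℝ)) * (1 / 2) ≤
        ν - sig (eP ρ) * ((tin d Finset.univ : ℝ) + (tin d Finset.univ : ℝ)) +
        ∑ S : Finset κ, (avgH ρ (S.map Function.Embedding.some) (tlen d S) +
          avgH ρ (S.map Function.Embedding.some) (tlen d S) -
          kD ρ * (((tlen d S : ℝ) + tlen d S) * ((S.card : ℝ) * ((S.card : ℝ) - 1) / 2))) →
      ∃ C, ∀ᶠ s in L0, Uf ρ g πz πw (z s) (θ s • τ s) (w s) (θ s • τ' s) +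
        aOne ρ * (Qs (z s) + Qs (w s)) ≤ C - η * Real.log ‖s‖ := by
    intro ν hΔ hν
    refine BLocS_fin hρ1 g hz hw T T (loc_core hρ1 g πz πw hz hw hDz hDw T T hθ hθ0 hG hΔ hη) ?_
    have f3 : 1 / (10 * (ρ : ℝ)) ≤ 1 / 10 :=
      one_div_le_one_div_of_le (by norm_num) (by linarith)
    have s1 : 0 ≤ ∑ S, (tlen d S : ℝ) := Finset.sum_nonneg fun u _ => Nat.cast_nonneg _
    have s2 := mul_le_mul_of_nonneg_left f3 (add_nonneg s1 s1)
    linarith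
  have h3 := BLocS_edge_br hρ g d
  by_cases hmid : ∃ S : Finset κ, tlen d S ≠ 0 ∧ ρ ^ 2 ≤ S.card ∧ S.card ≤ 32 * ρ ^ 2
  · obtain ⟨S₀, a1, a2, a3⟩ := hmid
    refine key _ (delta_nb (g := g) he hz hw T T (tlen d) (fun _ => le_rfl) (fun _ => le_rfl)) ?_
    have h4 := Finset.single_le_sum (s := Finset.univ) (fun S _ => sub_nonneg.2 (h3 S))
      (Finset.mem_univ S₀)
    have h5 := Loc_edge_br hρ g S₀ (tlen d S₀) 0 (Nat.zero_le _) (gJ_B_strict hρ a2 a3)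
    rw [Nat.sub_zero, Nat.cast_zero, zero_mul, sub_zero] at h5
    have h6 : (1 : ℝ) ≤ tlen d S₀ := by exact_mod_cast Nat.one_le_iff_ne_zero.2 a1
    have h7 : 672 * (ρ : ℝ) ^ 2 ≤ tlen d S₀ * (672 * (ρ : ℝ) ^ 2) :=
      le_mul_of_one_le_left (by positivity) h6
    have h9 : (tlen d S₀ : ℝ) * (1 / 2) ≤ tlen d S₀ * (ρ : ℝ) ^ 2 :=
      mul_le_mul_of_nonneg_left (by nlinarith) (Nat.cast_nonneg _)
    rw [Finset.sum_sub_distrib, Finset.sum_add_distrib, ← Finset.sum_mul] at h4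
    simp only [Nat.sub_self, Nat.cast_zero, zero_mul, zero_add]
    linarith
  · have hsm : ∀ S : Finset κ, tlen d S ≠ 0 → S.card ≤ 32 * ρ ^ 2 → S.card < ρ ^ 2 := by
      intro S a1 a3
      by_contra a2
      exact hmid ⟨S, a1, not_lt.1 a2, a3⟩
    obtain ⟨H, hH, hmin⟩ := Finset.exists_min_image
      (Finset.univ.filter fun S : Finset κ =>
        S = Finset.univ ∨ (tlen d S ≠ 0 ∧ 32 * ρ ^ 2 < S.card)) Finset.card
      ⟨Finset.univ, Finset.mem_filter.2 ⟨Finset.mem_univ _, Or.inl rfl⟩⟩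
    have hH' := (Finset.mem_filter.1 hH).2
    have hHc : 32 * ρ ^ 2 ≤ H.card := by
      rcases hH' with h | h
      · rw [h, Finset.card_univ]
        omega
      · exact h.2.le
    obtain ⟨n, hn⟩ : ∃ n : ℤ, (tlen d H ≠ 0 ∧ n = tout d H + tlen d H) ∨
        (H = Finset.univ ∧ tlen d H = 0 ∧ n = tin d Finset.univ) := by
      rcases hH' with h | h
      · refine ⟨_, Or.inr ⟨h, ?_, rfl⟩⟩
        rw [h]
        unfold tlen
        rw [if_neg fun h' => h'.2 rfl]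
      · exact ⟨_, Or.inl ⟨h.1, rfl⟩⟩
    refine key _ (delta_br (g := g) he hz hw T hd H n hn) ?_
    have hD := gD_ge hρ1 (Loc_card_le hρ1 g H) hHc
    have h3' : ∀ S : Finset κ, (tlen d S : ℝ) * (1 / 2) -
        (if tlen d S ≠ 0 ∧ S ⊂ H ∧ tout d S = n then ((ρ : ℝ) / 8 + 39) * S.card else 0) ≤
        ((tlen d S - (if S ⊂ H ∧ tout d S = n then 1 else 0) : ℕ) : ℝ) *
          gmin (wJ (e := eP ρ)) S.card +
        (avgH ρ (S.map Function.Embedding.some) (tlen d S) +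
          avgH ρ (S.map Function.Embedding.some) (tlen d S) -
          kD ρ * (((tlen d S : ℝ) + tlen d S) * ((S.card : ℝ) * ((S.card : ℝ) - 1) / 2))) := by
      intro S
      by_cases hS : tlen d S ≠ 0 ∧ S ⊂ H ∧ tout d S = n
      · rw [if_pos hS, if_pos hS.2]
        have b0 := Nat.one_le_iff_ne_zero.2 hS.1
        have b1 := Loc_edge_br hρ g S (tlen d S) 1 b0
          (gJ_A_strict hρ (Loc_card_le hρ1 g S) (BLocS_sb hρ1 g hS.1))
        have b2 : S.card < H.card := Finset.card_lt_card hS.2.1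
        have b3 : S.card ≤ 32 * ρ ^ 2 := by
          by_contra b4
          have := hmin S (Finset.mem_filter.2 ⟨Finset.mem_univ _, Or.inr ⟨hS.1, not_le.1 b4⟩⟩)
          omega
        have b5 := Loc_child_loss hρ1 (hsm S hS.1 b3)
        have b6 : ((tlen d S - 1 : ℕ) : ℝ) = tlen d S - 1 := by
          rw [Nat.cast_sub b0, Nat.cast_one]
        have b7 : (2 : ℝ) ≤ S.card := by exact_mod_cast (tlen_ne_zero hS.1).1
        rw [Nat.cast_one] at b1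
        nth_rewrite 1 [b6] at b1
        linarith
      · rw [if_neg hS]
        have b2 : tlen d S - (if S ⊂ H ∧ tout d S = n then 1 else 0) = tlen d S := by
          by_cases b3 : S ⊂ H ∧ tout d S = n
          · have b4 : tlen d S = 0 := by
              by_contra b5
              exact hS ⟨b5, b3⟩
            rw [b4, Nat.zero_sub]
          · rw [if_neg b3, Nat.sub_zero]
        rw [b2, sub_zero]
        exact h3 S
    have h4 := Finset.sum_le_sum (s := Finset.univ) fun S _ => h3' S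
    rw [Finset.sum_add_distrib, Finset.sum_sub_distrib, ← Finset.sum_filter,
      ← Finset.mul_sum, ← Finset.sum_mul] at h4
    have h5 := Loc_children T n (Finset.univ.filter fun S : Finset κ =>
      tlen d S ≠ 0 ∧ S ⊂ H ∧ tout d S = n) fun S hS =>
        ⟨(Finset.mem_filter.1 hS).2.1, (Finset.mem_filter.1 hS).2.2.2⟩
    have h6 : Fintype.card κ + 1 = 64 * ρ ^ 2 := card_kappa hρ1 g
    have h7 : ∑ S ∈ Finset.univ.filter (fun S : Finset κ =>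
        tlen d S ≠ 0 ∧ S ⊂ H ∧ tout d S = n), (S.card : ℝ) ≤ 64 * (ρ : ℝ) ^ 2 := by
      exact_mod_cast h5.trans (by omega : Fintype.card κ ≤ 64 * ρ ^ 2)
    have h9 := mul_le_mul_of_nonneg_left h7 (by positivity : (0 : ℝ) ≤ (ρ : ℝ) / 8 + 39)
    have h10 : 1000 * (ρ : ℝ) ^ 2 ≤ (ρ : ℝ) ^ 3 := by nlinarith [sq_nonneg (ρ : ℝ)]
    nlinarith [h4, h9, h10, hD, sq_nonneg (ρ : ℝ)]

end Pool.Agent.P.MP_a62d3c_co.FF
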