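import Pool.Agent.P.MP_a62d3c_co.FB.Defs

namespace Pool.Agent.P.MP_a62d3c_co.FF

open Filter Topology Polynomial MeasureTheory Asymptotics
open scoped ComplexConjugate Matrix ComplexOrder

/-! Functions meromorphic on the plane. -/

variable {Z Z' : Set ℂ} {f g D : ℂ → ℂ}

theorem Disc.union (h : Disc Z) (h' : Disc Z') : Disc (Z ∪ Z') := by
  intro v
  filter_upwards [h v, h' v] with t h1 h2
  rintro (h3 | h3)
  · exact h1 h3
  · exact h2 h3

theorem Disc.mono (h : Disc Z') (hZ : Z ⊆ Z') : Disc Z := by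
  intro v
  filter_upwards [h v] with t h1 h2
  exact h1 (hZ h2)

theorem disc_iUnion {ι : Type} [Finite ι] {A : ι → Set ℂ} (h : ∀ i, Disc (A i)) :
    Disc (⋃ i, A i) := by
  intro v
  have h1 : ∀ᶠ t in 𝓝[≠] v, ∀ i, t ∉ A i := eventually_all.2 fun i => h i v
  filter_upwards [h1] with t ht h2
  obtain ⟨i, hi⟩ := Set.mem_iUnion.1 h2
  exact ht i hi

theorem Disc.eventually_nhds (h : Disc Z) {t : ℂ} (ht : t ∉ Z) : ∀ᶠ u in 𝓝 t, u ∉ Z := by
  have h1 := eventually_nhdsWithin_iff.1 (h t)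
  filter_upwards [h1] with u hu
  by_cases hut : u = t
  · rw [hut]; exact ht
  · exact hu hut

/-- `MeromorphicAt.eventually_analyticAt` -/
theorem disc_not_analytic (hf : Meromorphic f) : Disc {t | ¬AnalyticAt ℂ f t} := by
  intro v
  filter_upwards [(hf v).eventually_analyticAt] with t ht h2
  exact h2 ht

theorem MA.mono (h : MA Z f) (hZ : Z ⊆ Z') : MA Z' f := ⟨h.1, fun t ht => h.2 t fun h1 => ht (hZ h1)⟩

theorem ma_const (c : ℂ) : MA Z fun _ => c := ⟨Meromorphic.const c, fun _ _ => analyticAt_const⟩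

theorem MA.add (h : MA Z f) (h' : MA Z g) : MA Z fun t => f t + g t := ⟨h.1.add h'.1, fun t ht => (h.2 t ht).add (h'.2 t ht)⟩

theorem MA.sub (h : MA Z f) (h' : MA Z g) : MA Z fun t => f t - g t := ⟨h.1.sub h'.1, fun t ht => (h.2 t ht).sub (h'.2 t ht)⟩

theorem MA.neg (h : MA Z f) : MA Z fun t => -f t := ⟨h.1.neg, fun t ht => (h.2 t ht).neg⟩

theorem MA.mul (h : MA Z f) (h' : MA Z g) : MA Z fun t => f t * g t := ⟨h.1.mul h'.1, fun t ht => (h.2 t ht).mul (h'.2 t ht)⟩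

theorem MA.pow (h : MA Z f) (n : ℕ) : MA Z fun t => f t ^ n := ⟨h.1.pow (n := n), fun t ht => (h.2 t ht).pow n⟩

theorem MA.inv (h : MA Z f) (h0 : ∀ t, t ∉ Z → f t ≠ 0) : MA Z fun t => (f t)⁻¹ := ⟨h.1.inv, fun t ht => (h.2 t ht).inv (h0 t ht)⟩

theorem MA.deriv (h : MA Z f) : MA Z (deriv f) := ⟨h.1.deriv, fun t ht => (h.2 t ht).deriv⟩

/-- identity theorem: the order at `a` is `⊤`, hence everywhere
(`Meromorphic.exists_meromorphicOrderAt_ne_top_iff_forall`); continuity at `t` -/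
theorem zero_of_frequently (hf : Meromorphic f) {a : ℂ} (h : ∃ᶠ t in 𝓝[≠] a, f t = 0) {t : ℂ}
    (ht : AnalyticAt ℂ f t) : f t = 0 := by
  have h1 : meromorphicOrderAt f a = ⊤ :=
    meromorphicOrderAt_eq_top_iff.2 ((hf a).frequently_zero_iff_eventuallyEq_zero.1 h)
  have h2 : meromorphicOrderAt f t = ⊤ := by
    by_contra h3
    exact (hf.exists_meromorphicOrderAt_ne_top_iff_forall.1 ⟨t, h3⟩) a h1
  have h3 : f =ᶠ[𝓝[≠] t] fun _ => 0 := meromorphicOrderAt_eq_top_iff.1 h2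
  exact ((ht.continuousAt.eventuallyEq_nhds_iff_eventuallyEq_nhdsNE continuousAt_const).1
    h3).eq_of_nhds

theorem disc_zeros (hf : Meromorphic f) {t₀ : ℂ} (ht : AnalyticAt ℂ f t₀) (h0 : f t₀ ≠ 0) :
    Disc {t | f t = 0} := by
  intro v
  by_contra h1
  apply h0
  refine zero_of_frequently hf (a := v) ?_ ht
  rw [not_eventually] at h1
  exact h1.mono fun t h2 => not_not.1 h2

/-- replace `g` by its normal form (`toMeromorphicNFOn`); outside `Z` its square is eventually equal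
to the analytic function `D`, so its order is nonnegative and it is analytic -/
theorem SqM.exists_ma (h : SqM D) (hD : MA Z D) :
    ∃ g, MA Z g ∧ ∀ t, t ∉ Z → D t = g t ^ 2 := by
  obtain ⟨g, W, hg, hW, hDg⟩ := h
  have hN : MeromorphicNFOn (toMeromorphicNFOn g Set.univ) Set.univ :=
    meromorphicNFOn_toMeromorphicNFOn g Set.univ
  have hM : Meromorphic (toMeromorphicNFOn g Set.univ) := fun t =>
    (hN (Set.mem_univ t)).meromorphicAt
  have hE : ∀ t, D =ᶠ[𝓝[≠] t] (toMeromorphicNFOn g Set.univ) ^ 2 := by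
    intro t
    filter_upwards [hW t, (hg.meromorphicOn (s := Set.univ)).toMeromorphicNFOn_eq_self_on_nhdsNE
      (Set.mem_univ t)] with u h1 h2
    rw [Pi.pow_apply, h2, hDg u h1]
  have hA : ∀ t, t ∉ Z → AnalyticAt ℂ (toMeromorphicNFOn g Set.univ) t := by
    intro t ht
    apply (hN (Set.mem_univ t)).meromorphicOrderAt_nonneg_iff_analyticAt.1
    have h1 := (hD.2 t ht).meromorphicOrderAt_nonneg
    rw [meromorphicOrderAt_congr (hE t), meromorphicOrderAt_pow (hM t)] at h1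
    generalize meromorphicOrderAt (toMeromorphicNFOn g Set.univ) t = o at h1
    induction o with
    | top => exact le_top
    | coe n =>
      have h2 : ((0 : ℤ) : WithTop ℤ) ≤ ((2 * n : ℤ) : WithTop ℤ) := by
        simpa using h1
      have h3 : (0 : ℤ) ≤ 2 * n := WithTop.coe_le_coe.1 h2
      have h4 : (0 : ℤ) ≤ n := by omega
      exact_mod_cast h4
  refine ⟨toMeromorphicNFOn g Set.univ, ⟨hM, hA⟩, fun t ht => ?_⟩
  exact (((hD.2 t ht).continuousAt.eventuallyEq_nhds_iff_eventuallyEq_nhdsNE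
    ((hA t ht).pow 2).continuousAt).1 (hE t)).eq_of_nhds

/-- near `t₀` the quotient `f / g` has derivative zero, so `f - c g` vanishes near `t₀` -/
theorem prop_of_wronskianM (hf : MA Z f) (hg : MA Z g) (hZ' : Disc Z')
    (h : ∀ t, t ∉ Z' → deriv f t * g t = f t * deriv g t) {t₀ : ℂ} (ht₀ : t₀ ∉ Z)
    (h0 : g t₀ ≠ 0) {t : ℂ} (ht : t ∉ Z) : f t * g t₀ = g t * f t₀ := by
  have hf0 := hf.2 t₀ ht₀
  have hg0 := hg.2 t₀ ht₀
  have hq : AnalyticAt ℂ (fun u => f u / g u) t₀ := hf0.div hg0 h0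
  have hgne : ∀ᶠ u in 𝓝 t₀, g u ≠ 0 := hg0.continuousAt.eventually_ne h0
  have hd1 : deriv (fun u => f u / g u) =ᶠ[𝓝[≠] t₀] fun _ => 0 := by
    filter_upwards [hZ' t₀, nhdsWithin_le_nhds hgne, nhdsWithin_le_nhds hf0.eventually_analyticAt,
      nhdsWithin_le_nhds hg0.eventually_analyticAt] with u h1 h2 h3 h4
    rw [deriv_fun_div h3.differentiableAt h4.differentiableAt h2, h u h1, sub_self, zero_div]
  have hd2 : deriv (fun u => f u / g u) =ᶠ[𝓝 t₀] fun _ => 0 :=
    (hq.deriv.continuousAt.eventuallyEq_nhds_iff_eventuallyEq_nhdsNE continuousAt_const).1 hd1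
  obtain ⟨r, hr, hb⟩ := Metric.eventually_nhds_iff_ball.1 (hd2.and hq.eventually_analyticAt)
  have hc : ∀ u ∈ Metric.ball t₀ r, f u / g u = f t₀ / g t₀ := by
    intro u hu
    exact Metric.isOpen_ball.is_const_of_deriv_eq_zero (𝕜 := ℂ) (f := fun u => f u / g u)
      (convex_ball t₀ r).isPreconnected
      (fun y hy => (hb y hy).2.differentiableAt.differentiableWithinAt)
      (fun y hy => (hb y hy).1) hu (Metric.mem_ball_self hr)
  have hF : MA Z fun u => f u * g t₀ - g u * f t₀ :=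
    (hf.mul (ma_const _)).sub (hg.mul (ma_const _))
  have hz : ∀ᶠ u in 𝓝[≠] t₀, f u * g t₀ - g u * f t₀ = 0 := by
    filter_upwards [nhdsWithin_le_nhds hgne, nhdsWithin_le_nhds (Metric.ball_mem_nhds t₀ hr)]
      with u h1 h2
    have h3 := hc u h2
    rw [div_eq_div_iff h1 h0] at h3
    rw [h3, mul_comm, sub_self]
  exact sub_eq_zero.1 (zero_of_frequently hF.1 hz.frequently (hF.2 t ht))

end Pool.Agent.P.MP_a62d3c_co.FF
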