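import Pool.Agent.P.MP_a62d3c_co.FB.Defs
import Pool.Agent.P.MP_a62d3c_co.FF.Num1
import Pool.Agent.P.MP_a62d3c_co.FF.Num2
import Pool.Agent.P.MP_a62d3c_co.FF.Num4

namespace Pool.Agent.P.MP_a62d3c_co.FF

open Filter Topology Polynomial MeasureTheory Asymptotics
open scoped ComplexConjugate Matrix ComplexOrder

/-! Strict forms of the inequalities of FF/Num2.lean and FF/Num4.lean (adapt those proofs). -/

/-- `hA_ge` with `l = 2` and `cost ≥ 0` -/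
theorem H2_le_gA {ρ s : ℕ} (hρ : 100 ≤ ρ) (hs : s ≤ mP ρ) : H2 ρ s ≤ 2 * gA ρ s := by
  have h := hA_ge hρ hs 2
  have hc : 0 ≤ cost (pP ρ) (qP ρ) (1 / 4) s 2 := by
    unfold cost
    refine Finset.sum_nonneg fun k _ => ?_
    split_ifs
    · exact le_max_right _ _
    · exact le_rfl
  unfold hA at h
  unfold gA
  norm_num at h ⊢
  norm_num at hc
  linarith

/-- `sb ≤ 2 ρ`: `0.69 C / ρ` against `0.25 C / ρ`, `C = C(sb,2) ≥ 1`; `sb ≥ 2 ρ`: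
`2.1 ρ (W - 1) - ρ W ≥ 0.08 ρ` -/
theorem avg_H2_strict {α : Type} [Fintype α] [DecidableEq α] {ρ : ℕ} (hρ : 1000 ≤ ρ)
    (hN : Fintype.card α = NP ρ) (T : Finset α) (hT : 2 ≤ sb ρ T.card) :
    2 * bL ρ T.card + 2 / (5 * (ρ : ℝ)) ≤
      yC ρ * ∑ I ∈ Finset.powersetCard (mP ρ) (Finset.univ : Finset α), H2 ρ (T ∩ I).card := by
  have hρ1 : 1 ≤ ρ := by omega
  have hM := Num2_pos hρ1
  have hr : (1 : ℝ) ≤ ρ := by exact_mod_cast hρ1
  have h71 : (0 : ℝ) < 64 * (ρ : ℝ) ^ 2 - 1 := by nlinarith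
  have h72 : (0 : ℝ) < 64 * (ρ : ℝ) ^ 2 - 2 := by nlinarith
  have h73 : (0 : ℝ) < 64 * (ρ : ℝ) - 1 := by linarith
  set S : ℝ := ∑ I ∈ Finset.powersetCard (mP ρ) (Finset.univ : Finset α), H2 ρ (T ∩ I).card
    with hS
  have hy : (0 : ℝ) ≤ yC ρ := by unfold yC; positivity
  rcases le_total (sb ρ T.card) (2 * ρ) with hc | hc
  · obtain ⟨T', hcard, hT'⟩ := Num2_small hN T
    have h1 : ∑ I ∈ Finset.powersetCard (mP ρ) (Finset.univ : Finset α),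
        ((((T' ∩ I).card.choose 2 : ℝ) - ((T' ∩ I).card.choose 3 : ℝ)) / 10) ≤ S := by
      refine Finset.sum_le_sum fun I hI => ?_
      unfold H2
      rcases hT' I hI with e | e
      · rw [e]; exact le_max_of_le_right (le_max_left _ _)
      · rw [e]; exact le_max_of_le_right (le_max_right _ _)
    rw [← Finset.sum_div, Finset.sum_sub_distrib, Num2_avg2 hρ1 hN T', Num2_avg3 hρ1 hN T',
      hcard] at h1
    set b := sb ρ T.card with hb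
    set M : ℝ := ((NP ρ).choose (mP ρ) : ℝ) with hMdef
    set p : ℝ := (64 * (ρ : ℝ) - 1) / (ρ * (64 * (ρ : ℝ) ^ 2 - 1)) with hp
    have hp0 : 0 ≤ p := by positivity
    have h2 : (b.choose 3 : ℝ) * 3 ≤ (b.choose 2 : ℝ) * (2 * ρ) := by
      have e := Nat.choose_succ_right_eq b 2
      have : b.choose 3 * 3 ≤ b.choose 2 * (2 * ρ) := by
        rw [show b.choose 3 * 3 = b.choose 2 * (b - 2) from e]
        exact Nat.mul_le_mul_left _ (by omega)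
      exact_mod_cast this
    have h3 : (64 * (ρ : ℝ) - 2) / (64 * (ρ : ℝ) ^ 2 - 2) ≤ 1 / ρ := by
      rw [div_le_div_iff₀ h72 (by positivity)]
      nlinarith
    have h30 : (0 : ℝ) ≤ (64 * (ρ : ℝ) - 2) / (64 * (ρ : ℝ) ^ 2 - 2) :=
      div_nonneg (by linarith) h72.le
    have h4 : (b.choose 3 : ℝ) * (p * ((64 * (ρ : ℝ) - 2) / (64 * (ρ : ℝ) ^ 2 - 2))) ≤
        2 / 3 * ((b.choose 2 : ℝ) * p) := by
      have h5 : (b.choose 3 : ℝ) ≤ (b.choose 2 : ℝ) * (2 * ρ) / 3 := by linarith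
      calc (b.choose 3 : ℝ) * (p * ((64 * (ρ : ℝ) - 2) / (64 * (ρ : ℝ) ^ 2 - 2)))
          ≤ ((b.choose 2 : ℝ) * (2 * ρ) / 3) * (p * (1 / ρ)) := by
            apply mul_le_mul h5 (mul_le_mul_of_nonneg_left h3 hp0) (mul_nonneg hp0 h30)
            positivity
        _ = 2 / 3 * ((b.choose 2 : ℝ) * p) := by field_simp
    have h6 : M * ((b.choose 2 : ℝ) * p) / 30 ≤ S := by
      have := mul_le_mul_of_nonneg_left h4 hM.le
      linarith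
    have h7 := mul_le_mul_of_nonneg_left h6 hy
    refine le_trans ?_ h7
    have h8 : bL ρ T.card ≤ kD ρ * (b.choose 2 : ℝ) := min_le_left _ _
    have h9 : yC ρ * (M * ((b.choose 2 : ℝ) * p) / 30) =
        (b.choose 2 : ℝ) * (7 / 10 * (64 * (ρ : ℝ) - 1) / (64 * (ρ : ℝ) ^ 2 - 1)) := by
      unfold yC
      rw [← hMdef, hp]
      field_simp
      ring
    have h10 : 2 * kD ρ + 2 / (5 * (ρ : ℝ)) ≤
        7 / 10 * (64 * (ρ : ℝ) - 1) / (64 * (ρ : ℝ) ^ 2 - 1) := by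
      have e1 := Num4_kD_le hρ1
      have e2 : 2 * (1 / (8 * (ρ : ℝ))) + 2 / (5 * (ρ : ℝ)) = 13 / (20 * (ρ : ℝ)) := by
        field_simp
        ring
      have e3 : 13 / (20 * (ρ : ℝ)) ≤ 7 / 10 * (64 * (ρ : ℝ) - 1) / (64 * (ρ : ℝ) ^ 2 - 1) := by
        rw [div_le_div_iff₀ (by positivity) h71]
        nlinarith
      linarith
    have h11 := mul_le_mul_of_nonneg_left h10 (by positivity : (0 : ℝ) ≤ (b.choose 2 : ℝ))
    have h12 : (1 : ℝ) ≤ (b.choose 2 : ℝ) := by exact_mod_cast Nat.choose_pos hT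
    have h13 := mul_le_mul_of_nonneg_right h12 (by positivity : (0 : ℝ) ≤ 2 / (5 * (ρ : ℝ)))
    rw [h9]
    linarith
  · have h1 : ∑ I ∈ Finset.powersetCard (mP ρ) (Finset.univ : Finset α),
        ((((T ∩ I).card : ℝ) - 2 / (64 * (ρ : ℝ) - 1) * ((T ∩ I).card.choose 2 : ℝ) - 1) / 10)
          ≤ S := by
      refine Finset.sum_le_sum fun I _ => ?_
      unfold H2
      refine le_max_of_le_left (le_max_of_le_right (le_of_eq ?_))
      rw [Nat.cast_choose_two]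
      field_simp
      ring
    rw [← Finset.sum_div, Finset.sum_sub_distrib, Finset.sum_sub_distrib, ← Finset.mul_sum,
      Num2_avg1 hρ1 hN T, Num2_avg2 hρ1 hN T, Finset.sum_const, Finset.card_powersetCard,
      Finset.card_univ, hN, nsmul_eq_mul, mul_one, Nat.cast_choose_two] at h1
    set M : ℝ := ((NP ρ).choose (mP ρ) : ℝ) with hMdef
    set t : ℝ := (T.card : ℝ) with ht
    have ht1 : 2 * (ρ : ℝ) ≤ t := by
      have : 2 * ρ ≤ T.card := hc.trans (min_le_left _ _)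
      rw [ht]
      exact_mod_cast this
    have ht2 : t + 2 * (ρ : ℝ) ≤ 64 * (ρ : ℝ) ^ 2 := by
      have h : 2 * ρ ≤ NP ρ - T.card := hc.trans (min_le_right _ _)
      have : T.card + 2 * ρ ≤ 64 * ρ ^ 2 := by
        have e : NP ρ = 64 * ρ ^ 2 := rfl
        omega
      rw [ht]
      exact_mod_cast this
    set X : ℝ := t * (64 * (ρ : ℝ) ^ 2 - t) with hX
    have hX1 : 2 * (ρ : ℝ) * (64 * (ρ : ℝ) ^ 2 - 2 * ρ) ≤ X := by
      nlinarith [mul_nonneg (sub_nonneg.2 ht1) (sub_nonneg.2 ht2)]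
    have hX0 : 0 ≤ X := le_trans (by nlinarith) hX1
    have h7 := mul_le_mul_of_nonneg_left h1 hy
    refine le_trans ?_ h7
    have h8 : bL ρ T.card ≤ kD ρ * (X / (16 * ρ)) := min_le_right _ _
    have h9 : yC ρ * ((M * (t / ρ) - 2 / (64 * (ρ : ℝ) - 1) * (M * (t * (t - 1) / 2 *
        ((64 * (ρ : ℝ) - 1) / (ρ * (64 * (ρ : ℝ) ^ 2 - 1))))) - M) / 10) =
        21 / 10 * (X / (64 * (ρ : ℝ) ^ 2 - 1)) - 21 / 10 * ρ := by
      unfold yC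
      rw [← hMdef, hX]
      have e : ∀ a b r : ℝ, a ≠ 0 → b ≠ 0 → r ≠ 0 →
          21 * r / M * ((M * (t / r) - 2 / a * (M * (t * (t - 1) / 2 * (a / (r * b)))) - M) / 10) =
            21 / 10 * (t * (b + 1 - t) / b) - 21 / 10 * r := by
        intro a b r ha hb hr0
        field_simp
        ring
      rw [e _ _ _ h73.ne' h71.ne' (by positivity), sub_add_cancel]
    have h10 : 2 * (kD ρ * (X / (16 * ρ))) ≤ X / (64 * (ρ : ℝ) ^ 2 - 1) := by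
      have e : 2 * (kD ρ * (X / (16 * ρ))) = X / (64 * (ρ : ℝ) ^ 2 + 8 * ρ) := by
        unfold kD
        field_simp
        ring
      rw [e]
      exact div_le_div_of_nonneg_left hX0 h71 (by linarith)
    have hr' : (1000 : ℝ) ≤ ρ := by exact_mod_cast hρ
    have h11 : 199 / 100 * (ρ : ℝ) ≤ X / (64 * (ρ : ℝ) ^ 2 - 1) := by
      rw [le_div_iff₀ h71]
      have h12 : (0 : ℝ) ≤ (ρ : ℝ) * ((ρ : ℝ) * ((ρ : ℝ) - 1000)) :=
        mul_nonneg (by linarith) (mul_nonneg (by linarith) (by linarith))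
      nlinarith
    have h13 : 2 / (5 * (ρ : ℝ)) ≤ 1 := by
      rw [div_le_one (by positivity)]
      linarith
    rw [h9]
    linarith

theorem gJ_A_strict {ρ s : ℕ} (hρ : 2 ^ 22 ≤ ρ) (hs : s ≤ NP ρ) (h2 : 2 ≤ sb ρ s) :
    kD ρ * ((s : ℝ) * ((s : ℝ) - 1)) + 2 * aL ρ s + 1 / 2 ≤ gmin (wJ (e := eP ρ)) s := by
  have hρ1 : 1 ≤ ρ := le_trans (by norm_num) hρ
  have hr : (4194304 : ℝ) ≤ ρ := by exact_mod_cast hρ
  have ha := aL_le hρ1 s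
  by_cases h1 : sb ρ s < 40000
  · have h := gJ_ge hρ1 hs 1
    refine le_trans ?_ h
    have hx1 : (2 : ℝ) ≤ (sb ρ s : ℝ) := by exact_mod_cast h2
    have hx2 : (sb ρ s : ℝ) ≤ 40000 := by exact_mod_cast h1.le
    have hal : 2 * aL ρ s ≤ 105 / 4 * ((sb ρ s : ℝ) * ((sb ρ s : ℝ) - 1)) / ρ := by
      unfold aL
      rw [Num4_choose]
      have h2' : min 1 ((sb ρ s : ℝ) * ((sb ρ s : ℝ) - 1) / 2 / (ρ : ℝ) ^ 2) ≤
          (sb ρ s : ℝ) * ((sb ρ s : ℝ) - 1) / 2 / (ρ : ℝ) ^ 2 := min_le_right _ _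
      calc 2 * (5 / 4 * (21 * (ρ : ℝ)) *
            min 1 ((sb ρ s : ℝ) * ((sb ρ s : ℝ) - 1) / 2 / (ρ : ℝ) ^ 2))
          ≤ 2 * (5 / 4 * (21 * (ρ : ℝ)) *
            ((sb ρ s : ℝ) * ((sb ρ s : ℝ) - 1) / 2 / (ρ : ℝ) ^ 2)) := by
            gcongr
        _ = 105 / 4 * ((sb ρ s : ℝ) * ((sb ρ s : ℝ) - 1)) / ρ := by
            field_simp
            ring
    have hkd : kD ρ * ((sb ρ s : ℝ) * ((sb ρ s : ℝ) - 1)) ≤
        1 / 8 * ((sb ρ s : ℝ) * ((sb ρ s : ℝ) - 1)) / ρ := by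
      calc kD ρ * ((sb ρ s : ℝ) * ((sb ρ s : ℝ) - 1))
          ≤ 1 / (8 * (ρ : ℝ)) * ((sb ρ s : ℝ) * ((sb ρ s : ℝ) - 1)) :=
            mul_le_mul_of_nonneg_right (Num4_kD_le hρ1) (by nlinarith)
        _ = 1 / 8 * ((sb ρ s : ℝ) * ((sb ρ s : ℝ) - 1)) / ρ := by
            field_simp
    have hfin : 211 / 8 * ((sb ρ s : ℝ) * ((sb ρ s : ℝ) - 1)) / ρ ≤ ((sb ρ s : ℝ) - 1) / 2 := by
      rw [div_le_iff₀ (by linarith)]
      have h3 : 211 / 8 * (sb ρ s : ℝ) ≤ ρ / 2 := by linarith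
      nlinarith
    have hsum : 105 / 4 * ((sb ρ s : ℝ) * ((sb ρ s : ℝ) - 1)) / ρ +
        1 / 8 * ((sb ρ s : ℝ) * ((sb ρ s : ℝ) - 1)) / ρ =
        211 / 8 * ((sb ρ s : ℝ) * ((sb ρ s : ℝ) - 1)) / ρ := by ring
    push_cast
    linarith
  · push Not at h1
    have hk : 282 ≤ Nat.sqrt (2 * sb ρ s) := Nat.le_sqrt.2 (by omega)
    have h := gJ_ge hρ1 hs (Nat.sqrt (2 * sb ρ s))
    refine le_trans ?_ h
    have hb := Num4_br hρ1 (Num4_sb ρ s) rfl (le_trans (by norm_num) hk)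
    have hk' : (282 : ℝ) ≤ (Nat.sqrt (2 * sb ρ s) : ℕ) := by exact_mod_cast hk
    have hx0 : (0 : ℝ) ≤ (sb ρ s : ℝ) := Nat.cast_nonneg _
    have hx1 : (2 : ℝ) ≤ (sb ρ s : ℝ) := by exact_mod_cast h2
    have h3 : (sb ρ s : ℝ) * 39 ≤ (sb ρ s : ℝ) * (((Nat.sqrt (2 * sb ρ s) : ℕ) : ℝ) / 6 - 2) :=
      mul_le_mul_of_nonneg_left (by linarith) hx0
    linarith

theorem gJ_B_strict {ρ s : ℕ} (hρ : 2 ^ 22 ≤ ρ) (h1 : ρ ^ 2 ≤ s) (h2 : s ≤ 32 * ρ ^ 2) :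
    kD ρ * ((s : ℝ) * ((s : ℝ) - 1)) + 2 * aL ρ s + 673 * (ρ : ℝ) ^ 2 ≤
      gmin (wJ (e := eP ρ)) s := by
  have hρ1 : 1 ≤ ρ := le_trans (by norm_num) hρ
  have hr : (4194304 : ℝ) ≤ ρ := by exact_mod_cast hρ
  have hs : s ≤ NP ρ := by
    unfold NP
    omega
  have hsb : sb ρ s = s := by
    unfold sb NP
    omega
  have ha := aL_le hρ1 s
  have hk : ρ ≤ Nat.sqrt (2 * sb ρ s) := Nat.le_sqrt'.2 (by omega)
  have h := gJ_ge hρ1 hs (Nat.sqrt (2 * sb ρ s))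
  refine le_trans ?_ h
  have hb := Num4_br hρ1 (Num4_sb ρ s) rfl (le_trans (le_trans (by norm_num) hρ) hk)
  have hk' : (ρ : ℝ) ≤ (Nat.sqrt (2 * sb ρ s) : ℕ) := by exact_mod_cast hk
  have hx0 : (0 : ℝ) ≤ (sb ρ s : ℝ) := Nat.cast_nonneg _
  have h3 : (sb ρ s : ℝ) * 711 ≤ (sb ρ s : ℝ) * (((Nat.sqrt (2 * sb ρ s) : ℕ) : ℝ) / 6 - 2) :=
    mul_le_mul_of_nonneg_left (by linarith) hx0
  have h4 : (ρ : ℝ) ^ 2 ≤ (sb ρ s : ℝ) := by
    rw [hsb]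
    exact_mod_cast h1
  linarith

end Pool.Agent.P.MP_a62d3c_co.FF
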