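import Pool.Agent.P.MP_a62d3c_co.FB.Defs

namespace Pool.Agent.P.MP_a62d3c_co.FF

open Filter Topology Polynomial MeasureTheory Asymptotics
open scoped ComplexConjugate Matrix ComplexOrder

/-- steps of length at most `r` -/
def BRUlt_G {J : Type} (z : J → ℂ) (r : ℝ) : SimpleGraph J where
  Adj i j := i ≠ j ∧ ‖z i - z j‖ ≤ r
  symm := ⟨fun _ _ h => ⟨h.1.symm, by rw [norm_sub_rev]; exact h.2⟩⟩
  loopless := ⟨fun _ h => h.1 rfl⟩

theorem BRUlt_mono {J : Type} (z : J → ℂ) {r r' : ℝ} (h : r ≤ r') : BRUlt_G z r ≤ BRUlt_G z r' :=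
  fun _ _ h' => ⟨h'.1, h'.2.trans h⟩

theorem BRUlt_walk {J : Type} (z : J → ℂ) {r : ℝ} {i j : J} (w : (BRUlt_G z r).Walk i j) :
    ‖z i - z j‖ ≤ w.length * r := by
  induction w with
  | nil => simp
  | @cons a b c h w ih =>
    have h1 := norm_sub_le_norm_sub_add_norm_sub (z a) (z b) (z c)
    have h2 := h.2
    rw [SimpleGraph.Walk.length_cons]
    push_cast
    linarith

/-- Subdominant ultrametric. Let `δ i j` be the least `r` among the finitely many distances such that
`i` and `j` are joined by a chain with steps of length `≤ r` (for example `Relation.ReflTransGen`,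
or reachability in a `SimpleGraph`; a path has fewer than `card J` steps). Put `d = - log δ`. -/
theorem exists_ultra {J : Type} [Fintype J] [DecidableEq J] {z : J → ℂ}
    (hz : Function.Injective z) : ∃ d : J → J → ℝ, UltraR d ∧ Cmp (Fintype.card J) z d := by
  classical
  have h0 : ∀ i j : J, (BRUlt_G z ‖z i - z j‖).Reachable i j := fun i j => by
    by_cases h : i = j
    · rw [h]
    · exact SimpleGraph.Adj.reachable ⟨h, le_rfl⟩
  have h1 : ∀ i j : J, ∃ p : J × J, (BRUlt_G z ‖z p.1 - z p.2‖).Reachable i j ∧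
      ∀ q : J × J, (BRUlt_G z ‖z q.1 - z q.2‖).Reachable i j →
        ‖z p.1 - z p.2‖ ≤ ‖z q.1 - z q.2‖ := fun i j => by
    obtain ⟨p, hp, h⟩ := Finset.exists_min_image
      (Finset.univ.filter fun p : J × J => (BRUlt_G z ‖z p.1 - z p.2‖).Reachable i j)
      (fun p => ‖z p.1 - z p.2‖) ⟨(i, j), Finset.mem_filter.2 ⟨Finset.mem_univ _, h0 i j⟩⟩
    exact ⟨p, (Finset.mem_filter.1 hp).2,
      fun q hq => h q (Finset.mem_filter.2 ⟨Finset.mem_univ _, hq⟩)⟩
  choose p hp hmin using h1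
  have h2 : ∀ i j, ‖z i - z j‖ ≤ Fintype.card J * ‖z (p i j).1 - z (p i j).2‖ := fun i j => by
    obtain ⟨w, hw⟩ := (hp i j).exists_isPath
    refine (BRUlt_walk z w).trans (mul_le_mul_of_nonneg_right ?_ (norm_nonneg _))
    exact_mod_cast hw.length_lt.le
  have h3 : ∀ i j, i ≠ j → 0 < ‖z (p i j).1 - z (p i j).2‖ := fun i j h => by
    have h4 : 0 < ‖z i - z j‖ := norm_pos_iff.2 (sub_ne_zero.2 fun e => h (hz e))
    exact pos_of_mul_pos_right (h4.trans_le (h2 i j)) (Nat.cast_nonneg _)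
  refine ⟨fun i j => -Real.log ‖z (p i j).1 - z (p i j).2‖, ⟨fun i j => ?_, fun i j k a b c => ?_⟩,
    fun i j h => ?_⟩
  · rw [le_antisymm (hmin i j _ (hp j i).symm) (hmin j i _ (hp i j).symm)]
  · rcases le_total ‖z (p i j).1 - z (p i j).2‖ ‖z (p j k).1 - z (p j k).2‖ with h | h
    · refine (min_le_right _ _).trans (neg_le_neg (Real.log_le_log (h3 i k c) ?_))
      exact hmin i k _ (((hp i j).mono (BRUlt_mono z h)).trans (hp j k))
    · refine (min_le_left _ _).trans (neg_le_neg (Real.log_le_log (h3 i k c) ?_))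
      exact hmin i k _ ((hp i j).trans ((hp j k).mono (BRUlt_mono z h)))
  · simp only [neg_neg, Real.exp_log (h3 i j h)]
    exact ⟨hmin i j (i, j) (h0 i j), h2 i j⟩

end Pool.Agent.P.MP_a62d3c_co.FF
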