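import Pool.Agent.P.MP_a62d3c_co.FB.WStep

namespace Pool.Agent.P.MP_a62d3c_co.FF

open Filter Topology Polynomial MeasureTheory Asymptotics
open scoped ComplexConjugate Matrix ComplexOrder

theorem BWSch_nest {κ : Type} [Fintype κ] [DecidableEq κ] {d : κ → κ → ℝ} {n : ℝ}
    {lo len : Finset κ → ℝ} (T : RTree d n id lo len) {S S' : Finset κ} {i : κ} (hi : i ∈ S)
    (hi' : i ∈ S') (hne : S' ≠ S) (hc : S.card ≤ S'.card) (h : len S ≠ 0) (h' : len S' ≠ 0) :
    lo S' + len S' ≤ lo S := by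
  obtain ⟨k, hk', hk⟩ : ∃ k ∈ S', k ∉ S := by
    by_contra hcon
    refine hne (Finset.eq_of_subset_of_card_le (fun k hk => ?_) hc)
    by_contra hk'
    exact hcon ⟨k, hk, hk'⟩
  exact (T.inn S' h' i hi' k hk' fun e => hk (e ▸ hi)).trans (T.out S h i hi k hk)

theorem BWSch_bd {X κ : Type} {C₀ : ℝ} {u : X → κ → ℂ} {d : X → κ → κ → ℝ}
    (hu : ∀ x, Cmp C₀ (u x) (d x)) {i j : κ} {n : X → ℝ} (h : i ≠ j → ∀ x, n x ≤ d x i j) :
    Bw (fun x => u x i - u x j) n := by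
  by_cases hij : i = j
  · subst hij
    exact (bw_zero _).congr fun x => (sub_self _).symm
  · refine Bw.mono ⟨max C₀ 1, lt_max_of_lt_right one_pos, fun x => ?_⟩ (h hij)
    exact (hu x i j hij).2.trans
      (mul_le_mul_of_nonneg_right (le_max_left _ _) (Real.exp_pos _).le)

/-- the steps in one variable, by decreasing size -/
theorem BWSch_sched {X κ : Type} [Fintype κ] [DecidableEq κ] {C₀ : ℝ} {u : X → κ → ℂ}
    {d : X → κ → κ → ℝ} {n : X → ℝ} {lo len : X → Finset κ → ℝ}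
    (hu : ∀ x, Cmp C₀ (u x) (d x)) (T : ∀ x, RTree (d x) (n x) id (lo x) (len x))
    (hE : ∀ S, (∀ x, len x S ≠ 0) ∨ ∀ x, len x S = 0) (c : Finset κ → ℝ)
    (P : (X → κ → ℝ) → (X → ℝ) → Prop)
    (hP : ∀ (l : X → κ → ℝ) (ν : X → ℝ) (S : Finset κ) (hi m : X → ℝ), P l ν → (∀ x, 0 ≤ m x) →
      (∀ x, ∀ i ∈ S, l x i + m x ≤ hi x) →
      (∀ i ∈ S, ∀ j ∈ S, Bw (fun x => u x i - u x j) hi) →
      P (fun x i => if i ∈ S then hi x else l x i) fun x => ν x + m x * c S)
    {ν : X → ℝ} (h : P (fun x _ => n x) ν) (F : Finset (Finset κ)) :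
    ∃ k : X → κ → ℝ,
      (∀ x i, k x i = n x ∨ ∃ S ∈ F, i ∈ S ∧ len x S ≠ 0 ∧ k x i ≤ lo x S + len x S) ∧
      P k fun x => ν x + ∑ S ∈ F, len x S * c S := by
  induction F using Finset.induction_on_min_value (fun S : Finset κ => S.card) with
  | empty => exact ⟨fun x _ => n x, fun x i => Or.inl rfl, by simpa using h⟩
  | insert S F hS hc ih =>
    have hm : ∀ {S'}, S' ∈ F → S' ∈ insert S F := Finset.mem_insert_of_mem
    have hs := Finset.mem_insert_self S F
    obtain ⟨k, hk, h1⟩ := ih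
    rcases hE S with h0 | h0
    · have h2 := hP k _ S (fun x => lo x S + len x S) (fun x => len x S) h1
        (fun x => (T x).len_nonneg S) (fun x i hi => by
          rcases hk x i with e1 | ⟨S', hS', hi', hl', hx⟩
          · have := (T x).lo_ge S (h0 x)
            linarith
          · have := BWSch_nest (T x) hi hi' (fun e => hS (e ▸ hS')) (hc S' hS') (h0 x) hl'
            linarith)
        fun i hi j hj => BWSch_bd hu fun hij x => (T x).inn S (h0 x) i hi j hj hij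
      refine ⟨_, fun x i => ?_, (congrArg (P _) (funext fun x => ?_)).mp h2⟩
      · by_cases hi : i ∈ S
        · exact Or.inr ⟨S, hs, hi, h0 x, by rw [if_pos hi]⟩
        · rw [if_neg hi]
          exact (hk x i).imp id fun ⟨S', hS', hh⟩ => ⟨S', hm hS', hh⟩
      · rw [Finset.sum_insert hS]
        ring
    · refine ⟨k, fun x i => (hk x i).imp id fun ⟨S', hS', hh⟩ => ⟨S', hm hS', hh⟩,
        (congrArg (P _) (funext fun x => ?_)).mp h1⟩
      rw [Finset.sum_insert hS, h0 x, zero_mul, zero_add]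

theorem BWSch_fib {X κ : Type} [Fintype κ] [DecidableEq κ] {e : ℕ} (he : 2 ≤ e) (g : κ ≃ Mb e)
    {C₀ : ℝ} {z w : X → κ → ℂ} {dz dw : X → κ → κ → ℝ} {nz nw : X → ℝ}
    {loz lz low lw : X → Finset κ → ℝ} (hz : ∀ x, Cmp C₀ (z x) (dz x))
    (hw : ∀ x, Cmp C₀ (w x) (dw x)) (Tz : ∀ x, RTree (dz x) (nz x) id (loz x) (lz x))
    (Tw : ∀ x, RTree (dw x) (nw x) id (low x) (lw x))
    (hEz : ∀ S, (∀ x, lz x S ≠ 0) ∨ ∀ x, lz x S = 0)
    (hEw : ∀ S, (∀ x, lw x S ≠ 0) ∨ ∀ x, lw x S = 0) :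
    Bw (fun x => Delta g (z x) (w x)) fun x => sig e * (nz x + nw x) +
      ∑ S : Finset κ, (lz x S * gmin (wZ (e := e)) S.card + lw x S * gmin (wW (e := e)) S.card) := by
  have h0 : ClW g z w (fun x _ => nz x) (fun x _ => nw x) fun x => sig e * (nz x + nw x) :=
    clW_top he g (fun i j => BWSch_bd hz fun hij x => (Tz x).base i j hij)
      fun i j => BWSch_bd hw fun hij x => (Tw x).base i j hij
  obtain ⟨k, -, h1⟩ := BWSch_sched hz Tz hEz (fun S => (gmin (wZ (e := e)) S.card : ℝ))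
    (fun l ν => ClW g z w l (fun x _ => nw x) ν)
    (fun l ν S hi m h hm hl hb => h.stepZ S hi m hm hl hb) h0 Finset.univ
  obtain ⟨k', -, h2⟩ := BWSch_sched hw Tw hEw (fun S => (gmin (wW (e := e)) S.card : ℝ))
    (fun l ν => ClW g z w k l ν)
    (fun l ν S hi m h hm hl hb => h.stepW S hi m hm hl hb) h1 Finset.univ
  refine h2.delta.mono fun x => le_of_eq ?_
  rw [Finset.sum_add_distrib, add_assoc]

/-- all data satisfying the hypotheses of `delta_st` -/
structure BWSch_Dat (κ : Type) [Fintype κ] [DecidableEq κ] (C₀ : ℝ) where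
  z : κ → ℂ
  w : κ → ℂ
  dz : κ → κ → ℝ
  dw : κ → κ → ℝ
  nz : ℝ
  nw : ℝ
  loz : Finset κ → ℝ
  lz : Finset κ → ℝ
  low : Finset κ → ℝ
  lw : Finset κ → ℝ
  hz : Cmp C₀ z dz
  hw : Cmp C₀ w dw
  Tz : RTree dz nz id loz lz
  Tw : RTree dw nw id low lw

/-- Paper B1 (d). Let `X` be the type of all data satisfying the hypotheses; by `Bw.of_fibres` fix the
sets `Ez = {S | lz S ≠ 0}`, `Ew`. Start from `clW_top`, make the Z-steps for `S ∈ Ez` by decreasing size
(`Finset.induction_on_min_value`; invariant and monotonicity as in `Cl.sched`, FF/DSch.lean), then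
the W-steps for `S ∈ Ew`, then `ClW.delta`. -/
theorem delta_st {κ : Type} [Fintype κ] [DecidableEq κ] {e : ℕ} (he : 2 ≤ e) (g : κ ≃ Mb e)
    (C₀ : ℝ) : ∃ K, 0 < K ∧ ∀ (z w : κ → ℂ) (dz dw : κ → κ → ℝ) (nz nw : ℝ)
      (loz lz low lw : Finset κ → ℝ), Cmp C₀ z dz → Cmp C₀ w dw → RTree dz nz id loz lz →
      RTree dw nw id low lw →
      ‖Delta g z w‖ ≤ K * Real.exp (-(sig e * (nz + nw) +
        ∑ S : Finset κ, (lz S * gmin (wZ (e := e)) S.card + lw S * gmin (wW (e := e)) S.card))) := by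
  have h : Bw (fun x : BWSch_Dat κ C₀ => Delta g x.z x.w) fun x => sig e * (x.nz + x.nw) +
      ∑ S : Finset κ, (x.lz S * gmin (wZ (e := e)) S.card + x.lw S * gmin (wW (e := e)) S.card) := by
    refine Bw.of_fibres (Y := (Finset κ → Prop) × (Finset κ → Prop))
      (fun x => (fun S => x.lz S = 0, fun S => x.lw S = 0)) fun y => ?_
    refine BWSch_fib he g (C₀ := C₀) (fun x => x.1.hz) (fun x => x.1.hw) (fun x => x.1.Tz)
      (fun x => x.1.Tw) (fun S => ?_) fun S => ?_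
    · by_cases hy : y.1 S
      · exact Or.inr fun x => (congrFun (congrArg Prod.fst x.2) S).mpr hy
      · exact Or.inl fun x h => hy ((congrFun (congrArg Prod.fst x.2) S).mp h)
    · by_cases hy : y.2 S
      · exact Or.inr fun x => (congrFun (congrArg Prod.snd x.2) S).mpr hy
      · exact Or.inl fun x h => hy ((congrFun (congrArg Prod.snd x.2) S).mp h)
  obtain ⟨K, hK, h⟩ := h
  exact ⟨K, hK, fun z w dz dw nz nw loz lz low lw hz hw Tz Tw =>
    h ⟨z, w, dz, dw, nz, nw, loz, lz, low, lw, hz, hw, Tz, Tw⟩⟩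

end Pool.Agent.P.MP_a62d3c_co.FF
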