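import Pool.Agent.P.MP_a62d3c_co.FB.HTs
import Pool.Agent.P.MP_a62d3c_co.FB.WSch
import Pool.Agent.P.MP_a62d3c_co.FB.RUlt
import Pool.Agent.P.MP_a62d3c_co.FB.Num5
import Pool.Agent.P.MP_a62d3c_co.FF.LocC

namespace Pool.Agent.P.MP_a62d3c_co.FF

open Filter Topology Polynomial MeasureTheory Asymptotics
open scoped ComplexConjugate Matrix ComplexOrder

theorem BUnif_ld {κ : Type} [Fintype κ] [DecidableEq κ] (I : Finset (Option κ)) {z τ : κ → ℂ}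
    {L : ℝ} (h : ∀ r ∈ Q4 κ, ‖ld z τ r‖ ≤ L) :
    ∀ r ∈ Q4 I.eraseNone, ‖ld (rs I z) (rs I τ) r‖ ≤ L := by
  intro r hr
  have h1 : ((r.1.1.1, r.1.2.1), (r.2.1.1, r.2.2.1)) ∈ Q4 κ := by
    unfold Q4 at hr ⊢
    simp only [Finset.mem_product, Finset.mem_offDiag, Finset.mem_univ, true_and] at hr ⊢
    exact ⟨fun e => hr.1 (Subtype.ext e), fun e => hr.2 (Subtype.ext e)⟩
  exact h _ h1

theorem BUnif_cmp {κ : Type} [DecidableEq κ] (I : Finset (Option κ)) {C₀ : ℝ} {z : κ → ℂ}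
    {d : κ → κ → ℝ} (h : Cmp C₀ z d) :
    Cmp C₀ (rs I z) fun i j : I.eraseNone => d i.1 j.1 :=
  fun i j hij => h i.1 j.1 fun e => hij (Subtype.ext e)

/-- `ht_st` summed over the subsets -/
theorem BUnif_HT {κ : Type} [Fintype κ] [DecidableEq κ] {ρ : ℕ} (hρ : 1 ≤ ρ) {C₀ : ℝ}
    (hC : 1 ≤ C₀) {η : ℝ} (hη : 0 < η) :
    ∃ K, ∀ (π : Pivs κ ρ) (z τ : κ → ℂ) (d : κ → κ → ℝ) (n : ℝ) (lo l : Finset κ → ℝ) (L : ℝ),
      Cmp C₀ z d → RTree d n id lo l →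
      (∀ I ∈ II κ ρ, Valid (theta (pP ρ) (qP ρ) (rs I z) (rs I τ)) (π I)) → 0 < L →
      (∀ r ∈ Q4 κ, ‖ld z τ r‖ ≤ L) →
      ∑ I ∈ II κ ρ, HT ρ (rs I z) (rs I τ) (π I) ≤
        K + 2 * (∑ I ∈ II κ ρ, ((π I).r : ℝ)) * Real.log L -
          2 * ∑ S : Finset κ, l S * ∑ I ∈ II κ ρ,
            gA ρ (S.map Function.Embedding.some ∩ I).card +
          (II κ ρ).card * η * ∑ S, l S := by
  have key : ∀ I : Finset (Option κ), ∃ K, I ∈ II κ ρ → ∀ (π : Piv (pP ρ) (qP ρ)) (z τ : κ → ℂ)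
      (d : κ → κ → ℝ) (n : ℝ) (lo l : Finset κ → ℝ) (L : ℝ), Cmp C₀ z d → RTree d n id lo l →
      Valid (theta (pP ρ) (qP ρ) (rs I z) (rs I τ)) π → 0 < L → (∀ r ∈ Q4 κ, ‖ld z τ r‖ ≤ L) →
      HT ρ (rs I z) (rs I τ) π ≤ K + 2 * π.r * Real.log L -
        2 * ∑ S : Finset κ, l S * gA ρ (S.map Function.Embedding.some ∩ I).card +
        η * ∑ S, l S := by
    intro I
    by_cases hI : I ∈ II κ ρ
    · obtain ⟨K, hK⟩ := ht_st (U := Finset κ) hρ (card_eraseNone hI) hC hη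
      refine ⟨K, fun _ π z τ d n lo l L h1 T h2 hL h3 => ?_⟩
      have := hK (rs I z) (rs I τ) π _ n _ lo l L (BUnif_cmp I h1) (T.restrict I.eraseNone) h2 hL
        (BUnif_ld I h3)
      simp only [id, LocC_card] at this
      exact this
    · exact ⟨0, fun h => absurd h hI⟩
  choose K hK using key
  refine ⟨∑ I ∈ II κ ρ, K I, fun π z τ d n lo l L h1 T h2 hL h3 => ?_⟩
  refine (Finset.sum_le_sum fun I hI =>
    hK I hI (π I) z τ d n lo l L h1 T (h2 I hI) hL h3).trans (le_of_eq ?_)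
  rw [Finset.sum_add_distrib, Finset.sum_sub_distrib, Finset.sum_add_distrib, ← Finset.sum_mul,
    ← Finset.mul_sum, ← Finset.mul_sum, Finset.sum_const, nsmul_eq_mul, Finset.sum_comm]
  simp only [Finset.mul_sum, mul_assoc]

/-- the gain per unit of length -/
theorem BUnif_edge {κ : Type} [Fintype κ] [DecidableEq κ] {ρ : ℕ} (hρ : 2 ^ 22 ≤ ρ)
    (hN : Fintype.card κ + 1 = NP ρ) {S : Finset κ} (h2 : 2 ≤ S.card) (hS : S ≠ Finset.univ)
    {G : ℝ} (hG : kD ρ * ((S.card : ℝ) * ((S.card : ℝ) - 1) / 2) - bL ρ S.card ≤ G) :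
    2 / (5 * (ρ : ℝ)) ≤ 2 * G - kD ρ * ((S.card : ℝ) * ((S.card : ℝ) - 1)) +
      2 * (yC ρ * ∑ I ∈ II κ ρ, gA ρ (S.map Function.Embedding.some ∩ I).card) := by
  have hy : 0 ≤ yC ρ := by unfold yC; positivity
  have hlt : S.card < Fintype.card κ := (Finset.card_lt_iff_ne_univ S).2 hS
  have hT : 2 ≤ sb ρ (S.map Function.Embedding.some).card := by
    rw [Finset.card_map]; unfold sb; omega
  have h1 := avg_H2_strict (α := Option κ) (ρ := ρ) (le_trans (by norm_num) hρ)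
    (by rw [Fintype.card_option]; exact hN) (S.map Function.Embedding.some) hT
  rw [Finset.card_map] at h1
  have h3 : ∑ I ∈ II κ ρ, H2 ρ (S.map Function.Embedding.some ∩ I).card ≤
      2 * ∑ I ∈ II κ ρ, gA ρ (S.map Function.Embedding.some ∩ I).card := by
    rw [Finset.mul_sum]
    refine Finset.sum_le_sum fun I hI => H2_le_gA (le_trans (by norm_num) hρ) ?_
    have : I.card = mP ρ := (Finset.mem_powersetCard.1 hI).2
    rw [← this]
    exact Finset.card_le_card Finset.inter_subset_right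
  have h4 := mul_le_mul_of_nonneg_left h3 hy
  unfold II at h4 ⊢
  linarith

/-- the gains summed over the edges of one tree -/
theorem BUnif_sum {κ : Type} [Fintype κ] [DecidableEq κ] {ρ : ℕ} (hρ : 2 ^ 22 ≤ ρ)
    (hN : Fintype.card κ + 1 = NP ρ) {l : Finset κ → ℝ} (h0 : ∀ S, 0 ≤ l S)
    (h1 : ∀ S, l S ≠ 0 → 2 ≤ S.card ∧ S ≠ Finset.univ) {G : ℕ → ℝ}
    (hG : ∀ s ≤ NP ρ, kD ρ * ((s : ℝ) * ((s : ℝ) - 1) / 2) - bL ρ s ≤ G s) :
    2 / (5 * (ρ : ℝ)) * ∑ S, l S ≤ 2 * ∑ S : Finset κ, l S * G S.card -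
      kD ρ * ∑ S : Finset κ, l S * ((S.card : ℝ) * ((S.card : ℝ) - 1)) +
      2 * (yC ρ * ∑ S : Finset κ, l S *
        ∑ I ∈ II κ ρ, gA ρ (S.map Function.Embedding.some ∩ I).card) := by
  rw [Finset.mul_sum, Finset.mul_sum, Finset.mul_sum, Finset.mul_sum, Finset.mul_sum,
    ← Finset.sum_sub_distrib, ← Finset.sum_add_distrib]
  refine Finset.sum_le_sum fun S _ => ?_
  by_cases h : l S = 0
  · rw [h]; simp
  · obtain ⟨a, b⟩ := h1 S h
    have hs : S.card ≤ NP ρ := by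
      have := Finset.card_le_univ S
      omega
    have := mul_le_mul_of_nonneg_left (BUnif_edge hρ hN a b (hG _ hs)) (h0 S)
    linarith

/-- Paper B1. `exists_ultra`, `exists_rtree` for `z` and `w` (`C₀ = card κ`), `delta_st`, `ht_st` for
each `I` (restrict with `RTree.restrict`; the constant is the sum over the finitely many `I`; compare
`loc_core` in FF/LocC.lean for the bookkeeping), `Cmp.lsum`, `RTree.sum_d`, `kD_choose`; per unit of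
length of an edge the gain is `gZ - kD C(s,2) + y avg gA ≥ 1 / (5 ρ)` (`gZ_ge`, `gW_ge`, `H2_le_gA`,
`avg_H2_strict`; edges have `2 ≤ |S| ≤ N - 2`); choose `η` with `21 ρ η ≤ 1 / (5 ρ)`; `Cmp.qs`. -/
theorem unif {κ : Type} [Fintype κ] [DecidableEq κ] {ρ : ℕ} (hρ : 2 ^ 22 ≤ ρ)
    (g : κ ≃ Mb (eP ρ)) : ∃ ε > (0 : ℝ), ∃ K, ∀ (πz πw : Pivs κ ρ) (z τ w τ' : κ → ℂ) (L : ℝ),
      Good ρ g πz πw z τ w τ' → 0 < L → (∀ r ∈ Q4 κ, ‖ld z τ r‖ ≤ L ∧ ‖ld w τ' r‖ ≤ L) →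
      Uf ρ g πz πw z τ w τ' ≤ K + 2 * rk ρ πz πw * Real.log L - ε * (Qs z + Qs w) := by
  have hρ1 : 1 ≤ ρ := le_trans (by norm_num) hρ
  have hρR : (0 : ℝ) < ρ := by exact_mod_cast hρ1
  have hN := card_kappa hρ1 g
  have h2 : 2 ≤ Fintype.card κ := by
    have : 1 ≤ ρ ^ 2 := Nat.one_le_pow _ _ hρ1
    unfold NP at hN
    omega
  have hC : (1 : ℝ) ≤ Fintype.card κ := by exact_mod_cast (by omega : 1 ≤ Fintype.card κ)
  have hy : 0 ≤ yC ρ := by unfold yC; positivity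
  have hk : 0 ≤ kD ρ := Num4_kD_nonneg ρ
  have hM : (0 : ℝ) ≤ yC ρ * (II κ ρ).card := by positivity
  obtain ⟨η, hη0, hη1⟩ : ∃ η : ℝ, 0 < η ∧ yC ρ * ((II κ ρ).card * η) ≤ 1 / (5 * (ρ : ℝ)) := by
    refine ⟨1 / (5 * (ρ : ℝ)) / (yC ρ * (II κ ρ).card + 1), by positivity, ?_⟩
    rw [← mul_assoc, ← mul_div_assoc, div_le_iff₀ (by positivity)]
    have : (0 : ℝ) < 1 / (5 * (ρ : ℝ)) := by positivity
    nlinarith
  obtain ⟨K1, hK1⟩ := BUnif_HT (κ := κ) hρ1 hC hη0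
  obtain ⟨K2, hK20, hK2⟩ := delta_st (by unfold eP; omega) g (Fintype.card κ)
  have hn4 : (0 : ℝ) < (Fintype.card κ : ℝ) ^ 4 := by positivity
  refine ⟨1 / (5 * (ρ : ℝ)) / (Fintype.card κ : ℝ) ^ 4, by positivity,
    2 * Real.log K2 + yC ρ * (2 * K1) + 2 * (1 / (5 * (ρ : ℝ)) * Real.log (Fintype.card κ)),
    fun πz πw z τ w τ' L hG hL hr => ?_⟩
  obtain ⟨dz, uz, cz⟩ := exists_ultra hG.1
  obtain ⟨dw, uw, cw⟩ := exists_ultra hG.2.1
  obtain ⟨nz, loz, lz, Tz, ez⟩ := exists_rtree uz h2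
  obtain ⟨nw, low, lw, Tw, ew⟩ := exists_rtree uw h2
  have a1 := hK1 πz z τ dz nz loz lz L cz Tz (fun I hI => (hG.2.2.2 I hI).1) hL
    fun r h => (hr r h).1
  have a2 := hK1 πw w τ' dw nw low lw L cw Tw (fun I hI => (hG.2.2.2 I hI).2) hL
    fun r h => (hr r h).2
  have a3 := Real.log_le_log (norm_pos_iff.2 hG.2.2.1) (hK2 z w dz dw nz nw loz lz low lw cz cw Tz Tw)
  rw [Real.log_mul hK20.ne' (Real.exp_pos _).ne', Real.log_exp, Finset.sum_add_distrib] at a3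
  have a4 := mul_le_mul_of_nonneg_left (cz.lsum hC).1 hk
  have a5 := mul_le_mul_of_nonneg_left (cw.lsum hC).1 hk
  rw [Tz.sum_d] at a4
  rw [Tw.sum_d] at a5
  have a6 := BUnif_sum hρ hN Tz.len_nonneg ez (G := fun s => gmin (wZ (e := eP ρ)) s)
    fun s hs => gZ_ge hρ1 hs
  have a7 := BUnif_sum hρ hN Tw.len_nonneg ew (G := fun s => gmin (wW (e := eP ρ)) s)
    fun s hs => gW_ge hρ1 hs
  have hΛz : 0 ≤ ∑ S, lz S := Finset.sum_nonneg fun S _ => Tz.len_nonneg S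
  have hΛw : 0 ≤ ∑ S, lw S := Finset.sum_nonneg fun S _ => Tw.len_nonneg S
  have a8 := mul_le_mul_of_nonneg_right hη1 hΛz
  have a9 := mul_le_mul_of_nonneg_right hη1 hΛw
  have hq : ∀ {Q Λ : ℝ}, Q ≤ (Fintype.card κ : ℝ) ^ 4 * (Λ + Real.log (Fintype.card κ)) →
      1 / (5 * (ρ : ℝ)) / (Fintype.card κ : ℝ) ^ 4 * Q ≤
        1 / (5 * (ρ : ℝ)) * Λ + 1 / (5 * (ρ : ℝ)) * Real.log (Fintype.card κ) := by
    intro Q Λ h
    refine (mul_le_mul_of_nonneg_left h (by positivity)).trans (le_of_eq ?_)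
    field_simp
  have b1 := hq (cz.qs hC Tz)
  have b2 := hq (cw.qs hC Tw)
  have b3 := mul_le_mul_of_nonneg_left (add_le_add a1 a2) hy
  have hc : (Fintype.card κ : ℝ) = 64 * (ρ : ℝ) ^ 2 - 1 := by
    have := congrArg (Nat.cast : ℕ → ℝ) hN
    unfold NP at this
    push_cast at this
    linarith
  have hs : kD ρ * ((Fintype.card κ : ℝ) * ((Fintype.card κ : ℝ) - 1)) = 2 * sig (eP ρ) := by
    rw [← kD_choose ρ, hc]; ring
  have b4 : rk ρ πz πw =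
      yC ρ * (∑ I ∈ II κ ρ, ((πz I).r : ℝ) + ∑ I ∈ II κ ρ, ((πw I).r : ℝ)) := by
    unfold rk
    rw [Finset.sum_add_distrib]
  have b5 : 2 / (5 * (ρ : ℝ)) = 2 * (1 / (5 * (ρ : ℝ))) := by ring
  have b6 : kD ρ * (nz * ((Fintype.card κ : ℝ) * ((Fintype.card κ : ℝ) - 1))) =
      2 * sig (eP ρ) * nz := by rw [← hs]; ring
  have b7 : kD ρ * (nw * ((Fintype.card κ : ℝ) * ((Fintype.card κ : ℝ) - 1))) =
      2 * sig (eP ρ) * nw := by rw [← hs]; ring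
  rw [b5] at a6 a7
  unfold Uf
  rw [b4, Finset.sum_add_distrib]
  simp only [id] at a4 a5
  linarith

end Pool.Agent.P.MP_a62d3c_co.FF
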