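import Pool.Agent.P.MP_a62d3c_co.FB.Defs
import Pool.Agent.P.MP_a62d3c_co.FF.Lap

namespace Pool.Agent.P.MP_a62d3c_co.FF

open Filter Topology Polynomial MeasureTheory Asymptotics
open scoped ComplexConjugate Matrix ComplexOrder

theorem BVLap_cosh_le (y : ℝ) : Real.cosh y ≤ Real.exp |y| := by
  rw [Real.cosh_eq]
  have h1 := Real.exp_le_exp.2 (le_abs_self y)
  have h2 := Real.exp_le_exp.2 (neg_le_abs y)
  linarith

theorem BVLap_taylor {a : ℝ} (ha : 0 < a) (s₀ : ℝ) {η : ℝ} (hη : 0 < η) :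
    ∀ᶠ u in 𝓝 (0 : ℝ), Real.log (2 * Real.cosh (a * s₀)) +
      a * (Real.sinh (a * s₀) / Real.cosh (a * s₀)) * u +
        (a ^ 2 / 2 * Real.exp (-2 * a * |s₀|) - η) * u ^ 2 ≤
      Real.log (2 * Real.cosh (a * (s₀ + u))) := by
  set c := a * (Real.sinh (a * s₀) / Real.cosh (a * s₀)) with hc
  set K := a ^ 2 / 2 * Real.exp (-2 * a * |s₀|) - η with hK
  have h0 : ∀ u : ℝ, HasDerivAt (fun u : ℝ => a * (s₀ + u)) a u := fun u => by
    simpa using ((hasDerivAt_id' u).const_add s₀).const_mul a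
  have h1 : ∀ u : ℝ, HasDerivAt
      (fun u : ℝ => Real.log (2 * Real.cosh (a * (s₀ + u))) - c * u - K * u ^ 2)
      (a * (Real.sinh (a * (s₀ + u)) / Real.cosh (a * (s₀ + u))) - c - K * (2 * u)) u := by
    intro u
    have hp := Real.cosh_pos (a * (s₀ + u))
    refine (((((h0 u).cosh.const_mul 2).log (by positivity)).sub
      ((hasDerivAt_id' u).const_mul c)).sub ((hasDerivAt_pow 2 u).const_mul K)).congr_deriv ?_
    field_simp
    ring
  have h2 : HasDerivAt (fun u : ℝ =>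
      a * (Real.sinh (a * (s₀ + u)) / Real.cosh (a * (s₀ + u))) - c - K * (2 * u))
      (a ^ 2 / Real.cosh (a * s₀) ^ 2 - 2 * K) 0 := by
    have hp := Real.cosh_pos (a * (s₀ + 0))
    refine ((((((h0 0).sinh.div (h0 0).cosh hp.ne').const_mul a).sub_const c).sub
      (((hasDerivAt_id' (0 : ℝ)).const_mul 2).const_mul K))).congr_deriv ?_
    rw [add_zero] at hp ⊢
    have := Real.cosh_sq (a * s₀)
    field_simp
    linear_combination a ^ 2 * this
  have h3 : Real.exp (-2 * a * |s₀|) ≤ 1 / Real.cosh (a * s₀) ^ 2 := by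
    have hp := Real.cosh_pos (a * s₀)
    have e1 := pow_le_pow_left₀ hp.le (BVLap_cosh_le (a * s₀)) 2
    rw [← Real.exp_nat_mul, abs_mul, abs_of_pos ha] at e1
    rw [show -2 * a * |s₀| = -((2 : ℕ) * (a * |s₀|)) by push_cast; ring, Real.exp_neg, one_div]
    exact inv_anti₀ (by positivity) e1
  have h4 := isLocalMin_of_deriv_deriv_pos
    (f := fun u : ℝ => Real.log (2 * Real.cosh (a * (s₀ + u))) - c * u - K * u ^ 2) (x₀ := 0)
    (by
      rw [funext fun u => (h1 u).deriv, h2.deriv]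
      have := mul_le_mul_of_nonneg_left h3 (sq_nonneg a)
      rw [mul_one_div] at this
      linarith)
    (by rw [(h1 0).deriv, add_zero, ← hc]; ring) (h1 0).continuousAt
  refine h4.mono fun u hu => ?_
  simp only [add_zero, mul_zero, sub_zero, ne_eq, OfNat.ofNat_ne_zero, not_false_eq_true,
    zero_pow] at hu
  linarith

/-- `F s = log (2 cosh (a s))`, `s = s₀ + re (g t)`. Taylor: `F s ≥ F s₀ + F' s₀ (s - s₀) + F'' s₀ / 2
(s - s₀)² - o((s - s₀)²)`, `F'' = a² / cosh²(a s₀) ≥ a² exp (-2 a |s₀|)`; `(re g)² = re (g²) / 2 + |g|² / 2`,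
`|g t|² = |g' t₀|² |t - t₀|² + o(|t - t₀|²)`. Use `LapGe.of_le` with `re` of
`F s₀ + F' g + F'' / 4 g²` (`lapGe_re`). -/
theorem cosh_lap {g : ℂ → ℂ} {t₀ : ℂ} (hg : AnalyticAt ℂ g t₀) (h0 : g t₀ = 0) {a : ℝ}
    (ha : 0 < a) (s₀ : ℝ) :
    LapGe (fun t => Real.log (2 * Real.cosh (a * (s₀ + (g t).re))) -
      a ^ 2 / 4 * Real.exp (-2 * a * |s₀|) * ‖deriv g t₀‖ ^ 2 * ‖t - t₀‖ ^ 2) t₀ := by
  set K := a ^ 2 / 4 * Real.exp (-2 * a * |s₀|) with hK
  have hK0 : 0 < K := by positivity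
  have hh : AnalyticAt ℂ (fun t => ((Real.log (2 * Real.cosh (a * s₀)) : ℝ) : ℂ) +
      ((a * (Real.sinh (a * s₀) / Real.cosh (a * s₀)) : ℝ) : ℂ) * g t + (K : ℂ) * g t ^ 2) t₀ :=
    (analyticAt_const.add (analyticAt_const.mul hg)).add (analyticAt_const.mul (hg.pow 2))
  refine (lapGe_re hh).of_le (by simp [h0]) fun η hη => ?_
  set D := ‖deriv g t₀‖ ^ 2 with hD
  have hD0 : 0 ≤ D := sq_nonneg _
  have c1 : Tendsto (fun t => (g t).re) (𝓝 t₀) (𝓝 0) := by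
    simpa [h0, Function.comp_def] using
      (Complex.continuous_re.continuousAt.comp hg.continuousAt).tendsto
  have c2 : Tendsto (fun t => ‖dslope g t₀ t‖ ^ 2) (𝓝 t₀) (𝓝 D) := by
    have := (continuousAt_dslope_same.2 hg.differentiableAt).tendsto
    rw [dslope_same] at this
    exact this.norm.pow 2
  filter_upwards [c1.eventually (BVLap_taylor ha s₀ (η := η / (2 * (D + 1))) (by positivity)),
    c2.eventually (gt_mem_nhds (lt_add_one D)),
    c2.eventually (lt_mem_nhds (show D - η / (2 * K) < D from sub_lt_self _ (by positivity)))]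
    with t h1 h2 h3
  have e1 : ‖g t‖ ^ 2 = ‖t - t₀‖ ^ 2 * ‖dslope g t₀ t‖ ^ 2 := by
    have := sub_smul_dslope g t₀ t
    rw [h0, sub_zero] at this
    rw [← this, norm_smul, mul_pow]
  have e2 : ‖g t‖ ^ 2 = (g t).re ^ 2 + (g t).im ^ 2 := by
    rw [Complex.sq_norm, Complex.normSq_apply]; ring
  have e3 : (g t ^ 2).re = (g t).re ^ 2 - (g t).im ^ 2 := by
    rw [sq, Complex.mul_re]; ring
  have hn := sq_nonneg ‖t - t₀‖
  have f1 : η / (2 * (D + 1)) * (g t).re ^ 2 ≤ η / 2 * ‖t - t₀‖ ^ 2 := by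
    have : (g t).re ^ 2 ≤ ‖t - t₀‖ ^ 2 * (D + 1) := by
      nlinarith [mul_le_mul_of_nonneg_left h2.le hn, sq_nonneg (g t).im]
    refine (mul_le_mul_of_nonneg_left this (by positivity)).trans (le_of_eq ?_)
    field_simp
  have f2 : K * D * ‖t - t₀‖ ^ 2 ≤ K * ‖g t‖ ^ 2 + η / 2 * ‖t - t₀‖ ^ 2 := by
    have := mul_le_mul_of_nonneg_left (mul_le_mul_of_nonneg_left h3.le hn) hK0.le
    have e4 : K * (‖t - t₀‖ ^ 2 * (D - η / (2 * K))) =
        K * D * ‖t - t₀‖ ^ 2 - η / 2 * ‖t - t₀‖ ^ 2 := by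
      field_simp
    rw [e1]
    linarith
  have e5 : a ^ 2 / 2 * Real.exp (-2 * a * |s₀|) = 2 * K := by rw [hK]; ring
  rw [e5] at h1
  rw [Complex.add_re, Complex.add_re, Complex.ofReal_re, Complex.re_ofReal_mul,
    Complex.re_ofReal_mul, e3]
  rw [e2] at f2
  linarith

variable {J : Type} [Fintype J] [DecidableEq J]

theorem Vf_le {a : ℝ} (ha : 0 ≤ a) (z : J → ℂ) :
    Vf a z ≤ (Q4 J).card * Real.log 2 + a * Qs z := by
  rw [Vf, Qs, Finset.mul_sum, ← nsmul_eq_mul, ← Finset.sum_const, ← Finset.sum_add_distrib]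
  refine Finset.sum_le_sum fun p _ => ?_
  have hp := Real.cosh_pos (a * lr z p)
  have h := Real.log_le_log hp (BVLap_cosh_le (a * lr z p))
  rw [Real.log_exp, abs_mul, abs_of_nonneg ha] at h
  rw [Real.log_mul two_ne_zero hp.ne']
  linarith

theorem Qs_nonneg (z : J → ℂ) : 0 ≤ Qs z := Finset.sum_nonneg fun _ _ => abs_nonneg _

theorem BVLap_log {u : ℂ → ℂ} {t₀ : ℂ} (hu : AnalyticAt ℂ u t₀) (h0 : u t₀ ≠ 0) :
    ∃ g : ℂ → ℂ, AnalyticAt ℂ g t₀ ∧ g t₀ = 0 ∧ HasDerivAt g (deriv u t₀ / u t₀) t₀ ∧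
      ∀ᶠ t in 𝓝 t₀, (g t).re = Real.log ‖u t‖ - Real.log ‖u t₀‖ := by
  have hs : u t₀ / u t₀ ∈ Complex.slitPlane := by simp [div_self h0]
  refine ⟨fun t => Complex.log (u t / u t₀), (hu.div analyticAt_const h0).clog hs,
    by simp [div_self h0], ?_, (hu.continuousAt.eventually_ne h0).mono fun t ht => ?_⟩
  · refine ((hu.differentiableAt.hasDerivAt.div_const (u t₀)).clog hs).congr_deriv ?_
    rw [div_self h0, div_one]
  · rw [Complex.log_re, norm_div, Real.log_div (norm_ne_zero_iff.2 ht) (norm_ne_zero_iff.2 h0)]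

omit [Fintype J] [DecidableEq J] in
theorem BVLap_pair {z : ℂ → J → ℂ} {t₀ : ℂ} (hz : ∀ j, AnalyticAt ℂ (fun t => z t j) t₀)
    (hi : Function.Injective (z t₀)) {i j : J} (hij : i ≠ j) :
    ∃ g : ℂ → ℂ, AnalyticAt ℂ g t₀ ∧ g t₀ = 0 ∧
      HasDerivAt g ((dz z t₀ i - dz z t₀ j) / (z t₀ i - z t₀ j)) t₀ ∧
      ∀ᶠ t in 𝓝 t₀, (g t).re = Real.log ‖z t i - z t j‖ - Real.log ‖z t₀ i - z t₀ j‖ := by
  obtain ⟨g, h1, h2, h3, h4⟩ := BVLap_log (u := fun t => z t i - z t j) ((hz i).sub (hz j))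
    (sub_ne_zero.2 (hi.ne hij))
  refine ⟨g, h1, h2, h3.congr_deriv ?_, h4⟩
  rw [deriv_fun_sub (hz i).differentiableAt (hz j).differentiableAt]
  rfl

theorem BVLap_one {z : ℂ → J → ℂ} {t₀ : ℂ} (hz : ∀ j, AnalyticAt ℂ (fun t => z t j) t₀)
    (hi : Function.Injective (z t₀)) {a : ℝ} (ha : 0 < a) {r : (J × J) × (J × J)}
    (hr : r ∈ Q4 J) :
    ContinuousAt (fun t => Real.log (2 * Real.cosh (a * lr (z t) r))) t₀ ∧
      ∀ c : ℝ, c ≤ a ^ 2 / 4 * Real.exp (-2 * a * |lr (z t₀) r|) * ‖ld (z t₀) (dz z t₀) r‖ ^ 2 →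
        LapGe (fun t => Real.log (2 * Real.cosh (a * lr (z t) r)) - c * ‖t - t₀‖ ^ 2) t₀ := by
  obtain ⟨r1, r2⟩ := Finset.mem_product.1 hr
  obtain ⟨g, a1, a2, a3, a4⟩ := BVLap_pair hz hi (Finset.mem_offDiag.1 r1).2.2
  obtain ⟨g', b1, b2, b3, b4⟩ := BVLap_pair hz hi (Finset.mem_offDiag.1 r2).2.2
  have e : ∀ᶠ t in 𝓝 t₀, lr (z t₀) r + (g t - g' t).re = lr (z t) r := by
    filter_upwards [a4, b4] with t h1 h2
    rw [Complex.sub_re, h1, h2, lr, lr]
    ring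
  have hd : deriv (fun t => g t - g' t) t₀ = ld (z t₀) (dz z t₀) r := (a3.sub b3).deriv
  have h := cosh_lap (g := fun t => g t - g' t) (a1.sub b1) (by rw [a2, b2, sub_zero]) ha
    (lr (z t₀) r)
  rw [hd] at h
  constructor
  · have c1 : ContinuousAt (fun t => lr (z t₀) r + (g t - g' t).re) t₀ :=
      continuousAt_const.add
        (Complex.continuous_re.continuousAt.comp (a1.continuousAt.sub b1.continuousAt))
    have c2 : ContinuousAt (fun t => lr (z t) r) t₀ := c1.congr e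
    exact (continuousAt_const.mul (Real.continuous_cosh.continuousAt.comp
      (continuousAt_const.mul c2))).log (mul_pos two_pos (Real.cosh_pos _)).ne'
  · intro c hc
    refine h.of_le (by simp [a2, b2]) fun η hη => e.mono fun t ht => ?_
    have h1 := mul_le_mul_of_nonneg_right hc (sq_nonneg ‖t - t₀‖)
    have h2 := mul_nonneg hη.le (sq_nonneg ‖t - t₀‖)
    rw [ht]
    linarith

/-- near `t₀`, `lr (z t) r = lr (z t₀) r + re (g t)` with `g = log (φ t / φ t₀)`,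
`deriv g t₀ = ld (z t₀) (dz z t₀) r` -/
theorem v_lap {z : ℂ → J → ℂ} {t₀ : ℂ} (hz : ∀ j, AnalyticAt ℂ (fun t => z t j) t₀)
    (hi : Function.Injective (z t₀)) {a : ℝ} (ha : 0 < a) :
    ContinuousAt (fun t => Vf a (z t)) t₀ ∧ LapGe (fun t => Vf a (z t)) t₀ ∧
      ∀ r ∈ Q4 J, LapGe (fun t => Vf a (z t) - a ^ 2 / 4 * Real.exp (-2 * a * Qs (z t₀)) *
        ‖ld (z t₀) (dz z t₀) r‖ ^ 2 * ‖t - t₀‖ ^ 2) t₀ := by
  have h0 : ∀ r ∈ Q4 J, LapGe (fun t => Real.log (2 * Real.cosh (a * lr (z t) r))) t₀ :=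
    fun r hr => by simpa using (BVLap_one hz hi ha hr).2 0 (by positivity)
  refine ⟨?_, LapGe.sum h0, fun r hr => ?_⟩
  · exact tendsto_finsetSum _ fun r hr => (BVLap_one hz hi ha hr).1
  · have h1 : |lr (z t₀) r| ≤ Qs (z t₀) :=
      Finset.single_le_sum (f := fun p => |lr (z t₀) p|) (fun _ _ => abs_nonneg _) hr
    have h2 := (BVLap_one hz hi ha hr).2
      (a ^ 2 / 4 * Real.exp (-2 * a * Qs (z t₀)) * ‖ld (z t₀) (dz z t₀) r‖ ^ 2)
      (mul_le_mul_of_nonneg_right (mul_le_mul_of_nonneg_left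
        (Real.exp_le_exp.2 (by nlinarith)) (by positivity)) (sq_nonneg _))
    refine (h2.add (LapGe.sum (A := (Q4 J).erase r)
      fun p hp => h0 p (Finset.mem_of_mem_erase hp))).congr (Eventually.of_forall fun t => ?_)
    rw [Vf, ← Finset.add_sum_erase _ _ hr]
    ring

end Pool.Agent.P.MP_a62d3c_co.FF
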