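import Pool.Agent.P.MP_a62d3c_co.FB.MGen
import Pool.Agent.P.MP_a62d3c_co.FB.Unif
import Pool.Agent.P.MP_a62d3c_co.FB.LocS
import Pool.Agent.P.MP_a62d3c_co.FB.VLap
import Pool.Agent.P.MP_a62d3c_co.FB.AS
import Pool.Agent.P.MP_a62d3c_co.FF.Core

namespace Pool.Agent.P.MP_a62d3c_co.FF

open Filter Topology Polynomial MeasureTheory Asymptotics
open scoped ComplexConjugate Matrix ComplexOrder

variable {κ : Type} [Fintype κ] [DecidableEq κ] {ρ : ℕ}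

/-- the value of `W = U + V` at a point of the curve -/
noncomputable def MC_V (ρ : ℕ) (g : κ ≃ Mb (eP ρ)) (πz πw : Pivs κ ρ) (F : MFam κ) (a : ℝ)
    (t δ : ℂ) : ℝ :=
  Uf ρ g πz πw (F.z t δ) (F.τ t δ) (F.z t (-δ)) (F.τ t (-δ)) + Vf a (F.z t δ) + Vf a (F.z t (-δ))

/-- the genericity statement -/
def MC_G (ρ : ℕ) (g : κ ≃ Mb (eP ρ)) (πz πw : Pivs κ ρ) (F : MFam κ) (Z : Set ℂ) : Prop :=
  Disc Z ∧ F.Z ⊆ Z ∧ ∀ t, t ∉ Z → ∀ δ, RtM F.D t δ →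
    δ ≠ 0 ∧ Good ρ g πz πw (F.z t δ) (F.τ t δ) (F.z t (-δ)) (F.τ t (-δ))

variable {g : κ ≃ Mb (eP ρ)} {πz πw : Pivs κ ρ} {F : MFam κ} {Z : Set ℂ}

/-- pointwise bound for `exp (W / R)` -/
theorem MC_pt (hρ : 2 ^ 22 ≤ ρ) (g : κ ≃ Mb (eP ρ)) (πz πw : Pivs κ ρ) (hr : 0 < rk ρ πz πw) :
    ∃ a c : ℝ, 0 < a ∧ a ≤ aOne ρ ∧ 0 < c ∧ ∀ z τ w τ' : κ → ℂ, Good ρ g πz πw z τ w τ' →
      ∃ r ∈ Q4 κ,
        c * Real.exp ((Uf ρ g πz πw z τ w τ' + Vf a z + Vf a w) / rk ρ πz πw) ≤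
          a ^ 2 / 4 * Real.exp (-2 * a * Qs z) * ‖ld z τ r‖ ^ 2 ∨
        c * Real.exp ((Uf ρ g πz πw z τ w τ' + Vf a z + Vf a w) / rk ρ πz πw) ≤
          a ^ 2 / 4 * Real.exp (-2 * a * Qs w) * ‖ld w τ' r‖ ^ 2 := by
  have hρ1 : 1 ≤ ρ := le_trans (by norm_num) hρ
  obtain ⟨ε, hε, K, hK⟩ := unif hρ g
  set R := rk ρ πz πw with hR
  have h1 : 0 < aOne ρ := by
    have : (0 : ℝ) < ρ := by exact_mod_cast hρ1
    unfold aOne; positivity
  obtain ⟨a, ha0, ha1, ha2⟩ : ∃ a : ℝ, 0 < a ∧ a ≤ aOne ρ ∧ a * (1 + 2 * R) ≤ ε := by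
    refine ⟨min (aOne ρ) (ε / (1 + 2 * R)), lt_min h1 (by positivity), min_le_left _ _, ?_⟩
    rw [← le_div_iff₀ (by positivity)]
    exact min_le_right _ _
  set K' := K + 2 * ((Q4 κ).card * Real.log 2) with hK'
  refine ⟨a, a ^ 2 / 4 * Real.exp (-K' / R), ha0, ha1, by positivity, fun z τ w τ' hG => ?_⟩
  have hne : (Q4 κ).Nonempty := by
    have hc := card_kappa hρ1 g
    have : 1 < Fintype.card κ := by
      simp only [NP] at hc
      nlinarith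
    obtain ⟨i, j, hij⟩ := Fintype.exists_pair_of_one_lt_card this
    exact ⟨((i, j), (i, j)), by simp [Q4, hij]⟩
  obtain ⟨r, hr0, hmax⟩ := Finset.exists_max_image (Q4 κ)
    (fun r => max ‖ld z τ r‖ ‖ld w τ' r‖) hne
  set L := max ‖ld z τ r‖ ‖ld w τ' r‖ with hL
  have hb : ∀ r' ∈ Q4 κ, ‖ld z τ r'‖ ≤ L ∧ ‖ld w τ' r'‖ ≤ L := fun r' h' =>
    ⟨(le_max_left _ _).trans (hmax r' h'), (le_max_right _ _).trans (hmax r' h')⟩
  have q1 := Qs_nonneg z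
  have q2 := Qs_nonneg w
  have hL0 : 0 < L := by
    by_contra hn
    have hn' : L ≤ 0 := not_lt.1 hn
    have := hK πz πw z τ w τ' (Real.exp ((Uf ρ g πz πw z τ w τ' - K - 1) / (2 * R))) hG
      (Real.exp_pos _) fun r' h' =>
        ⟨(hb r' h').1.trans (hn'.trans (Real.exp_pos _).le),
          (hb r' h').2.trans (hn'.trans (Real.exp_pos _).le)⟩
    rw [Real.log_exp, ← hR, mul_div_cancel₀ _ (by positivity)] at this
    nlinarith
  have hU := hK πz πw z τ w τ' L hG hL0 hb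
  have v1 := Vf_le ha0.le z
  have v2 := Vf_le ha0.le w
  have key : a ^ 2 / 4 * Real.exp (-K' / R) *
      Real.exp ((Uf ρ g πz πw z τ w τ' + Vf a z + Vf a w) / R) ≤
      a ^ 2 / 4 * Real.exp (-2 * a * (Qs z + Qs w)) * L ^ 2 := by
    rw [mul_assoc, mul_assoc, ← Real.exp_add]
    refine mul_le_mul_of_nonneg_left ?_ (by positivity)
    rw [← Real.exp_log (pow_pos hL0 2), ← Real.exp_add, Real.exp_le_exp, Real.log_pow,
      ← add_div, div_le_iff₀ hr]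
    rw [← hR] at hU
    have : a * (1 + 2 * R) * (Qs z + Qs w) ≤ ε * (Qs z + Qs w) :=
      mul_le_mul_of_nonneg_right ha2 (by linarith)
    push_cast
    nlinarith
  refine ⟨r, hr0, ?_⟩
  rcases max_choice ‖ld z τ r‖ ‖ld w τ' r‖ with e | e
  · left
    refine key.trans ?_
    rw [hL, e]
    refine mul_le_mul_of_nonneg_right (mul_le_mul_of_nonneg_left ?_ (by positivity)) (by positivity)
    rw [Real.exp_le_exp]; nlinarith
  · right
    refine key.trans ?_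
    rw [hL, e]
    refine mul_le_mul_of_nonneg_right (mul_le_mul_of_nonneg_left ?_ (by positivity)) (by positivity)
    rw [Real.exp_le_exp]; nlinarith

theorem MC_reg (hρ : 1 ≤ ρ) (hG : MC_G ρ g πz πw F Z) {a c R : ℝ} (ha : 0 < a)
    (hpt : ∀ z τ w τ' : κ → ℂ, Good ρ g πz πw z τ w τ' → ∃ r ∈ Q4 κ,
        c * Real.exp ((Uf ρ g πz πw z τ w τ' + Vf a z + Vf a w) / R) ≤
          a ^ 2 / 4 * Real.exp (-2 * a * Qs z) * ‖ld z τ r‖ ^ 2 ∨
        c * Real.exp ((Uf ρ g πz πw z τ w τ' + Vf a z + Vf a w) / R) ≤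
          a ^ 2 / 4 * Real.exp (-2 * a * Qs w) * ‖ld w τ' r‖ ^ 2)
    {t₀ : ℂ} (ht : t₀ ∉ Z) {δ : ℂ → ℂ} (hδ : AnalyticAt ℂ δ t₀)
    (hR : ∀ᶠ t in 𝓝 t₀, RtM F.D t (δ t)) :
    LapGe (fun t => MC_V ρ g πz πw F a t (δ t) -
      c * Real.exp (MC_V ρ g πz πw F a t₀ (δ t₀) / R) * ‖t - t₀‖ ^ 2) t₀ ∧
      ContinuousAt (fun t => MC_V ρ g πz πw F a t (δ t)) t₀ := by
  have hZ : ∀ᶠ t in 𝓝 t₀, t ∉ Z := hG.1.eventually_nhds ht
  have h1 : ∀ᶠ t in 𝓝 t₀, dz (fun u => F.z u (δ u)) t = F.τ t (δ t) ∧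
      dz (fun u => F.z u (-δ u)) t = F.τ t (-δ t) := by
    filter_upwards [hZ, hR, hR.eventually_nhds, hδ.eventually_analyticAt] with t a1 a2 a3 a4
    have h0 := (hG.2.2 t a1 _ a2).1
    have a0 : t ∉ F.Z := fun h => a1 (hG.2.1 h)
    constructor
    · have := F.dz_eq (t := fun u => u) (δ := δ) (s := t) a0 differentiableAt_id
        a4.differentiableAt (a3.mono fun u hu => hu.1) h0
      simpa using this
    · have := F.dz_eq (t := fun u => u) (δ := fun u => -δ u) (s := t) a0 differentiableAt_id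
        a4.differentiableAt.neg (a3.mono fun u hu => by simpa using hu.1) (neg_ne_zero.2 h0)
      simpa using this
  have ht' : t₀ ∉ F.Z := fun h => ht (hG.2.1 h)
  have az := F.analytic ht' hδ
  have aw := F.analytic (δ := fun u => -δ u) ht' hδ.neg
  have h2 := sh_U hρ g πz πw (z := fun u => F.z u (δ u)) (w := fun u => F.z u (-δ u)) (t₀ := t₀)
    az aw (by
      filter_upwards [hZ, hR, h1] with t a1 a2 a3
      rw [a3.1, a3.2]
      exact (hG.2.2 t a1 _ a2).2)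
  have h3 : ∀ᶠ t in 𝓝 t₀, Uf ρ g πz πw (F.z t (δ t)) (dz (fun u => F.z u (δ u)) t)
      (F.z t (-δ t)) (dz (fun u => F.z u (-δ u)) t) =
      Uf ρ g πz πw (F.z t (δ t)) (F.τ t (δ t)) (F.z t (-δ t)) (F.τ t (-δ t)) := by
    filter_upwards [h1] with t a3
    rw [a3.1, a3.2]
  have hg0 := (hG.2.2 t₀ ht _ hR.self_of_nhds).2
  have vz := v_lap (z := fun u => F.z u (δ u)) az hg0.1 ha
  have vw := v_lap (z := fun u => F.z u (-δ u)) aw hg0.2.1 ha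
  have u1 := h2.1.congr h3
  have u2 := h2.2.congr h3
  refine ⟨?_, (u2.add vz.1).add vw.1⟩
  obtain ⟨r, hr, hc⟩ := hpt _ _ _ _ hg0
  rcases hc with hc | hc
  · refine ((u1.add (vz.2.2 r hr)).add vw.2.1).of_le (by simp [MC_V]) fun η hη =>
      Eventually.of_forall fun t => ?_
    rw [h1.self_of_nhds.1]
    have := mul_le_mul_of_nonneg_right hc (sq_nonneg ‖t - t₀‖)
    have := mul_nonneg hη.le (sq_nonneg ‖t - t₀‖)
    simp only [MC_V]
    linarith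
  · refine ((u1.add vz.2.1).add (vw.2.2 r hr)).of_le (by simp [MC_V]) fun η hη =>
      Eventually.of_forall fun t => ?_
    rw [h1.self_of_nhds.2]
    have := mul_le_mul_of_nonneg_right hc (sq_nonneg ‖t - t₀‖)
    have := mul_nonneg hη.le (sq_nonneg ‖t - t₀‖)
    simp only [MC_V]
    linarith

theorem MC_tau (hG : MC_G ρ g πz πw F Z) {t δ θ : ℂ → ℂ} (ht : AnalyticAt ℂ t 0)
    (hδ : MeromorphicAt δ 0) (hR : ∀ᶠ s in L0, t s ∉ Z ∧ RtM F.D (t s) (δ s))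
    (hθ : ∀ᶠ s in L0, θ s * deriv t s = 1) :
    ∀ᶠ s in L0, θ s • dz (fun u => F.z (t u) (δ u)) s = F.τ (t s) (δ s) ∧
      θ s • dz (fun u => F.z (t u) (-δ u)) s = F.τ (t s) (-δ s) := by
  filter_upwards [hR, Core_ev hR, hθ, ht.meromorphicAt.eventually_analyticAt,
    hδ.eventually_analyticAt] with s a1 a2 a3 a4 a5
  have h0 := (hG.2.2 _ a1.1 _ a1.2).1
  have a0 : t s ∉ F.Z := fun h => a1.1 (hG.2.1 h)
  constructor
  · rw [F.dz_eq a0 a4.differentiableAt a5.differentiableAt (a2.mono fun u hu => hu.2.1) h0,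
      smul_smul, a3, one_smul]
  · rw [F.dz_eq (δ := fun u => -δ u) a0 a4.differentiableAt a5.differentiableAt.neg
      (a2.mono fun u hu => by simpa using hu.2.1) (neg_ne_zero.2 h0), smul_smul, a3, one_smul]

theorem MC_V_le {a : ℝ} (ha : 0 < a) (ha1 : a ≤ aOne ρ) (t δ : ℂ) :
    MC_V ρ g πz πw F a t δ ≤ Uf ρ g πz πw (F.z t δ) (F.τ t δ) (F.z t (-δ)) (F.τ t (-δ)) +
      aOne ρ * (Qs (F.z t δ) + Qs (F.z t (-δ))) + 2 * ((Q4 κ).card * Real.log 2) := by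
  have v1 := Vf_le ha.le (F.z t δ)
  have v2 := Vf_le ha.le (F.z t (-δ))
  have := mul_le_mul_of_nonneg_right ha1 (add_nonneg (Qs_nonneg (F.z t δ)) (Qs_nonneg (F.z t (-δ))))
  unfold MC_V
  linarith

theorem MC_nb (hρ : 2 ^ 22 ≤ ρ) (hG : MC_G ρ g πz πw F Z) {a : ℝ} (ha : 0 < a) (ha1 : a ≤ aOne ρ)
    (v : ℂ) {δ : ℂ → ℂ} (hδ : MeromorphicAt δ 0) (hR : ∀ᶠ s in L0, RtM F.D (v + s) (δ s))
    {η : ℝ} (hη : 0 < η) :
    ∃ C, ∀ᶠ s in L0, MC_V ρ g πz πw F a (v + s) (δ s) ≤ C - η * Real.log ‖s‖ := by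
  have ht : AnalyticAt ℂ (fun s : ℂ => v + s) 0 := by fun_prop
  have hZ : ∀ᶠ s in L0, v + s ∉ Z := by
    simpa using (Core_tend v 1 one_ne_zero).eventually (hG.1 v)
  have hθ : ∀ᶠ s in L0, (fun _ : ℂ => (1 : ℂ)) s * deriv (fun s : ℂ => v + s) s = 1 :=
    Eventually.of_forall fun s => by simp
  have hR' := hZ.and hR
  have h1 := MC_tau hG ht hδ hR' hθ
  obtain ⟨d, d', a1, a2, a3, a4, a5, a6, a7⟩ := mero_nb (z := fun u => F.z (v + u) (δ u))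
    (w := fun u => F.z (v + u) (-δ u)) (F.mero ht hδ) (F.mero (δ := fun u => -δ u) ht hδ.neg)
    (hR'.mono fun s hs => ⟨(hG.2.2 _ hs.1 _ hs.2).2.1, (hG.2.2 _ hs.1 _ hs.2).2.2.1⟩)
    (fun i j => ⟨fun s => F.dd i j (v + s), mero_comp (F.mdd i j).1 ht,
      hR'.mono fun s hs => F.prod_eq (fun h => hs.1 (hG.2.1 h)) hs.2.1 i j⟩)
  obtain ⟨C, hC⟩ := loc_nb_strict hρ g πz πw a1 a2 a3 a4 a5 a6 a7 (bd_const 1)
    (Eventually.of_forall fun _ => one_ne_zero) (by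
      filter_upwards [hR', h1] with s b1 b2
      rw [b2.1, b2.2]
      exact (hG.2.2 _ b1.1 _ b1.2).2) hη
  refine ⟨C + 2 * ((Q4 κ).card * Real.log 2), ?_⟩
  filter_upwards [hC, h1] with s b1 b2
  rw [b2.1, b2.2] at b1
  have := MC_V_le (g := g) (πz := πz) (πw := πw) (F := F) ha ha1 (v + s) (δ s)
  linarith

theorem MC_br (hρ : 2 ^ 22 ≤ ρ) (hG : MC_G ρ g πz πw F Z) {a : ℝ} (ha : 0 < a) (ha1 : a ≤ aOne ρ)
    (v : ℂ) {δ : ℂ → ℂ} (hδ : MeromorphicAt δ 0)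
    (hR : ∀ᶠ s in L0, RtM F.D (v + s ^ 2) (δ s) ∧ δ (-s) = -δ s) {η : ℝ} (hη : 0 < η) :
    ∃ C, ∀ᶠ s in L0, MC_V ρ g πz πw F a (v + s ^ 2) (δ s) ≤ C - η * Real.log ‖s‖ := by
  have ht : AnalyticAt ℂ (fun s : ℂ => v + s ^ 2) 0 := by fun_prop
  have hR' : ∀ᶠ s in L0, v + s ^ 2 ∉ Z ∧ RtM F.D (v + s ^ 2) (δ s) := by
    filter_upwards [hR, (Core_tend v 2 two_ne_zero).eventually (hG.1 v)] with s a1 a2
    exact ⟨a2, a1.1⟩
  have hθ : ∀ᶠ s in L0, (2⁻¹ * s⁻¹) * deriv (fun s : ℂ => v + s ^ 2) s = 1 := by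
    filter_upwards [L0_ne] with s hs
    have : deriv (fun s : ℂ => v + s ^ 2) s = 2 * s := by
      simp
    rw [this]
    field_simp
  have h1 := MC_tau (θ := fun s => 2⁻¹ * s⁻¹) hG ht hδ hR' hθ
  obtain ⟨d, a1, a2, a3, a4, a5, a6⟩ := mero_br (z := fun u => F.z (v + u ^ 2) (δ u))
    (w := fun u => F.z (v + u ^ 2) (-δ u)) (F.mero ht hδ)
    (hR'.mono fun s hs => (hG.2.2 _ hs.1 _ hs.2).2.1)
    (hR.mono fun s hs => by simp only [hs.2, neg_sq])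
  obtain ⟨C, hC⟩ := loc_br_strict hρ g πz πw a1 a2 a3 a4 a5 a6 (bd_inv.const_mul 2⁻¹)
    (hθ.mono fun s hs => left_ne_zero_of_mul_eq_one hs) (by
      filter_upwards [hR', h1] with s b1 b2
      rw [b2.1, b2.2]
      exact (hG.2.2 _ b1.1 _ b1.2).2) hη
  refine ⟨C + 2 * ((Q4 κ).card * Real.log 2), ?_⟩
  filter_upwards [hC, h1] with s b1 b2
  rw [b2.1, b2.2] at b1
  have := MC_V_le (g := g) (πz := πz) (πw := πw) (F := F) ha ha1 (v + s ^ 2) (δ s)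
  linarith

/-- the second root is `MC_sg D * δ` -/
noncomputable def MC_sg (D : ℂ → ℂ) : ℂ := by
  classical exact if D = fun _ => 1 then 1 else -1

theorem MC_sg_rt {D : ℂ → ℂ} {t δ : ℂ} (h : RtM D t δ) : RtM D t (MC_sg D * δ) := by
  unfold MC_sg
  split_ifs with hD
  · simpa using h
  · exact ⟨by simpa using h.1, fun e => absurd e hD⟩

theorem MC_sg_sq (D : ℂ → ℂ) : MC_sg D * MC_sg D = 1 := by
  unfold MC_sg
  split_ifs <;> simp

theorem MC_sg_or {D : ℂ → ℂ} {t δ δ' : ℂ} (h : RtM D t δ) (h' : RtM D t δ') :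
    δ' = δ ∨ δ' = MC_sg D * δ := by
  unfold MC_sg
  split_ifs with hD
  · left; rw [h.2 hD, h'.2 hD]
  · have := sq_eq_sq_iff_eq_or_eq_neg.1 (h'.1.trans h.1.symm)
    simpa using this

theorem MC_ex (D : ℂ → ℂ) (t : ℂ) : ∃ δ, RtM D t δ := by
  by_cases hD : D = fun _ => 1
  · exact ⟨1, by simp [hD], fun _ => rfl⟩
  · obtain ⟨δ, hδ⟩ := IsAlgClosed.exists_pow_nat_eq (D t) two_pos
    exact ⟨δ, hδ, fun e => absurd e hD⟩

theorem MC_false (hρ : 2 ^ 22 ≤ ρ) (hG : MC_G ρ g πz πw F Z) (hr : 0 < rk ρ πz πw) : False := by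
  have hρ1 : 1 ≤ ρ := le_trans (by norm_num) hρ
  obtain ⟨a, c, ha, ha1, hc, hpt⟩ := MC_pt hρ g πz πw hr
  choose r hrt using MC_ex F.D
  set σ := MC_sg F.D with hσ
  set V := MC_V ρ g πz πw F a with hV
  set R := rk ρ πz πw with hR
  have hu : ∀ t δ, RtM F.D t δ → max (V t (r t)) (V t (σ * r t)) = max (V t δ) (V t (σ * δ)) := by
    intro t δ h
    rcases MC_sg_or h (hrt t) with e | e
    · rw [e]
    · rw [e, ← mul_assoc, MC_sg_sq, one_mul, max_comm]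
  obtain ⟨q, hq, hqt⟩ := Core_sqrt
  have hlog : ∀ a : ℂ, Real.log ‖a‖ = 2 * Real.log ‖q a‖ := fun a => by
    conv_lhs => rw [← hq a, norm_pow, Real.log_pow]
    norm_num
  have hloc : ∀ t₀, t₀ ∉ Z → ∃ δ : ℂ → ℂ, (∀ᶠ t in 𝓝 t₀, RtM F.D t (δ t)) ∧
      (LapGe (fun t => V t (δ t) - c * Real.exp (V t₀ (δ t₀) / R) * ‖t - t₀‖ ^ 2) t₀ ∧
        ContinuousAt (fun t => V t (δ t)) t₀) ∧
      LapGe (fun t => V t (σ * δ t) - c * Real.exp (V t₀ (σ * δ t₀) / R) * ‖t - t₀‖ ^ 2) t₀ ∧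
        ContinuousAt (fun t => V t (σ * δ t)) t₀ := by
    intro t₀ ht
    obtain ⟨δ, a1, -, a3⟩ := rootM_loc (F.mD.2 t₀ fun h => ht (hG.2.1 h)) (hrt t₀)
      (hG.2.2 t₀ ht _ (hrt t₀)).1
    exact ⟨δ, a3, MC_reg hρ1 hG ha hpt ht a1 a3,
      MC_reg (δ := fun t => σ * δ t) hρ1 hG ha hpt ht (analyticAt_const.mul a1)
        (a3.mono fun t h => MC_sg_rt h)⟩
  refine ahlfors (fun t => max (V t (r t)) (V t (σ * r t))) Z hG.1 hr hc ?_ ?_ ?_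
  · intro t₀ ht
    obtain ⟨δ, a1, a2, a3⟩ := hloc t₀ ht
    exact ContinuousAt.congr (f := fun t => max (V t (δ t)) (V t (σ * δ t))) (a2.2.max a3.2)
      (a1.mono fun t h => (hu t _ h).symm)
  · intro t₀ ht
    obtain ⟨δ, a1, a2, a3⟩ := hloc t₀ ht
    have e0 := hu t₀ _ a1.self_of_nhds
    rcases le_total (V t₀ (δ t₀)) (V t₀ (σ * δ t₀)) with h | h
    · refine a3.1.of_le (by simp only [e0, max_eq_right h, le_refl]) fun η hη => ?_
      filter_upwards [a1] with t b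
      rw [hu t _ b, e0, max_eq_right h]
      have := le_max_right (V t (δ t)) (V t (σ * δ t))
      nlinarith [sq_nonneg ‖t - t₀‖]
    · refine a2.1.of_le (by simp only [e0, max_eq_left h, le_refl]) fun η hη => ?_
      filter_upwards [a1] with t b
      rw [hu t _ b, e0, max_eq_left h]
      have := le_max_left (V t (δ t)) (V t (σ * δ t))
      nlinarith [sq_nonneg ‖t - t₀‖]
  · intro v _ η hη
    have hsub : Tendsto (fun t => t - v) (𝓝[≠] v) L0 := by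
      refine tendsto_nhdsWithin_iff.2 ⟨?_, ?_⟩
      · have : ContinuousAt (fun t : ℂ => t - v) v := by fun_prop
        have h := this.tendsto
        simp only [sub_self] at h
        exact h.mono_left nhdsWithin_le_nhds
      · filter_upwards [self_mem_nhdsWithin] with t ht
        exact sub_ne_zero.2 ht
    rcases rootM_fin (F.mD.1 v) ((F.disc v).mono fun t ht => F.D_ne t ht) with
      ⟨δ, a1, a2⟩ | ⟨δ, a1, a2⟩
    · obtain ⟨C, hC⟩ := MC_nb hρ hG ha ha1 v a1 a2 hη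
      obtain ⟨C', hC'⟩ := MC_nb (δ := fun s => σ * δ s) hρ hG ha ha1 v
        ((MeromorphicAt.const σ 0).mul a1) (a2.mono fun s h => MC_sg_rt h) hη
      refine ⟨max C C', ?_⟩
      filter_upwards [hsub.eventually hC, hsub.eventually hC', hsub.eventually a2] with t b1 b2 b3
      simp only [add_sub_cancel] at b1 b2 b3
      rw [hu t _ b3]
      refine max_le ?_ ?_
      · have := le_max_left C C'
        linarith
      · have := le_max_right C C'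
        linarith
    · obtain ⟨C, hC⟩ := MC_br hρ hG ha ha1 v a1 (a2.mono fun s h => ⟨h.1, h.2.2⟩)
        (η := 2 * η) (by linarith)
      obtain ⟨C', hC'⟩ := MC_br (δ := fun s => -δ s) hρ hG ha ha1 v a1.neg
        (a2.mono fun s h => ⟨h.2.1, by simp only [h.2.2]⟩) (η := 2 * η) (by linarith)
      refine ⟨max C C', ?_⟩
      have hs := hqt.comp hsub
      filter_upwards [hs.eventually hC, hs.eventually hC', hs.eventually a2] with t b1 b2 b3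
      simp only [Function.comp, hq, add_sub_cancel] at b1 b2 b3
      have c1 := le_max_left C C'
      have c2 := le_max_right C C'
      have c3 := hlog (t - v)
      rw [hu t _ b3.1]
      refine max_le (by rw [c3]; linarith) ?_
      rcases sq_eq_sq_iff_eq_or_eq_neg.1 ((MC_sg_rt b3.1).1.trans b3.1.1.symm) with e | e
      · rw [e, c3]; linarith
      · rw [e, c3]; linarith

theorem MC_ns (hρ : 2 ^ 22 ≤ ρ) (g : κ ≃ Mb (eP ρ)) (F : MFam κ)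
    (hD : (F.D = fun _ => 1) ∨ ¬SqM F.D) {t₀ δ₀ : ℂ} (ht : t₀ ∉ F.Z) (h0 : RtM F.D t₀ δ₀)
    (hΔ : Delta g (F.z t₀ δ₀) (F.z t₀ (-δ₀)) ≠ 0) (i j k l : κ) (hkl : k ≠ l) {t : ℂ}
    (ht' : t ∉ F.Z) : F.dd i j t ^ 2 * F.dd k l t₀ ^ 2 = F.dd k l t ^ 2 * F.dd i j t₀ ^ 2 := by
  have hρ1 : 1 ≤ ρ := le_trans (by norm_num) hρ
  obtain ⟨Z, πz, πw, hG⟩ := genM g F hD ht h0 hΔ
  have hr : rk ρ πz πw ≤ 0 := not_lt.1 fun hr => MC_false hρ hG hr
  refine prop_of_wronskianM ((F.mdd i j).pow 2) ((F.mdd k l).pow 2) hG.1 (fun u hu => ?_) ht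
    (pow_ne_zero 2 (F.dd_ne t₀ ht k l hkl)) ht'
  obtain ⟨δ, h⟩ := MC_ex F.D u
  exact rk_zeroM hρ1 (card_kappa hρ1 g) g F hr (fun h => hu (hG.2.1 h)) h.1 (hG.2.2 u hu δ h).1
    (hG.2.2 u hu δ h).2 i j k l

theorem coreM (hρ : 2 ^ 22 ≤ ρ) (g : κ ≃ Mb (eP ρ)) (F : MFam κ) {t₀ δ₀ : ℂ} (ht : t₀ ∉ F.Z)
    (h0 : δ₀ ^ 2 = F.D t₀) (hΔ : Delta g (F.z t₀ δ₀) (F.z t₀ (-δ₀)) ≠ 0) (i j k l : κ)
    (hkl : k ≠ l) {t : ℂ} (ht' : t ∉ F.Z) :
    F.dd i j t ^ 2 * F.dd k l t₀ ^ 2 = F.dd k l t ^ 2 * F.dd i j t₀ ^ 2 := by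
  by_cases hs : SqM F.D
  · obtain ⟨G, hG1, hG, hG0⟩ : ∃ G : ℂ → ℂ, MA F.Z G ∧ (∀ t, t ∉ F.Z → F.D t = G t ^ 2) ∧
        G t₀ = δ₀ := by
      obtain ⟨G, hG1, hG⟩ := hs.exists_ma F.mD
      have : G t₀ ^ 2 = δ₀ ^ 2 := by rw [h0, hG t₀ ht]
      rcases sq_eq_sq_iff_eq_or_eq_neg.1 this with e | e
      · exact ⟨G, hG1, hG, e⟩
      · exact ⟨fun t => -G t, hG1.neg, fun t ht => by rw [hG t ht]; ring, by simp [e]⟩
    let F' : MFam κ := ⟨F.x, fun i t => F.η i t * G t, fun _ => 1, F.dd, F.Z, F.disc, F.mx,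
      fun i => (F.mη i).mul hG1, ma_const 1, F.mdd, fun _ _ => one_ne_zero, F.dd_ne,
      fun t ht i j => by rw [← F.ident t ht i j, hG t ht]; ring⟩
    have e1 : F'.z t₀ 1 = F.z t₀ δ₀ := by
      funext i; simp [MFam.z, F', hG0]
    have e2 : F'.z t₀ (-1) = F.z t₀ (-δ₀) := by
      funext i; simp [MFam.z, F', hG0]
    exact MC_ns hρ g F' (Or.inl rfl) (t₀ := t₀) (δ₀ := 1) ht ⟨by simp [F'], fun _ => rfl⟩
      (by rw [e1, e2]; exact hΔ) i j k l hkl ht'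
  · refine MC_ns hρ g F (Or.inr hs) ht ⟨h0, fun e => absurd ?_ hs⟩ hΔ i j k l hkl ht'
    exact ⟨fun _ => 1, ∅, fun x => MeromorphicAt.const 1 x, fun _ => by simp, fun t _ => by simp [e]⟩

end Pool.Agent.P.MP_a62d3c_co.FF
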