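import Pool.Agent.P.MP_a62d3c_co.FB.MA
import Pool.Agent.P.MP_a62d3c_co.FF.Root

namespace Pool.Agent.P.MP_a62d3c_co.FF

open Filter Topology Polynomial MeasureTheory Asymptotics
open scoped ComplexConjugate Matrix ComplexOrder

/-! Meromorphic version of FF/Root.lean. -/

theorem BMRoot_sq : Tendsto (fun s : ℂ => s ^ 2) L0 L0 :=
  tendsto_nhdsWithin_iff.2 ⟨Root_sq, L0_ne.mono fun _ h => pow_ne_zero 2 h⟩

theorem BMRoot_form {D : ℂ → ℂ} {v : ℂ} (hD : MeromorphicAt D v)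
    (h0 : ∀ᶠ t in 𝓝[≠] v, D t ≠ 0) :
    ∃ (k : ℤ) (g : ℂ → ℂ), AnalyticAt ℂ g 0 ∧ ∀ᶠ s in L0, D (v + s) = s ^ k * g s ^ 2 := by
  have h1 : meromorphicOrderAt D v ≠ ⊤ := fun e => by
    obtain ⟨t, ht, ht'⟩ := ((meromorphicOrderAt_eq_top_iff.1 e).and h0).exists
    exact ht' ht
  lift meromorphicOrderAt D v to ℤ using h1 with k hk
  obtain ⟨q, hq, hv, he⟩ := (meromorphicOrderAt_eq_int_iff hD).1 hk.symm
  obtain ⟨δ₀, h2⟩ := IsAlgClosed.exists_pow_nat_eq (q v) (two_pos (α := ℕ))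
  have hδ : δ₀ ≠ 0 := by
    rintro rfl
    exact hv (by rw [← h2]; simp)
  have h3 : AnalyticAt ℂ (fun s : ℂ => v + s) 0 := analyticAt_const.add analyticAt_id
  have ha : AnalyticAt ℂ (fun s : ℂ => q (v + s)) 0 :=
    AnalyticAt.comp (f := fun s : ℂ => v + s) (by simpa using hq) h3
  obtain ⟨g, hg, -, h⟩ := sqrt_loc ha (by simpa using h2) hδ
  have h4 : Tendsto (fun s : ℂ => v + s) L0 (𝓝[≠] v) := by
    refine tendsto_nhdsWithin_iff.2 ⟨?_, L0_ne.mono fun s hs => by simpa using hs⟩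
    have h5 := h3.continuousAt.tendsto
    rw [add_zero] at h5
    exact h5.mono_left nhdsWithin_le_nhds
  refine ⟨k, g, hg, ?_⟩
  filter_upwards [h4.eventually he, h.filter_mono nhdsWithin_le_nhds] with s hs hs'
  rw [hs, hs', add_sub_cancel_left, smul_eq_mul]

theorem rootM_loc {D : ℂ → ℂ} {t₀ δ₀ : ℂ} (hD : AnalyticAt ℂ D t₀) (h : RtM D t₀ δ₀)
    (hδ : δ₀ ≠ 0) :
    ∃ δ : ℂ → ℂ, AnalyticAt ℂ δ t₀ ∧ δ t₀ = δ₀ ∧ ∀ᶠ t in 𝓝 t₀, RtM D t (δ t) := by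
  by_cases h1 : D = fun _ => 1
  · refine ⟨fun _ => 1, analyticAt_const, (h.2 h1).symm, Eventually.of_forall fun t => ?_⟩
    exact ⟨by simp [h1], fun _ => rfl⟩
  · obtain ⟨δ, ha, h0, he⟩ := sqrt_loc hD h.1 hδ
    exact ⟨δ, ha, h0, he.mono fun t ht => ⟨ht, fun e => absurd e h1⟩⟩

/-- `D = (t - v) ^ k D₁` near `v` with `k : ℤ` (`meromorphicOrderAt_ne_top_iff`), `sqrt_loc` for `D₁`;
`k` even: `δ = s ^ (k / 2) √D₁(v + s)`; `k` odd: `δ = s ^ k √D₁(v + s²)`. For `D = 1` take `δ = 1`. -/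
theorem rootM_fin {D : ℂ → ℂ} {v : ℂ} (hD : MeromorphicAt D v) (h0 : ∀ᶠ t in 𝓝[≠] v, D t ≠ 0) :
    (∃ δ : ℂ → ℂ, MeromorphicAt δ 0 ∧ ∀ᶠ s in L0, RtM D (v + s) (δ s)) ∨
      ∃ δ : ℂ → ℂ, MeromorphicAt δ 0 ∧
        ∀ᶠ s in L0, RtM D (v + s ^ 2) (δ s) ∧ RtM D (v + s ^ 2) (-δ s) ∧ δ (-s) = -δ s := by
  by_cases h1 : D = fun _ => 1
  · refine Or.inl ⟨fun _ => 1, analyticAt_const.meromorphicAt, Eventually.of_forall fun t => ?_⟩
    exact ⟨by simp [h1], fun _ => rfl⟩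
  obtain ⟨k, g, hg, he⟩ := BMRoot_form hD h0
  rcases Int.even_or_odd k with ⟨m, hm⟩ | hodd
  · refine Or.inl ⟨fun s => s ^ m * g s, ((MeromorphicAt.id 0).zpow m).mul hg.meromorphicAt, ?_⟩
    filter_upwards [he, L0_ne] with s hs hs0
    refine ⟨?_, fun e => absurd e h1⟩
    rw [hs, hm, zpow_add₀ hs0]
    ring
  · refine Or.inr ⟨fun s => s ^ k * g (s ^ 2),
      ((MeromorphicAt.id 0).zpow k).mul (Root_an_sq hg).meromorphicAt, ?_⟩
    filter_upwards [BMRoot_sq.eventually he] with s hs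
    have h2 : (s ^ k * g (s ^ 2)) ^ 2 = D (v + s ^ 2) := by
      rw [hs, sq s, mul_zpow]
      ring
    refine ⟨⟨h2, fun e => absurd e h1⟩, ⟨by rw [neg_sq]; exact h2, fun e => absurd e h1⟩, ?_⟩
    rw [hodd.neg_zpow, neg_sq]
    ring

/-- `MeromorphicAt.comp_analyticAt` -/
theorem mero_comp {f t : ℂ → ℂ} (hf : Meromorphic f) (ht : AnalyticAt ℂ t 0) :
    MeromorphicAt (fun s => f (t s)) 0 :=
  (hf (t 0)).comp_analyticAt ht

variable {κ : Type}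

theorem MFam.mero (F : MFam κ) {t δ : ℂ → ℂ} (ht : AnalyticAt ℂ t 0) (hδ : MeromorphicAt δ 0)
    (i : κ) : MeromorphicAt (fun s => F.z (t s) (δ s) i) 0 :=
  (mero_comp (F.mx i).1 ht).add ((mero_comp (F.mη i).1 ht).mul hδ)

theorem MFam.analytic (F : MFam κ) {δ : ℂ → ℂ} {t₀ : ℂ} (ht : t₀ ∉ F.Z) (hδ : AnalyticAt ℂ δ t₀)
    (i : κ) : AnalyticAt ℂ (fun t => F.z t (δ t) i) t₀ :=
  ((F.mx i).2 t₀ ht).add (((F.mη i).2 t₀ ht).mul hδ)

theorem MFam.prod_eq (F : MFam κ) {t δ : ℂ} (ht : t ∉ F.Z) (h : δ ^ 2 = F.D t) (i j : κ) :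
    (F.z t δ i - F.z t δ j) * (F.z t (-δ) i - F.z t (-δ) j) = F.dd i j t ^ 2 := by
  have h1 := F.ident t ht i j
  unfold MFam.z
  linear_combination h1 - (F.η i t - F.η j t) ^ 2 * h

theorem MFam.dz_eq (F : MFam κ) {t δ : ℂ → ℂ} {s : ℂ} (hs : t s ∉ F.Z)
    (ht : DifferentiableAt ℂ t s) (hδ : DifferentiableAt ℂ δ s)
    (h : ∀ᶠ u in 𝓝 s, δ u ^ 2 = F.D (t u)) (h0 : δ s ≠ 0) :
    dz (fun u => F.z (t u) (δ u)) s = deriv t s • F.τ (t s) (δ s) := by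
  have hP : ∀ f : ℂ → ℂ, MA F.Z f → HasDerivAt (fun u => f (t u))
      (deriv f (t s) * deriv t s) s := fun f hf =>
    (hf.2 _ hs).differentiableAt.hasDerivAt.comp s ht.hasDerivAt
  have h1 : HasDerivAt (fun u => δ u ^ 2) (2 * δ s * deriv δ s) s := by
    have := hδ.hasDerivAt.fun_pow 2
    simpa using this
  have h2 : 2 * δ s * deriv δ s = deriv F.D (t s) * deriv t s :=
    h1.unique ((hP F.D F.mD).congr_of_eventuallyEq h)
  have h3 : deriv δ s = deriv F.D (t s) * deriv t s / (2 * δ s) := by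
    rw [← h2]
    field_simp
  funext j
  have h4 := ((hP _ (F.mx j)).add ((hP _ (F.mη j)).mul hδ.hasDerivAt)).deriv
  have h5 : dz (fun u => F.z (t u) (δ u)) s j = _ := h4
  rw [h5, h3]
  simp only [Pi.smul_apply, smul_eq_mul, MFam.τ]
  ring

/-- differentiate `MFam.ident`, which holds near `t` (`Disc.eventually_nhds`) -/
theorem MFam.deriv_eq (F : MFam κ) {t δ : ℂ} (ht : t ∉ F.Z) (h : δ ^ 2 = F.D t) (h0 : δ ≠ 0)
    (i j : κ) :
    (F.τ t δ i - F.τ t δ j) * (F.z t (-δ) i - F.z t (-δ) j) +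
      (F.z t δ i - F.z t δ j) * (F.τ t (-δ) i - F.τ t (-δ) j) =
        deriv (fun u => F.dd i j u ^ 2) t := by
  have hP : ∀ f : ℂ → ℂ, MA F.Z f → HasDerivAt f (deriv f t) t := fun f hf =>
    (hf.2 _ ht).differentiableAt.hasDerivAt
  have h1 : (fun u => F.dd i j u ^ 2) =ᶠ[𝓝 t]
      fun u => (F.x i u - F.x j u) ^ 2 - (F.η i u - F.η j u) ^ 2 * F.D u :=
    (F.disc.eventually_nhds ht).mono fun u hu => (F.ident u hu i j).symm
  have h2 := ((((hP _ (F.mx i)).fun_sub (hP _ (F.mx j))).fun_pow 2).fun_sub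
    ((((hP _ (F.mη i)).fun_sub (hP _ (F.mη j))).fun_pow 2).fun_mul (hP _ F.mD))).deriv
  rw [h1.deriv_eq, h2]
  unfold MFam.z MFam.τ
  rw [← h]
  simp only [Nat.cast_ofNat, Nat.add_one_sub_one, pow_one]
  field_simp
  ring

end Pool.Agent.P.MP_a62d3c_co.FF
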