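import Pool.Agent.P.MP_a62d3c_co.FB.MReg
import Pool.Agent.P.MP_a62d3c_co.FB.MRoot
import Pool.Agent.P.MP_a62d3c_co.FF.Gen

namespace Pool.Agent.P.MP_a62d3c_co.FF

open Filter Topology Polynomial MeasureTheory Asymptotics
open scoped ComplexConjugate Matrix ComplexOrder

/-! Meromorphic version of FF/Gen.lean (adapt those proofs). -/

variable {κ : Type} [Fintype κ] [DecidableEq κ] {ρ : ℕ}

theorem BMGen_delta_ne (F : MFam κ) {t δ : ℂ} (ht : t ∉ F.Z) (h : δ ^ 2 = F.D t) : δ ≠ 0 := by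
  rintro rfl
  exact F.D_ne t ht (by simpa using h.symm)

theorem BMGen_sub_ne (F : MFam κ) {t δ : ℂ} (ht : t ∉ F.Z) (h : δ ^ 2 = F.D t)
    {i j : κ} (hij : i ≠ j) : F.z t δ i - F.z t δ j ≠ 0 := by
  have h1 := F.prod_eq ht h i j
  have h2 := pow_ne_zero 2 (F.dd_ne t ht i j hij)
  rw [← h1] at h2
  exact left_ne_zero_of_mul h2

theorem BMGen_inj (F : MFam κ) {t δ : ℂ} (ht : t ∉ F.Z) (h : δ ^ 2 = F.D t) :
    Function.Injective (F.z t δ) := fun _ _ e =>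
  by_contra fun hij => BMGen_sub_ne F ht h hij (sub_eq_zero.2 e)

theorem BMGen_reg_z (F : MFam κ) (i : κ) : RegM F.Z F.D fun t δ => F.z t δ i :=
  (regM_ma (F.mx i)).add (RegM.mul F.mD (regM_ma (F.mη i)) regM_delta)

theorem BMGen_reg_τ (F : MFam κ) (i : κ) : RegM F.Z F.D fun t δ => F.τ t δ i := by
  have h1 : RegM F.Z F.D fun t δ => deriv (F.x i) t +
      deriv (F.η i) t * δ + F.η i t * deriv F.D t * ((1 / 2 : ℂ) * (δ * (F.D t)⁻¹)) :=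
    ((regM_ma (F.mx i).deriv).add (RegM.mul F.mD (regM_ma (F.mη i).deriv) regM_delta)).add
      (RegM.mul F.mD (RegM.mul F.mD (regM_ma (F.mη i)) (regM_ma F.mD.deriv))
        (RegM.mul F.mD (regM_const _)
          (RegM.mul F.mD regM_delta (regM_ma (F.mD.inv F.D_ne)))))
  refine h1.congr fun t ht δ h => ?_
  have h0 := BMGen_delta_ne F ht h
  unfold MFam.τ
  rw [← h]
  field_simp

theorem BMGen_reg_inv (F : MFam κ) {i j : κ} (hij : i ≠ j) :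
    RegM F.Z F.D fun t δ => (F.z t δ i - F.z t δ j)⁻¹ := by
  have h0 : RegM F.Z F.D fun t _ => (F.dd i j t)⁻¹ :=
    regM_ma ((F.mdd i j).inv fun t ht => F.dd_ne t ht i j hij)
  have h1 : RegM F.Z F.D fun t δ => (F.z t (-δ) i + -F.z t (-δ) j) *
      ((F.dd i j t)⁻¹ * (F.dd i j t)⁻¹) :=
    RegM.mul F.mD ((BMGen_reg_z F i).flip.add (BMGen_reg_z F j).flip.neg) (RegM.mul F.mD h0 h0)
  refine h1.congr fun t ht δ h => ?_
  have h2 := F.prod_eq ht h i j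
  have h3 := F.dd_ne t ht i j hij
  refine eq_inv_of_mul_eq_one_right ?_
  rw [← sub_eq_add_neg, ← mul_assoc, h2]
  field_simp

theorem BMGen_reg_theta (F : MFam κ) (I : Finset (Option κ)) (p q : ℕ) (a : Fin p) (b : Fin q) :
    RegM F.Z F.D fun t δ => theta p q (rs I (F.z t δ)) (rs I (F.τ t δ)) a b := by
  have h1 : RegM F.Z F.D fun t δ => ∑ j : I.eraseNone,
      F.z t δ j.1 ^ ((a : ℕ) + (b : ℕ)) * F.τ t δ j.1 *
        ∏ i ∈ Finset.univ.erase j, (F.z t δ j.1 - F.z t δ i.1)⁻¹ := by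
    refine RegM.sum fun j _ => RegM.mul F.mD
      (RegM.mul F.mD (RegM.pow F.mD (BMGen_reg_z F j.1) _) (BMGen_reg_τ F j.1)) ?_
    exact RegM.prod F.mD fun i hi =>
      BMGen_reg_inv F fun e => (Finset.ne_of_mem_erase hi) (Subtype.ext e).symm
  refine h1.congr fun t _ δ _ => ?_
  simp only [theta, Matrix.of_apply, hig, dpr, rs, eval_pow, eval_X, Finset.prod_inv_distrib,
    div_eq_mul_inv]

theorem BMGen_piv {Z : Set ℂ} {D : ℂ → ℂ} (hZ : Disc Z) (hm : MA Z D)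
    (hD : (D = fun _ => 1) ∨ ¬SqM D) {t₀ δ₀ : ℂ} (ht : t₀ ∉ Z) (h0 : RtM D t₀ δ₀)
    {p q : ℕ} {T : ℂ → ℂ → Matrix (Fin p) (Fin q) ℂ}
    (hT : ∀ a b, RegM Z D fun t δ => T t δ a b) :
    ∃ π : Piv p q, Disc {t | t ∉ Z ∧ ∃ δ, RtM D t δ ∧ ¬Valid (T t δ) π} := by
  have : Nonempty {y : ℂ × ℂ // y.1 ∉ Z ∧ RtM D y.1 y.2} := ⟨⟨(t₀, δ₀), ht, h0⟩⟩
  obtain ⟨π, ⟨y, hy⟩, hπ⟩ :=
    exists_piv fun y : {y : ℂ × ℂ // y.1 ∉ Z ∧ RtM D y.1 y.2} => T y.1.1 y.1.2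
  have h1 : RegM Z D fun t δ => (blk (T t δ) π).det := RegM.det hm fun i j => hT _ _
  refine ⟨π, (h1.disc hZ hm hD y.2.1 y.2.2 hy).mono ?_⟩
  rintro t ⟨ht, δ, hδ, hv⟩
  exact ⟨ht, δ, hδ, by_contra fun hne => hv (hπ ⟨(t, δ), ht, hδ⟩ hne)⟩

/-- pivots from `exists_piv` for `Y = {(t, δ) | t ∉ F.Z ∧ RtM F.D t δ}`; `Z'` is the union of `F.Z` and
the finitely many sets of `RegM.disc` -/
theorem genM (g : κ ≃ Mb (eP ρ)) (F : MFam κ) (hD : (F.D = fun _ => 1) ∨ ¬SqM F.D) {t₀ δ₀ : ℂ}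
    (ht : t₀ ∉ F.Z) (h0 : RtM F.D t₀ δ₀) (hΔ : Delta g (F.z t₀ δ₀) (F.z t₀ (-δ₀)) ≠ 0) :
    ∃ (Z' : Set ℂ) (πz πw : Pivs κ ρ), Disc Z' ∧ F.Z ⊆ Z' ∧ ∀ t, t ∉ Z' → ∀ δ, RtM F.D t δ →
      δ ≠ 0 ∧ Good ρ g πz πw (F.z t δ) (F.τ t δ) (F.z t (-δ)) (F.τ t (-δ)) := by
  choose πz hz using fun I : Finset (Option κ) =>
    BMGen_piv F.disc F.mD hD ht h0 (BMGen_reg_theta F I (pP ρ) (qP ρ))
  choose πw hw using fun I : Finset (Option κ) =>
    BMGen_piv F.disc F.mD hD ht h0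
      (T := fun t δ => theta (pP ρ) (qP ρ) (rs I (F.z t (-δ))) (rs I (F.τ t (-δ))))
      fun a b => (BMGen_reg_theta F I (pP ρ) (qP ρ) a b).flip
  have h1 : RegM F.Z F.D fun t δ => Delta g (F.z t δ) (F.z t (-δ)) :=
    RegM.det F.mD fun i j => RegM.mul F.mD (RegM.pow F.mD (BMGen_reg_z F i) _)
      (RegM.pow F.mD (BMGen_reg_z F i).flip _)
  have h2 := h1.disc F.disc F.mD hD ht h0 hΔ
  have h3 := ((F.disc.union h2).union (disc_iUnion hz)).union (disc_iUnion hw)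
  refine ⟨_, πz, πw, h3, fun t ht => Or.inl (Or.inl (Or.inl ht)), fun t ht δ hR => ?_⟩
  simp only [Set.mem_union, not_or, Set.mem_iUnion, not_exists] at ht
  obtain ⟨⟨⟨a1, a2⟩, a3⟩, a4⟩ := ht
  have hR' : (-δ) ^ 2 = F.D t := by rw [neg_sq, hR.1]
  refine ⟨BMGen_delta_ne F a1 hR.1, BMGen_inj F a1 hR.1, BMGen_inj F a1 hR',
    fun e => a2 ⟨a1, δ, hR, e⟩, fun I _ => ⟨?_, ?_⟩⟩
  · exact by_contra fun hv => a3 I ⟨a1, δ, hR, hv⟩
  · exact by_contra fun hv => a4 I ⟨a1, δ, hR, hv⟩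

theorem rk_zeroM (hρ : 1 ≤ ρ) (hκ : Fintype.card κ + 1 = NP ρ) (g : κ ≃ Mb (eP ρ)) (F : MFam κ)
    {πz πw : Pivs κ ρ} (hr : rk ρ πz πw ≤ 0) {t δ : ℂ} (ht : t ∉ F.Z) (h : δ ^ 2 = F.D t)
    (hδ : δ ≠ 0) (hG : Good ρ g πz πw (F.z t δ) (F.τ t δ) (F.z t (-δ)) (F.τ t (-δ)))
    (i j k l : κ) :
    deriv (fun u => F.dd i j u ^ 2) t * F.dd k l t ^ 2 =
      F.dd i j t ^ 2 * deriv (fun u => F.dd k l u ^ 2) t := by
  have hmN : mP ρ ≤ NP ρ := by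
    have : ρ ≤ ρ ^ 2 := Nat.le_self_pow two_ne_zero ρ
    simp only [mP, NP]
    omega
  have hy : 0 < yC ρ := by
    unfold yC
    have h1 : (0 : ℝ) < ρ := by exact_mod_cast hρ
    have h2 : (0 : ℝ) < ((NP ρ).choose (mP ρ) : ℝ) := by exact_mod_cast Nat.choose_pos hmN
    positivity
  obtain ⟨I, hI1, -, hI⟩ := Finset.exists_subsuperset_card_eq
    (s := ({none, some i, some j, some k, some l} : Finset (Option κ))) (t := Finset.univ)
    (n := mP ρ) (Finset.subset_univ _)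
    ((Finset.card_le_five).trans (by simp only [mP]; omega))
    (by rw [Finset.card_univ, Fintype.card_option, hκ]; exact hmN)
  have hII : I ∈ II κ ρ := Finset.mem_powersetCard.2 ⟨Finset.subset_univ _, hI⟩
  have hsum : ∑ I ∈ II κ ρ, (((πz I).r : ℝ) + (πw I).r) ≤ 0 := by
    unfold rk at hr
    exact nonpos_of_mul_nonpos_right hr hy |>.trans le_rfl
  have hle := Finset.single_le_sum (f := fun I => ((πz I).r : ℝ) + (πw I).r)
    (fun I _ => by positivity) hII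
  have hz0 : (πz I).r = 0 := by
    have h1 : ((πz I).r : ℝ) ≤ 0 := by
      have : (0 : ℝ) ≤ (πw I).r := Nat.cast_nonneg _
      linarith
    exact Nat.le_zero.1 (by exact_mod_cast h1)
  have hw0 : (πw I).r = 0 := by
    have h1 : ((πw I).r : ℝ) ≤ 0 := by
      have : (0 : ℝ) ≤ (πz I).r := Nat.cast_nonneg _
      linarith
    exact Nat.le_zero.1 (by exact_mod_cast h1)
  obtain ⟨g1, g2, -, g3⟩ := hG
  obtain ⟨v1, v2⟩ := g3 I hII
  have hc : Fintype.card I.eraseNone = pP ρ + qP ρ + 1 := by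
    rw [Fintype.card_coe, Finset.card_eraseNone_of_mem (hI1 (by simp)), hI]
    simp only [mP, pP, qP]
    omega
  have hp : 1 ≤ pP ρ := by simp only [pP]; omega
  have hq : 1 ≤ qP ρ := by simp only [qP]; omega
  obtain ⟨α, β, hα⟩ := affine_of_theta (z := rs I (F.z t δ))
    (fun a b e => Subtype.ext (g1 e)) hp hq hc (v1.eq_zero hz0)
  obtain ⟨α', β', hα'⟩ := affine_of_theta (z := rs I (F.z t (-δ)))
    (fun a b e => Subtype.ext (g2 e)) hp hq hc (v2.eq_zero hw0)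
  have key : ∀ a b, some a ∈ I → some b ∈ I →
      deriv (fun u => F.dd a b u ^ 2) t = (α + α') * F.dd a b t ^ 2 := by
    intro a b ha hb
    have e1 : F.τ t δ a = α * F.z t δ a + β := hα ⟨a, Finset.mem_eraseNone.2 ha⟩
    have e2 : F.τ t δ b = α * F.z t δ b + β := hα ⟨b, Finset.mem_eraseNone.2 hb⟩
    have e3 : F.τ t (-δ) a = α' * F.z t (-δ) a + β' := hα' ⟨a, Finset.mem_eraseNone.2 ha⟩
    have e4 : F.τ t (-δ) b = α' * F.z t (-δ) b + β' := hα' ⟨b, Finset.mem_eraseNone.2 hb⟩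
    rw [← F.deriv_eq ht h hδ a b, ← F.prod_eq ht h a b, e1, e2, e3, e4]
    ring
  rw [key i j (hI1 (by simp)) (hI1 (by simp)), key k l (hI1 (by simp)) (hI1 (by simp))]
  ring

end Pool.Agent.P.MP_a62d3c_co.FF
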