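import Pool.Agent.P.MP_a62d3c_co.FB.MCore
import Pool.Agent.P.MP_a62d3c_co.FF.Geo
import Pool.Agent.P.MP_a62d3c_co.FF.LA

namespace Pool.Agent.P.MP_a62d3c_co.FF

open Filter Topology Polynomial MeasureTheory Asymptotics
open scoped ComplexConjugate Matrix ComplexOrder

/-- restriction of a family to a subset -/
def MFam.res {ι : Type} (F : MFam ι) (K : Finset ι) : MFam K :=
  ⟨fun i => F.x i.1, fun i => F.η i.1, F.D, fun i j => F.dd i.1 j.1, F.Z, F.disc,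
    fun i => F.mx i.1, fun i => F.mη i.1, F.mD, fun i j => F.mdd i.1 j.1, F.D_ne,
    fun t ht i j hij => F.dd_ne t ht i.1 j.1 fun e => hij (Subtype.ext e),
    fun t ht i j => F.ident t ht i.1 j.1⟩

theorem MR_core {ι : Type} [Fintype ι] [DecidableEq ι] {ρ : ℕ} (hρ : 2 ^ 22 ≤ ρ) (F : MFam ι)
    {t₀ δ₀ : ℂ} (ht : t₀ ∉ F.Z) (h0 : δ₀ ^ 2 = F.D t₀)
    (h : ∀ c : Mb (eP ρ) → ℂ, (∀ i, ∑ m, c m * (F.z t₀ δ₀ i ^ (m.1.1 : ℕ) *
      F.z t₀ (-δ₀) i ^ (m.1.2 : ℕ)) = 0) → c = 0) (i j k l : ι) (hkl : k ≠ l) {t : ℂ}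
    (ht' : t ∉ F.Z) : F.dd i j t ^ 2 * F.dd k l t₀ ^ 2 = F.dd k l t ^ 2 * F.dd i j t₀ ^ 2 := by
  have hz : Function.Injective (F.z t₀ δ₀) := by
    intro a b e
    by_contra hab
    have := F.prod_eq ht h0 a b
    rw [e, sub_self, zero_mul] at this
    exact F.dd_ne t₀ ht a b hab (pow_eq_zero_iff two_ne_zero |>.1 this.symm)
  have he : 5 ≤ eP ρ := by
    have : 1 ≤ ρ := le_trans (by norm_num) hρ
    simp only [eP]; omega
  obtain ⟨K, hK, g, hg⟩ := la_ext he (F.z t₀ δ₀) (F.z t₀ (-δ₀)) hz h {i, j, k, l}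
    Finset.card_le_four
  exact coreM hρ g (F.res K) (t₀ := t₀) (δ₀ := δ₀) ht h0 hg
    ⟨i, hK (by simp)⟩ ⟨j, hK (by simp)⟩ ⟨k, hK (by simp)⟩ ⟨l, hK (by simp)⟩
    (fun e => hkl (congrArg Subtype.val e)) ht'

section
variable {ι : Type} (d : ι → ι → ℂ → ℂ) (A B c : ι)

/-- scalar product with `P B - P A` -/
noncomputable def MR_X (i : ι) (t : ℂ) : ℂ := 2⁻¹ * (d A i t ^ 2 + d A B t ^ 2 - d B i t ^ 2)

/-- product of two areas -/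
noncomputable def MR_P (i j : ι) (t : ℂ) : ℂ :=
  2⁻¹ * (d A B t ^ 2 * (d A i t ^ 2 + d A j t ^ 2 - d i j t ^ 2)) - MR_X d A B i t * MR_X d A B j t

variable {d A B c} {t : ℂ} {a b : ι → ℂ} {Z : Set ℂ}

theorem MR_X_ma (h : ∀ i j, MA Z (d i j)) (i : ι) : MA Z (MR_X d A B i) :=
  (ma_const _).mul ((((h A i).pow 2).add ((h A B).pow 2)).sub ((h B i).pow 2))

theorem MR_P_ma (h : ∀ i j, MA Z (d i j)) (i j : ι) : MA Z (MR_P d A B i j) :=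
  ((ma_const _).mul (((h A B).pow 2).mul
    ((((h A i).pow 2).add ((h A j).pow 2)).sub ((h i j).pow 2)))).sub
      ((MR_X_ma h i).mul (MR_X_ma h j))

theorem MR_X_eval (h : ∀ i j, d i j t ^ 2 = (a i - a j) ^ 2 + (b i - b j) ^ 2) (i : ι) :
    MR_X d A B i t = (a i - a A) * (a B - a A) + (b i - b A) * (b B - b A) := by
  simp only [MR_X, h]
  ring

theorem MR_P_eval (h : ∀ i j, d i j t ^ 2 = (a i - a j) ^ 2 + (b i - b j) ^ 2) (i j : ι) :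
    MR_P d A B i j t = ((a B - a A) * (b i - b A) - (b B - b A) * (a i - a A)) *
      ((a B - a A) * (b j - b A) - (b B - b A) * (a j - a A)) := by
  simp only [MR_P, h, MR_X_eval h]
  ring

theorem MR_ident (h : ∀ i j, d i j t ^ 2 = (a i - a j) ^ 2 + (b i - b j) ^ 2) (i j : ι) :
    (MR_P d A B c c t * MR_X d A B i t - MR_P d A B c c t * MR_X d A B j t) ^ 2 -
      (MR_P d A B i c t - MR_P d A B j c t) ^ 2 * (-MR_P d A B c c t) -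
        (MR_P d A B c c t * d A B t * d i j t) ^ 2 = 0 := by
  have aux : ∀ xi xj yi yj yc v w : ℂ, (xi - xj) ^ 2 + (yi - yj) ^ 2 = v * w →
      (yc * yc * xi - yc * yc * xj) ^ 2 - (yi * yc - yj * yc) ^ 2 * -(yc * yc) -
        yc ^ 2 * yc ^ 2 * v * w = 0 := fun xi xj yi yj yc v w e => by
    linear_combination yc ^ 4 * e
  simp only [mul_pow, MR_P_eval h]
  refine aux _ _ _ _ _ _ _ ?_
  rw [MR_X_eval h, MR_X_eval h, h, h]
  ring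

end

theorem MR_dist (p q : Pt) : ((dist p q : ℝ) : ℂ) ^ 2 =
    (((p 0 : ℝ) : ℂ) - (q 0 : ℝ)) ^ 2 + (((p 1 : ℝ) : ℂ) - (q 1 : ℝ)) ^ 2 := by
  have h1 : dist p q ^ 2 = (p 0 - q 0) ^ 2 + (p 1 - q 1) ^ 2 := by
    rw [EuclideanSpace.dist_eq, Real.sq_sqrt (Finset.sum_nonneg fun _ _ => sq_nonneg _)]
    simp [Fin.sum_univ_two, Real.dist_eq]
  exact_mod_cast h1

theorem finalM : ∃ S : Finset Pt, Stretched S ∧
    ∀ (n : ℕ) (d : Fin n → Fin n → ℂ → ℂ) (p : Fin n → Pt) (t₀ : ℂ),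
      (∀ i j, Meromorphic (d i j)) →
      (∃ a : ℂ, ∃ᶠ t in 𝓝[≠] a, ∃ u v : Fin n → ℂ,
        ∀ i j, d i j t ^ 2 = (u i - u j) ^ 2 + (v i - v j) ^ 2) →
      (∀ i j, AnalyticAt ℂ (d i j) t₀) →
      (∀ i j, d i j t₀ ^ 2 = ((dist (p i) (p j) : ℝ) : ℂ) ^ 2) → Function.Injective p →
      ∀ f : Pt → Fin n,
        (∀ a ∈ S, ∀ b ∈ S, ∀ c ∈ S, orient (p (f a)) (p (f b)) (p (f c)) = orient a b c) →
        ∀ t, (∀ i j, AnalyticAt ℂ (d i j) t) →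
          ∃ r : ℂ, ∀ i j, d i j t ^ 2 = r * ((dist (p i) (p j) : ℝ) : ℂ) ^ 2 := by
  obtain ⟨ρ, hρ⟩ : ∃ ρ : ℕ, 2 ^ 22 ≤ ρ := ⟨_, le_rfl⟩
  obtain ⟨S, hS, h3, hgeo⟩ := geo (2 * eP ρ)
  refine ⟨S, hS, fun n d p t₀ hm ⟨a₀, hT⟩ ha₀ hd hinj f hf t hat => ?_⟩
  obtain ⟨a, ha, b, hb, c₀, hc, hab, hac, hbc⟩ := Finset.two_lt_card.1 h3
  have hor : det3 (p (f a)) (p (f b)) (p (f c₀)) ≠ 0 := by
    have := hS.1 a ha b hb c₀ hc hab hac hbc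
    rw [← hf a ha b hb c₀ hc, orient_eq] at this
    exact fun e => this (by simp [e])
  obtain ⟨A, hA⟩ : ∃ A, A = f a := ⟨_, rfl⟩
  obtain ⟨B, hB⟩ : ∃ B, B = f b := ⟨_, rfl⟩
  obtain ⟨c, hc'⟩ : ∃ c, c = f c₀ := ⟨_, rfl⟩
  rw [← hA, ← hB, ← hc'] at hor
  have hAB : A ≠ B := fun e => hor (by rw [e]; simp [det3])
  have hd0 : ∀ i j, i ≠ j → d i j t₀ ≠ 0 := fun i j hij e => by
    have := hd i j
    rw [e, zero_pow two_ne_zero, eq_comm, pow_eq_zero_iff two_ne_zero, Complex.ofReal_eq_zero,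
      dist_eq_zero] at this
    exact hij (hinj this)
  have hsq : ∀ i j, d i j t₀ ^ 2 = (((p i 0 : ℝ) : ℂ) - (p j 0 : ℝ)) ^ 2 +
      (((p i 1 : ℝ) : ℂ) - (p j 1 : ℝ)) ^ 2 := fun i j => by rw [hd, MR_dist]
  obtain ⟨Y, hY⟩ : ∃ Y : ℝ, Y = det3 (p A) (p B) (p c) := ⟨_, rfl⟩
  have hY0 : (Y : ℂ) ≠ 0 := Complex.ofReal_ne_zero.2 (hY ▸ hor)
  have hcc : MR_P d A B c c t₀ = (Y : ℂ) ^ 2 := by
    rw [MR_P_eval hsq, hY, det3]
    push_cast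
    ring
  obtain ⟨Z₀, hZ₀⟩ : ∃ Z₀ : Set ℂ, Z₀ = ⋃ r : Fin n × Fin n, {u | ¬AnalyticAt ℂ (d r.1 r.2) u} :=
    ⟨_, rfl⟩
  have hmem : ∀ u, u ∉ Z₀ ↔ ∀ i j, AnalyticAt ℂ (d i j) u := fun u => by simp [hZ₀]
  have hZ₀d : Disc Z₀ := hZ₀ ▸ disc_iUnion fun r => disc_not_analytic (hm r.1 r.2)
  have hma : ∀ i j, MA Z₀ (d i j) := fun i j => ⟨hm i j, fun u hu => (hmem u).1 hu i j⟩
  have ht₀ : t₀ ∉ Z₀ := (hmem t₀).2 ha₀
  obtain ⟨Z, hZ⟩ : ∃ Z : Set ℂ, Z = (Z₀ ∪ {u | MR_P d A B c c u = 0}) ∪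
      ⋃ r : {r : Fin n × Fin n // r.1 ≠ r.2}, {u | d r.1.1 r.1.2 u = 0} := ⟨_, rfl⟩
  have hmemZ : ∀ u, u ∉ Z ↔ u ∉ Z₀ ∧ MR_P d A B c c u ≠ 0 ∧ ∀ i j, i ≠ j → d i j u ≠ 0 :=
    fun u => by simp [hZ, and_assoc]
  have hZd : Disc Z := hZ ▸ (hZ₀d.union (disc_zeros (MR_P_ma hma c c).1
    ((MR_P_ma hma c c).2 t₀ ht₀) (by rw [hcc]; exact pow_ne_zero 2 hY0))).union
      (disc_iUnion fun r => disc_zeros (hm _ _) (ha₀ _ _) (hd0 _ _ r.2))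
  have hsub : Z₀ ⊆ Z := fun u hu => by
    by_contra hn
    exact ((hmemZ u).1 hn).1 hu
  have hma' : ∀ i j, MA Z (d i j) := fun i j => (hma i j).mono hsub
  have ht₀' : t₀ ∉ Z := (hmemZ t₀).2 ⟨ht₀, by rw [hcc]; exact pow_ne_zero 2 hY0, hd0⟩
  obtain ⟨F, hx, hη, hD, hdd, hFZ⟩ : ∃ F : MFam (Fin n),
      (∀ i u, F.x i u = MR_P d A B c c u * MR_X d A B i u) ∧
      (∀ i u, F.η i u = MR_P d A B i c u) ∧ (∀ u, F.D u = -MR_P d A B c c u) ∧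
      (∀ i j u, F.dd i j u = MR_P d A B c c u * d A B u * d i j u) ∧ F.Z = Z := by
    refine ⟨⟨fun i u => MR_P d A B c c u * MR_X d A B i u, fun i u => MR_P d A B i c u,
      fun u => -MR_P d A B c c u, fun i j u => MR_P d A B c c u * d A B u * d i j u, Z, hZd,
      fun i => (MR_P_ma hma' c c).mul (MR_X_ma hma' i), fun i => MR_P_ma hma' i c,
      (MR_P_ma hma' c c).neg, fun i j => ((MR_P_ma hma' c c).mul (hma' A B)).mul (hma' i j),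
      fun u hu => neg_ne_zero.2 ((hmemZ u).1 hu).2.1,
      fun u hu i j hij => mul_ne_zero (mul_ne_zero ((hmemZ u).1 hu).2.1
        (((hmemZ u).1 hu).2.2 A B hAB)) (((hmemZ u).1 hu).2.2 i j hij), fun u hu i j => ?_⟩,
      fun _ _ => rfl, fun _ _ => rfl, fun _ => rfl, fun _ _ _ => rfl, rfl⟩
    have hM := ((((((MR_P_ma (A := A) (B := B) hma' c c).mul (MR_X_ma (A := A) (B := B) hma' i)).sub
      ((MR_P_ma (A := A) (B := B) hma' c c).mul (MR_X_ma (A := A) (B := B) hma' j))).pow 2).sub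
      ((((MR_P_ma (A := A) (B := B) hma' i c).sub (MR_P_ma (A := A) (B := B) hma' j c)).pow 2).mul
        (MR_P_ma (A := A) (B := B) hma' c c).neg)).sub
      ((((MR_P_ma (A := A) (B := B) hma' c c).mul (hma' A B)).mul (hma' i j)).pow 2))
    exact sub_eq_zero.1 (zero_of_frequently hM.1
      (hT.mono fun u ⟨_, _, h⟩ => MR_ident h i j) (hM.2 u hu))
  obtain ⟨A₁, hA₁⟩ : ∃ A₁ : ℂ, A₁ = (Y : ℂ) ^ 2 * (((p B 0 - p A 0 : ℝ) : ℂ) -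
    Complex.I * ((p B 1 - p A 1 : ℝ) : ℂ)) := ⟨_, rfl⟩
  obtain ⟨A₀, hA₀⟩ : ∃ A₀ : ℂ, A₀ = -(A₁ * (p A 0 : ℝ) + Complex.I * A₁ * (p A 1 : ℝ)) := ⟨_, rfl⟩
  have hη' : ∀ i, MR_P d A B i c t₀ =
      (((p B 0 - p A 0) * (p i 1 - p A 1) - (p B 1 - p A 1) * (p i 0 - p A 0) : ℝ) : ℂ) * Y := by
    intro i
    rw [MR_P_eval hsq, hY, det3]
    push_cast
    ring
  have hz : ∀ i, F.z t₀ (Complex.I * Y) i =
      A₀ + A₁ * (p i 0 : ℝ) + Complex.I * A₁ * (p i 1 : ℝ) := fun i => by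
    rw [MFam.z, hx, hη, hcc, MR_X_eval hsq, hη', hA₀, hA₁]
    push_cast
    linear_combination (Y : ℂ) ^ 2 * ((p B 1 : ℝ) - (p A 1 : ℝ) : ℂ) *
      ((p i 1 : ℝ) - (p A 1 : ℝ) : ℂ) * Complex.I_sq
  have hw : ∀ i, F.z t₀ (-(Complex.I * Y)) i =
      conj (A₀ + A₁ * (p i 0 : ℝ) + Complex.I * A₁ * (p i 1 : ℝ)) := fun i => by
    rw [← hz, MFam.z, MFam.z, hx, hη, hcc, MR_X_eval hsq, hη']
    simp only [map_add, map_mul, map_sub, map_pow, Complex.conj_ofReal, Complex.conj_I]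
    ring
  have h0 : (Complex.I * Y) ^ 2 = F.D t₀ := by
    rw [hD, hcc, mul_pow, Complex.I_sq]; ring
  have htF : t₀ ∉ F.Z := hFZ ▸ ht₀'
  have hA1 : A₁ ≠ 0 := by
    intro e
    have := F.prod_eq htF h0 A B
    rw [hz A, hz B, e] at this
    simp only [zero_mul, mul_zero, add_zero, sub_self] at this
    exact F.dd_ne t₀ htF A B hAB (pow_eq_zero_iff two_ne_zero |>.1 this.symm)
  have key : ∀ i j, d i j t ^ 2 * d A B t₀ ^ 2 = d A B t ^ 2 * d i j t₀ ^ 2 := by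
    intro i j
    have hM := (((hma i j).pow 2).mul (ma_const (d A B t₀ ^ 2))).sub
      (((hma A B).pow 2).mul (ma_const (d i j t₀ ^ 2)))
    refine sub_eq_zero.1 (zero_of_frequently (a := 0) hM.1
      ((hZd 0).mono fun u hu => ?_).frequently (hM.2 t ((hmem t).2 hat)))
    have h1 := MR_core hρ F (t₀ := t₀) (δ₀ := Complex.I * Y) htF h0
      (fun c hc => la_real p A₀ A₁ (Complex.I * A₁)
        (by
          have : (conj A₁ * (Complex.I * A₁)).im = Complex.normSq A₁ := by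
            simp [Complex.normSq_apply]
          rw [this]
          exact (Complex.normSq_pos.2 hA1).ne')
        (fun G hG hG0 => hgeo (fun x => p (f x)) hf G hG fun x _ => hG0 _) c
        fun i => by rw [← hw, ← hz]; exact hc i) i j A B hAB (t := u) (hFZ ▸ hu)
    rw [hdd, hdd, hdd, hdd] at h1
    have q1 := mul_ne_zero ((hmemZ u).1 hu).2.1 (((hmemZ u).1 hu).2.2 A B hAB)
    have q2 := mul_ne_zero ((hmemZ t₀).1 ht₀').2.1 (hd0 A B hAB)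
    generalize MR_P d A B c c u * d A B u = Q at h1 q1
    generalize MR_P d A B c c t₀ * d A B t₀ = Q₀ at h1 q2
    refine mul_left_cancel₀ (mul_ne_zero (pow_ne_zero 2 q1) (pow_ne_zero 2 q2)) ?_
    linear_combination h1
  refine ⟨d A B t ^ 2 / d A B t₀ ^ 2, fun i j => ?_⟩
  rw [← hd i j, div_mul_eq_mul_div, eq_div_iff (pow_ne_zero 2 (hd0 A B hAB))]
  exact key i j

end Pool.Agent.P.MP_a62d3c_co.FF
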