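import Pool.Agent.P.MP_a62d3c_co.FB.MA

namespace Pool.Agent.P.MP_a62d3c_co.FF

open Filter Topology Polynomial MeasureTheory Asymptotics
open scoped ComplexConjugate Matrix ComplexOrder

/-! Meromorphic version of FF/Reg.lean. -/

variable {Z : Set ℂ} {D : ℂ → ℂ} {f h : ℂ → ℂ → ℂ}

theorem regM_ma {P : ℂ → ℂ} (hP : MA Z P) : RegM Z D fun t _ => P t :=
  ⟨P, fun _ => 0, hP, ma_const 0, fun t _ δ _ => by simp⟩

theorem regM_const (c : ℂ) : RegM Z D fun _ _ => c :=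
  ⟨fun _ => c, fun _ => 0, ma_const c, ma_const 0, fun t _ δ _ => by simp⟩

theorem regM_delta : RegM Z D fun _ δ => δ :=
  ⟨fun _ => 0, fun _ => 1, ma_const 0, ma_const 1, fun t _ δ _ => by simp⟩

theorem RegM.congr (hf : RegM Z D f) (he : ∀ t, t ∉ Z → ∀ δ, δ ^ 2 = D t → f t δ = h t δ) :
    RegM Z D h := by
  obtain ⟨P, Q, hP, hQ, H⟩ := hf
  exact ⟨P, Q, hP, hQ, fun t h1 δ h2 => by rw [← he t h1 δ h2, H t h1 δ h2]⟩

theorem RegM.add (hf : RegM Z D f) (hh : RegM Z D h) : RegM Z D fun t δ => f t δ + h t δ := by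
  obtain ⟨P, Q, hP, hQ, H⟩ := hf
  obtain ⟨P', Q', hP', hQ', H'⟩ := hh
  refine ⟨_, _, hP.add hP', hQ.add hQ', fun t h1 δ h2 => ?_⟩
  linear_combination H t h1 δ h2 + H' t h1 δ h2

theorem RegM.mul (hD : MA Z D) (hf : RegM Z D f) (hh : RegM Z D h) :
    RegM Z D fun t δ => f t δ * h t δ := by
  obtain ⟨P, Q, hP, hQ, H⟩ := hf
  obtain ⟨P', Q', hP', hQ', H'⟩ := hh
  refine ⟨_, _, (hP.mul hP').add ((hQ.mul hQ').mul hD), (hP.mul hQ').add (hQ.mul hP'),
    fun t h1 δ h2 => ?_⟩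
  linear_combination h t δ * H t h1 δ h2 + (P t + Q t * δ) * H' t h1 δ h2 + Q t * Q' t * h2

theorem RegM.neg (hf : RegM Z D f) : RegM Z D fun t δ => -f t δ := by
  obtain ⟨P, Q, hP, hQ, H⟩ := hf
  refine ⟨_, _, hP.neg, hQ.neg, fun t h1 δ h2 => ?_⟩
  linear_combination -H t h1 δ h2

theorem RegM.pow (hD : MA Z D) (hf : RegM Z D f) (n : ℕ) :
    RegM Z D fun t δ => f t δ ^ n := by
  induction n with
  | zero => exact (regM_const 1).congr fun t _ δ _ => (pow_zero _).symm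
  | succ n ih => exact (ih.mul hD hf).congr fun t _ δ _ => (pow_succ _ _).symm

theorem RegM.flip (hf : RegM Z D f) : RegM Z D fun t δ => f t (-δ) := by
  obtain ⟨P, Q, hP, hQ, H⟩ := hf
  refine ⟨_, _, hP, hQ.neg, fun t h1 δ h2 => ?_⟩
  linear_combination H t h1 (-δ) (by rw [neg_sq, h2])

theorem RegM.sum {ι : Type*} {A : Finset ι} {F : ι → ℂ → ℂ → ℂ} (hF : ∀ i ∈ A, RegM Z D (F i)) :
    RegM Z D fun t δ => ∑ i ∈ A, F i t δ := by
  classical
  induction A using Finset.induction_on with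
  | empty => exact (regM_const 0).congr fun t _ δ _ => by simp
  | insert a A ha ih =>
    exact ((hF a (Finset.mem_insert_self a A)).add
      (ih fun i hi => hF i (Finset.mem_insert_of_mem hi))).congr fun t _ δ _ => by
        rw [Finset.sum_insert ha]

theorem RegM.prod (hD : MA Z D) {ι : Type*} {A : Finset ι} {F : ι → ℂ → ℂ → ℂ}
    (hF : ∀ i ∈ A, RegM Z D (F i)) : RegM Z D fun t δ => ∏ i ∈ A, F i t δ := by
  classical
  induction A using Finset.induction_on with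
  | empty => exact (regM_const 1).congr fun t _ δ _ => by simp
  | insert a A ha ih =>
    exact ((hF a (Finset.mem_insert_self a A)).mul hD
      (ih fun i hi => hF i (Finset.mem_insert_of_mem hi))).congr fun t _ δ _ => by
        rw [Finset.prod_insert ha]

theorem RegM.det (hD : MA Z D) {n : Type*} [Fintype n] [DecidableEq n]
    {A : ℂ → ℂ → Matrix n n ℂ} (hA : ∀ i j, RegM Z D fun t δ => A t δ i j) :
    RegM Z D fun t δ => (A t δ).det :=
  (RegM.sum (A := Finset.univ)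
    (F := fun (σ : Equiv.Perm n) t δ => ((Equiv.Perm.sign σ : ℤ) : ℂ) * ∏ i, A t δ (σ i) i)
    fun σ _ => (regM_const _).mul hD (RegM.prod hD fun i _ => hA (σ i) i)).congr fun t _ δ _ =>
      (Matrix.det_apply' _).symm

/-- (ID). If `D = 1`: `disc_zeros` for `P + Q`. Otherwise, if the norm `P² - Q² D` is nonzero at some point
outside `Z` use `disc_zeros`; if it vanishes outside `Z` then `Q t₀ ≠ 0` (else `P t₀ = 0`), the zeros of
`Q` are discrete and `D = (P / Q)²` outside a discrete set, so `SqM D`. -/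
theorem RegM.disc (hf : RegM Z D f) (hZ : Disc Z) (hD : MA Z D)
    (hsq : (D = fun _ => 1) ∨ ¬SqM D) {t₀ δ₀ : ℂ} (ht : t₀ ∉ Z) (h0 : RtM D t₀ δ₀)
    (hf0 : f t₀ δ₀ ≠ 0) : Disc {t | t ∉ Z ∧ ∃ δ, RtM D t δ ∧ f t δ = 0} := by
  obtain ⟨P, Q, hP, hQ, H⟩ := hf
  have h1 : P t₀ + Q t₀ * δ₀ ≠ 0 := by
    rw [← H t₀ ht δ₀ h0.1]
    exact hf0
  rcases hsq with hsq | hsq
  · have h2 : P t₀ + Q t₀ ≠ 0 := by
      rw [h0.2 hsq, mul_one] at h1
      exact h1
    refine (disc_zeros (hP.add hQ).1 ((hP.add hQ).2 t₀ ht) h2).mono ?_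
    rintro t ⟨ht', δ, hδ, h3⟩
    have h4 := H t ht' δ hδ.1
    rw [h3, hδ.2 hsq, mul_one] at h4
    exact h4.symm
  · have hN := (hP.pow 2).sub ((hQ.pow 2).mul hD)
    have h2 : ∃ t, t ∉ Z ∧ P t ^ 2 - Q t ^ 2 * D t ≠ 0 := by
      by_contra hc
      have e : ∀ t, t ∉ Z → P t ^ 2 - Q t ^ 2 * D t = 0 := fun t h5 => by
        by_contra h6
        exact hc ⟨t, h5, h6⟩
      have hQ0 : Q t₀ ≠ 0 := by
        intro h5
        have h6 := e t₀ ht
        rw [h5] at h6 h1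
        have : P t₀ = 0 := by simpa using h6
        rw [this] at h1
        simp at h1
      refine hsq ⟨fun t => P t / Q t, Z ∪ {t | Q t = 0}, hP.1.div hQ.1,
        hZ.union (disc_zeros hQ.1 (hQ.2 t₀ ht) hQ0), fun t h5 => ?_⟩
      have h6 : t ∉ Z := fun h7 => h5 (Or.inl h7)
      have h7 : Q t ≠ 0 := fun h7 => h5 (Or.inr h7)
      have h8 := e t h6
      rw [div_pow, eq_div_iff (pow_ne_zero 2 h7)]
      linear_combination -h8
    obtain ⟨t₁, h5, h6⟩ := h2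
    refine (disc_zeros hN.1 (hN.2 t₁ h5) h6).mono ?_
    rintro t ⟨ht', δ, hδ, h3⟩
    have h4 := H t ht' δ hδ.1
    rw [h3] at h4
    change P t ^ 2 - Q t ^ 2 * D t = 0
    linear_combination (Q t * δ - P t) * h4 + Q t ^ 2 * hδ.1

end Pool.Agent.P.MP_a62d3c_co.FF
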