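import Pool.Agent.P.MP_a62d3c_co.FB.Defs

namespace Pool.Agent.P.MP_a62d3c_co.FF

open Filter Topology Polynomial MeasureTheory Asymptotics
open scoped ComplexConjugate Matrix ComplexOrder

/-- a fixed bump function with bounded derivative -/
theorem BShep_bump : ∃ (φ : ℂ → ℝ) (C : ℝ), 0 < C ∧ ContDiff ℝ 1 φ ∧ φ 0 = 1 ∧
    (∀ y, 1 ≤ ‖y‖ → φ y = 0) ∧ (∀ y, ‖fderiv ℝ φ y‖ ≤ C) ∧ ∀ y, |φ y| ≤ 1 := by
  let f : ContDiffBump (0 : ℂ) := ⟨1 / 2, 1, by norm_num, by norm_num⟩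
  have hf : ContDiff ℝ 1 f := f.contDiff
  obtain ⟨C, hC⟩ := (f.hasCompactSupport.fderiv (𝕜 := ℝ)).exists_bound_of_continuous
    (hf.continuous_fderiv one_ne_zero)
  refine ⟨f, |C| + 1, by positivity, hf, ?_, ?_, ?_, ?_⟩
  · apply f.one_of_mem_closedBall
    exact Metric.mem_closedBall_self f.rIn_pos.le
  · intro y hy
    apply f.zero_of_le_dist
    simpa [f] using hy
  · intro y
    exact (hC y).trans ((le_abs_self C).trans (by linarith))
  · intro y
    rw [abs_of_nonneg f.nonneg]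
    exact f.le_one

/-- a rescaled bump of height `δ` and radius `r` at `a` -/
theorem BShep_scaled {φ : ℂ → ℝ} {C : ℝ} (hφ : ContDiff ℝ 1 φ) (hC : ∀ y, ‖fderiv ℝ φ y‖ ≤ C)
    (a δ : ℂ) {r : ℝ} (hr : 0 < r) :
    ContDiff ℝ 1 (fun x : ℂ => φ (r⁻¹ • (x - a)) • δ) ∧
      ∀ x, ‖fderiv ℝ (fun x : ℂ => φ (r⁻¹ • (x - a)) • δ) x‖ ≤ C * r⁻¹ * ‖δ‖ := by
  have hl : ContDiff ℝ 1 (fun x : ℂ => r⁻¹ • (x - a)) := by fun_prop
  refine ⟨(hφ.comp hl).smul contDiff_const, fun x => ?_⟩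
  have h1 : HasFDerivAt (fun x : ℂ => r⁻¹ • (x - a)) (r⁻¹ • ContinuousLinearMap.id ℝ ℂ) x :=
    ((hasFDerivAt_id x).sub_const a).const_smul r⁻¹
  have h2 : HasFDerivAt φ (fderiv ℝ φ (r⁻¹ • (x - a))) (r⁻¹ • (x - a)) :=
    (hφ.differentiable one_ne_zero _).hasFDerivAt
  have h3 := (h2.comp x h1).smul_const δ
  have h4 : fderiv ℝ (fun x : ℂ => φ (r⁻¹ • (x - a)) • δ) x =
      ((fderiv ℝ φ (r⁻¹ • (x - a))).comp (r⁻¹ • ContinuousLinearMap.id ℝ ℂ)).smulRight δ :=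
    h3.fderiv
  rw [h4, ContinuousLinearMap.norm_smulRight_apply]
  refine mul_le_mul_of_nonneg_right ?_ (norm_nonneg _)
  refine (ContinuousLinearMap.opNorm_comp_le _ _).trans ?_
  have h5 : ‖r⁻¹ • ContinuousLinearMap.id ℝ ℂ‖ ≤ r⁻¹ := by
    rw [norm_smul, Real.norm_eq_abs, abs_of_pos (inv_pos.2 hr)]
    exact mul_le_of_le_one_right (inv_pos.2 hr).le ContinuousLinearMap.norm_id_le
  exact mul_le_mul (hC _) h5 (norm_nonneg _) ((norm_nonneg _).trans (hC 0))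

/-- interpolation on a finite set of indices, one point at a time -/
theorem BShep_ind (J : Type) [DecidableEq J] (s : Finset J) : ∃ K, 0 < K ∧
    ∀ (z τ : J → ℂ) (L : ℝ), Function.Injective z → 0 ≤ L →
    (∀ i j, ‖τ i - τ j‖ ≤ L * ‖z i - z j‖) →
    ∃ g : ℂ → ℂ, ContDiff ℝ 1 g ∧ (∀ j ∈ s, g (z j) = τ j) ∧ (∀ x, ‖fderiv ℝ g x‖ ≤ K * L) ∧
      ∃ M, ∀ x, ‖g x‖ ≤ M := by
  obtain ⟨φ, C, hC0, hφ, hφ0, hφ1, hC, hφb⟩ := BShep_bump
  induction s using Finset.induction_on with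
  | empty =>
    refine ⟨1, one_pos, fun z τ L _ hL _ => ⟨fun _ => 0, contDiff_const, by simp, ?_, 0, by simp⟩⟩
    intro x
    simpa using hL
  | insert a s ha ih =>
    obtain ⟨K, hK, ih⟩ := ih
    refine ⟨K + C * (1 + K), by positivity, fun z τ L hz hL hτ => ?_⟩
    rcases s.eq_empty_or_nonempty with hs | hs
    · subst hs
      refine ⟨fun _ => τ a, contDiff_const, by simp, ?_, ‖τ a‖, by simp⟩
      intro x
      have : 0 ≤ (K + C * (1 + K)) * L := by positivity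
      simpa using this
    obtain ⟨g, hg, hgz, hgD, M, hM⟩ := ih z τ L hz hL hτ
    obtain ⟨j, hj, hmin⟩ := s.exists_min_image (fun i => ‖z i - z a‖) hs
    have hr : 0 < ‖z j - z a‖ := by
      rw [norm_pos_iff, sub_ne_zero]
      intro h
      exact ha (hz h ▸ hj)
    set r := ‖z j - z a‖ with hrdef
    obtain ⟨hb1, hb2⟩ := BShep_scaled hφ hC (z a) (τ a - g (z a)) hr
    have hδ : ‖τ a - g (z a)‖ ≤ (1 + K) * L * r := by
      have h1 : ‖g (z j) - g (z a)‖ ≤ K * L * ‖z j - z a‖ :=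
        (convex_univ (𝕜 := ℝ) (E := ℂ)).norm_image_sub_le_of_norm_fderiv_le
          (fun x _ => hg.differentiable one_ne_zero x) (fun x _ => hgD x) (Set.mem_univ _)
          (Set.mem_univ _)
      have h2 := hτ a j
      rw [norm_sub_rev (z a)] at h2
      have h3 : τ a - g (z a) = (τ a - τ j) + (g (z j) - g (z a)) := by
        rw [hgz j hj]; ring
      rw [h3]
      refine (norm_add_le _ _).trans ?_
      rw [← hrdef] at h1 h2
      nlinarith
    refine ⟨fun x => g x + φ (r⁻¹ • (x - z a)) • (τ a - g (z a)), hg.add hb1, ?_, ?_,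
      M + ‖τ a - g (z a)‖, ?_⟩
    · intro i hi
      rcases Finset.mem_insert.1 hi with rfl | hi
      · simp [hφ0]
      · have h1 : φ (r⁻¹ • (z i - z a)) = 0 := by
          apply hφ1
          rw [norm_smul, Real.norm_eq_abs, abs_of_pos (inv_pos.2 hr), ← div_eq_inv_mul,
            one_le_div hr]
          exact hmin i hi
        show g (z i) + φ (r⁻¹ • (z i - z a)) • (τ a - g (z a)) = τ i
        rw [h1, zero_smul, add_zero, hgz i hi]
    · intro x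
      have h1 : fderiv ℝ (fun x => g x + φ (r⁻¹ • (x - z a)) • (τ a - g (z a))) x =
          fderiv ℝ g x + fderiv ℝ (fun x : ℂ => φ (r⁻¹ • (x - z a)) • (τ a - g (z a))) x :=
        fderiv_add (hg.differentiable one_ne_zero x) (hb1.differentiable one_ne_zero x)
      rw [h1]
      refine (norm_add_le _ _).trans ?_
      have h2 : C * r⁻¹ * ‖τ a - g (z a)‖ ≤ C * r⁻¹ * ((1 + K) * L * r) :=
        mul_le_mul_of_nonneg_left hδ (by positivity)
      have h3 : C * r⁻¹ * ((1 + K) * L * r) = C * (1 + K) * L := by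
        field_simp
      have h4 := hgD x
      have h5 := hb2 x
      nlinarith
    · intro x
      refine (norm_add_le _ _).trans (add_le_add (hM x) ?_)
      rw [norm_smul, Real.norm_eq_abs]
      exact mul_le_of_le_one_left (norm_nonneg _) (hφb _)

/-- Shepard interpolation. `b j x = ∏_{k ≠ j} normSq (x - z k) ^ 2`, `g = ∑ b j τ j / ∑ b j`; the
denominator is positive everywhere. Away from the points, `χ j = b j / ∑ b = a j / ∑ a` with
`a j = |x - z j|⁻⁴`; with `z j₀` nearest to `x`: `D g = ∑ (τ j - τ j₀) D χ j`,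
`|D χ j| ≤ 8 χ j / |x - z j₀|`, `χ j ≤ (|x - z j₀| / |x - z j|) ^ 4`, `|τ j - τ j₀| ≤ 2 L |x - z j|`. At the
points themselves use continuity of the derivative. (Any other construction is fine.) -/
theorem shepard (J : Type) [Fintype J] [DecidableEq J] : ∃ K, 0 < K ∧ ∀ (z τ : J → ℂ) (L : ℝ),
    Function.Injective z → 0 ≤ L → (∀ i j, ‖τ i - τ j‖ ≤ L * ‖z i - z j‖) →
    ∃ g : ℂ → ℂ, ContDiff ℝ 1 g ∧ (∀ j, g (z j) = τ j) ∧ (∀ x, ‖fderiv ℝ g x‖ ≤ K * L) ∧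
      ∃ M, ∀ x, ‖g x‖ ≤ M := by
  obtain ⟨K, hK, h⟩ := BShep_ind J Finset.univ
  refine ⟨K, hK, fun z τ L hz hL hτ => ?_⟩
  obtain ⟨g, h1, h2, h3, h4⟩ := h z τ L hz hL hτ
  exact ⟨g, h1, fun j => h2 j (Finset.mem_univ j), h3, h4⟩

end Pool.Agent.P.MP_a62d3c_co.FF
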