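import Pool.Agent.P.MP_a62d3c_co.FB.Defs
import Pool.Agent.P.MP_a62d3c_co.FF.DBas

namespace Pool.Agent.P.MP_a62d3c_co.FF

open Filter Topology Polynomial MeasureTheory Asymptotics
open scoped ComplexConjugate Matrix ComplexOrder

/-! Uniform versions of FF/Bd0.lean and FF/DBas.lean (same proofs). -/

variable {X : Type} {F G : X → ℂ} {ω ω' : X → ℝ}

theorem Bw.mono (h : Bw F ω) (hω : ∀ x, ω' x ≤ ω x) : Bw F ω' := by
  obtain ⟨C, hC, h⟩ := h
  exact ⟨C, hC, fun x => (h x).trans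
    (mul_le_mul_of_nonneg_left (Real.exp_le_exp.2 (neg_le_neg (hω x))) hC.le)⟩

theorem Bw.of_le (h : Bw G ω) (hF : ∀ x, ‖F x‖ ≤ ‖G x‖) : Bw F ω := by
  obtain ⟨C, hC, h⟩ := h
  exact ⟨C, hC, fun x => (hF x).trans (h x)⟩

theorem Bw.congr (h : Bw F ω) (hF : ∀ x, F x = G x) : Bw G ω :=
  h.of_le fun x => by rw [hF x]

theorem bw_zero (ω : X → ℝ) : Bw (fun _ => 0) ω :=
  ⟨1, one_pos, fun x => by simpa using (Real.exp_pos _).le⟩

theorem bw_const (c : ℂ) : Bw (fun _ : X => c) fun _ => 0 :=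
  ⟨‖c‖ + 1, by positivity, fun x => by simp⟩

theorem bw_exp (ω : X → ℝ) : Bw (fun x => (Real.exp (-ω x) : ℂ)) ω :=
  ⟨1, one_pos, fun x => by
    rw [Complex.norm_real, Real.norm_of_nonneg (Real.exp_pos _).le, one_mul]⟩

theorem Bw.add (h : Bw F ω) (h' : Bw G ω) : Bw (fun x => F x + G x) ω := by
  obtain ⟨C, hC, h⟩ := h
  obtain ⟨C', hC', h'⟩ := h'
  refine ⟨C + C', by positivity, fun x => (norm_add_le _ _).trans ?_⟩
  rw [add_mul]
  exact add_le_add (h x) (h' x)

theorem Bw.neg (h : Bw F ω) : Bw (fun x => -F x) ω :=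
  h.of_le fun x => by rw [norm_neg]

theorem Bw.mul (h : Bw F ω) (h' : Bw G ω') : Bw (fun x => F x * G x) fun x => ω x + ω' x := by
  obtain ⟨C, hC, h⟩ := h
  obtain ⟨C', hC', h'⟩ := h'
  refine ⟨C * C', by positivity, fun x => ?_⟩
  rw [norm_mul, neg_add, Real.exp_add]
  calc ‖F x‖ * ‖G x‖ ≤ (C * Real.exp (-ω x)) * (C' * Real.exp (-ω' x)) :=
        mul_le_mul (h x) (h' x) (norm_nonneg _) ((norm_nonneg _).trans (h x))
    _ = _ := by ring

theorem Bw.const_mul (h : Bw F ω) (c : ℂ) : Bw (fun x => c * F x) ω :=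
  ((bw_const c).mul h).mono fun x => by simp

theorem Bw.sum {ι : Type*} {A : Finset ι} {H : ι → X → ℂ} (h : ∀ i ∈ A, Bw (H i) ω) :
    Bw (fun x => ∑ i ∈ A, H i x) ω := by
  classical
  induction A using Finset.induction_on with
  | empty => simpa using bw_zero ω
  | insert a A ha ih =>
    simp only [Finset.sum_insert ha]
    exact (h a (Finset.mem_insert_self _ _)).add
      (ih fun i hi => h i (Finset.mem_insert_of_mem hi))

theorem Bw.prod {ι : Type*} {A : Finset ι} {H : ι → X → ℂ} {ν : ι → X → ℝ}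
    (h : ∀ i ∈ A, Bw (H i) (ν i)) : Bw (fun x => ∏ i ∈ A, H i x) fun x => ∑ i ∈ A, ν i x := by
  classical
  induction A using Finset.induction_on with
  | empty => simpa using bw_const (X := X) 1
  | insert a A ha ih =>
    simp only [Finset.prod_insert ha, Finset.sum_insert ha]
    exact (h a (Finset.mem_insert_self _ _)).mul
      (ih fun i hi => h i (Finset.mem_insert_of_mem hi))

theorem Bw.pow (h : Bw F ω) (n : ℕ) : Bw (fun x => F x ^ n) fun x => n * ω x := by
  have := Bw.prod (A := Finset.range n) (H := fun _ => F) (ν := fun _ => ω) fun _ _ => h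
  simpa using this

theorem Bw.det {n : Type*} [Fintype n] [DecidableEq n] {M : X → Matrix n n ℂ} {α β : n → X → ℝ}
    (h : ∀ i j, Bw (fun x => M x i j) fun x => α i x + β j x) :
    Bw (fun x => (M x).det) fun x => ∑ i, α i x + ∑ i, β i x := by
  simp only [Matrix.det_apply']
  refine Bw.sum fun σ _ => Bw.const_mul ?_ _
  refine (Bw.prod (ν := fun i x => α (σ i) x + β i x) fun i _ => h (σ i) i).mono fun x => ?_
  rw [Finset.sum_add_distrib, Equiv.sum_comp σ fun i => α i x]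

/-- finitely many fibres -/
theorem Bw.of_fibres {Y : Type} [Finite Y] (φ : X → Y)
    (h : ∀ y, Bw (fun x : {x // φ x = y} => F x.1) fun x => ω x.1) : Bw F ω := by
  choose C hC h using h
  have := Fintype.ofFinite Y
  have h0 : 0 ≤ ∑ y, C y := Finset.sum_nonneg fun y _ => (hC y).le
  refine ⟨1 + ∑ y, C y, by positivity, fun x => (h (φ x) ⟨x, rfl⟩).trans ?_⟩
  have := Finset.single_le_sum (f := C) (fun y _ => (hC y).le) (Finset.mem_univ (φ x))
  exact mul_le_mul_of_nonneg_right (by linarith) (Real.exp_pos _).le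

variable {κ : Type} [Fintype κ] [DecidableEq κ] {e : ℕ}

theorem IntW.recentre {Λ : X → R2 →ₗ[ℂ] ℂ} {c c' c₁ c₁' : X → ℂ} {a a' : X → ℝ}
    (h : IntW e Λ c c' a a') (hc : Bw (fun x => c x - c₁ x) a)
    (hc' : Bw (fun x => c' x - c₁' x) a') : IntW e Λ c₁ c₁' a a' := by
  intro m
  simp only [fun x => mono_shift (c x) (c' x) (c₁ x) (c₁' x) m, map_sum, map_smul, smul_eq_mul]
  refine Bw.sum fun n _ => ?_
  by_cases h1 : (n.1 : ℕ) ≤ m.1
  · by_cases h2 : (n.2 : ℕ) ≤ m.2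
    · refine ((((hc.pow _).const_mul _).mul ((hc'.pow _).const_mul _)).mul (h n)).mono
        fun x => le_of_eq ?_
      rw [Nat.cast_sub h1, Nat.cast_sub h2]
      ring
    · simpa [Nat.choose_eq_zero_of_lt (not_le.1 h2)] using bw_zero _
  · simpa [Nat.choose_eq_zero_of_lt (not_le.1 h1)] using bw_zero _

theorem IntW.mono_level {Λ : X → R2 →ₗ[ℂ] ℂ} {c c' : X → ℂ} {a a' b b' : X → ℝ}
    (h : IntW e Λ c c' a a') (hb : ∀ x, b x ≤ a x) (hb' : ∀ x, b' x ≤ a' x) :
    IntW e Λ c c' b b' := fun m =>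
  (h m).mono fun x => add_le_add
    (mul_le_mul_of_nonneg_left (hb x) (Nat.cast_nonneg _))
    (mul_le_mul_of_nonneg_left (hb' x) (Nat.cast_nonneg _))

theorem ClW.delta {g : κ ≃ Mb e} {z w : X → κ → ℂ} {a a' : X → κ → ℝ} {ν : X → ℝ}
    (h : ClW g z w a a' ν) : Bw (fun x => Delta g (z x) (w x)) ν := by
  refine (h (fun x i => (MvPolynomial.aeval (R := ℂ) ![z x i, w x i]).toLinearMap)
    fun i m => ?_).congr fun x => ?_
  · by_cases h1 : (m.1 : ℕ) = 0
    · by_cases h2 : (m.2 : ℕ) = 0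
      · simpa [mono, h1, h2] using bw_const (X := X) 1
      · simpa [mono, h2] using bw_zero _
    · simpa [mono, h1] using bw_zero _
  · simp [DetF, Delta, mono]

theorem clW_top (he : 2 ≤ e) (g : κ ≃ Mb e) {z w : X → κ → ℂ} {n n' : X → ℝ}
    (hz : ∀ i j, Bw (fun x => z x i - z x j) n) (hw : ∀ i j, Bw (fun x => w x i - w x j) n') :
    ClW g z w (fun x _ => n x) (fun x _ => n' x) fun x => sig e * (n x + n' x) := by
  intro Λ hΛ
  let i₀ : κ := g.symm ⟨(⟨0, by omega⟩, ⟨0, by omega⟩), fun h => by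
    have := h.1
    simp only at this
    omega⟩
  simp only [fun x => detF_shift g (Λ x) (z x i₀) (w x i₀)]
  refine (Bw.det (α := fun _ _ => 0)
    (β := fun j x => ((g j).1.1 : ℕ) * n x + ((g j).1.2 : ℕ) * n' x) fun i j =>
      ((hΛ i).recentre (hz i i₀) (hw i i₀) (g j).1).mono fun x => le_of_eq (zero_add _)).mono
    fun x => le_of_eq ?_
  rw [Finset.sum_const_zero, zero_add, Finset.sum_add_distrib, ← Finset.sum_mul, ← Finset.sum_mul,
    g.sum_comp fun m => ((m.1.1 : ℕ) : ℝ), g.sum_comp fun m => ((m.1.2 : ℕ) : ℝ),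
    sum_fst (by omega), sum_snd (by omega), mul_add]

end Pool.Agent.P.MP_a62d3c_co.FF
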