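import Pool.Agent.P.MP_a62d3c_co.FB.WBas
import Pool.Agent.P.MP_a62d3c_co.FF.DExp
import Pool.Agent.P.MP_a62d3c_co.FF.DStepA

namespace Pool.Agent.P.MP_a62d3c_co.FF

open Filter Topology Polynomial MeasureTheory Asymptotics
open scoped ComplexConjugate Matrix ComplexOrder

/-! Uniform versions of FF/DExp.lean and FF/DStep.lean (same proofs; rescale by `exp (n k)`). -/

variable {X κ : Type} [Fintype κ] [DecidableEq κ] {e : ℕ}

theorem expandW (g : κ ≃ Mb e) (Λ : X → κ → R2 →ₗ[ℂ] ℂ) (S : Finset κ) (β : X → Box e → R2)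
    (hli : ∀ s, LinearIndependent ℂ (β s))
    (hsp : ∀ s (m : Box e), mono 0 0 m ∈ Submodule.span ℂ (Set.range (β s))) (wt : Box e → ℕ)
    {ν : X → ℝ}
    (h : ∀ (k : κ → ℕ) (Λ' : X → κ → R2 →ₗ[ℂ] ℂ), gmin wt S.card ≤ ∑ i ∈ S, k i →
      (∀ s i, i ∉ S → Λ' s i = Λ s i) →
      (∀ s, ∀ i ∈ S, ∀ m, Λ' s i (β s m) = if wt m = k i then Λ s i (β s m) else 0) →
      Bw (fun s => DetF g (Λ' s)) ν) :
    Bw (fun s => DetF g (Λ s)) ν := by
  choose δ hδ using fun s => DExp_dual (hli s)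
  let Λ' : X → κ → ℕ → R2 →ₗ[ℂ] ℂ := fun s i v => if i ∈ S then
    ∑ m ∈ Finset.univ.filter (fun m => wt m = v), Λ s i (β s m) • δ s m else Λ s i
  let A : κ → Finset ℕ := fun i => if i ∈ S then Finset.univ.image wt else {0}
  have h1 : ∀ s, ∀ i ∈ S, ∀ v m, Λ' s i v (β s m) = if wt m = v then Λ s i (β s m) else 0 := by
    intro s i hi v m
    simp only [Λ', if_pos hi, LinearMap.sum_apply, LinearMap.smul_apply, hδ, smul_eq_mul, mul_ite,
      mul_one, mul_zero, Finset.sum_ite_eq, Finset.mem_filter, Finset.mem_univ, true_and]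
  have h2 : ∀ s i (m : Box e), Λ s i (mono 0 0 m) = ∑ v ∈ A i, Λ' s i v (mono 0 0 m) := by
    intro s i m
    by_cases hi : i ∈ S
    · rw [← LinearMap.sum_apply]
      refine LinearMap.eqOn_span (s := Set.range (β s)) ?_ (hsp s m)
      rintro _ ⟨m', rfl⟩
      rw [LinearMap.sum_apply, Finset.sum_congr rfl fun v _ => h1 s i hi v m', Finset.sum_ite_eq,
        if_pos]
      simp only [A, if_pos hi]
      exact Finset.mem_image_of_mem _ (Finset.mem_univ _)
    · simp only [A, Λ', if_neg hi, Finset.sum_singleton]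
  have h3 : (fun s => DetF g (Λ s)) =
      fun s => ∑ k ∈ Fintype.piFinset A, DetF g fun i => Λ' s i (k i) :=
    funext fun s => DExp_sum g (Λ s) A (Λ' s) (h2 s)
  rw [h3]
  refine Bw.sum fun k _ => ?_
  by_cases hk : ∀ v, (S.filter fun i => k i = v).card ≤ (Finset.univ.filter fun m => wt m = v).card
  · exact h k (fun s i => Λ' s i (k i)) (exists_weights S k wt hk)
      (fun s i hi => by simp only [Λ', if_neg hi]) fun s i hi m => h1 s i hi (k i) m
  · obtain ⟨v, hv⟩ := not_forall.1 hk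
    refine (bw_zero ν).congr fun s => ?_
    refine (DExp_vanish _ (S.filter fun i => k i = v) (Finset.univ.filter fun m => wt m = v)
      (fun i m => Λ s i (β s m)) (fun m j => δ s m (mono 0 0 (g j).1)) (fun i hi j => ?_)
      (not_le.1 hv)).symm
    obtain ⟨hi, e⟩ := Finset.mem_filter.1 hi
    simp only [Matrix.of_apply, Λ', if_pos hi, e, LinearMap.sum_apply, LinearMap.smul_apply,
      smul_eq_mul]

theorem detW_scale (g : κ ≃ Mb e) (Λ : X → κ → R2 →ₗ[ℂ] ℂ) (a : X → κ → ℝ) {ν : X → ℝ}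
    (h : Bw (fun s => DetF g fun i => (Real.exp (a s i) : ℂ) • Λ s i) ν) :
    Bw (fun s => DetF g (Λ s)) fun s => ν s + ∑ i, a s i := by
  refine (h.mul (bw_exp fun s => ∑ i, a s i)).congr fun s => ?_
  have h2 : (DetF g fun i => (Real.exp (a s i) : ℂ) • Λ s i) =
      (∏ i, (Real.exp (a s i) : ℂ)) * DetF g (Λ s) :=
    Matrix.det_mul_column (fun i => (Real.exp (a s i) : ℂ))
      (Matrix.of fun i j : κ => Λ s i (mono 0 0 (g j).1))
  rw [h2, mul_right_comm, ← Complex.ofReal_prod, ← Real.exp_sum, ← Complex.ofReal_mul,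
    ← Real.exp_add, add_neg_cancel, Real.exp_zero, Complex.ofReal_one, one_mul]

variable {g : κ ≃ Mb e} {z w : X → κ → ℂ} {l l' : X → κ → ℝ} {ν : X → ℝ}

/-- the common part of both steps -/
theorem BWStep_core (h : ClW g z w l l' ν) (S : Finset κ) (β : X → Box e → R2)
    (hli : ∀ s, LinearIndependent ℂ (β s))
    (hsp : ∀ s (m : Box e), mono 0 0 m ∈ Submodule.span ℂ (Set.range (β s))) (wt : Box e → ℕ)
    (n : X → ℝ) (hn : ∀ x, 0 ≤ n x) (Λ : X → κ → R2 →ₗ[ℂ] ℂ)
    (hout : ∀ i, i ∉ S → IntW e (fun s => Λ s i) (fun s => z s i) (fun s => w s i)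
      (fun s => l s i) fun s => l' s i)
    (hin : ∀ i ∈ S, ∀ (k : ℕ) (Λ' : X → R2 →ₗ[ℂ] ℂ),
      (∀ s m, Λ' s (β s m) = if wt m = k then Λ s i (β s m) else 0) →
      IntW e (fun s => (Real.exp (n s * k) : ℂ) • Λ' s) (fun s => z s i) (fun s => w s i)
        (fun s => l s i) fun s => l' s i) :
    Bw (fun s => DetF g (Λ s)) fun x => ν x + n x * gmin wt S.card := by
  refine expandW g Λ S β hli hsp wt fun k Λ' hk h1 h2 => ?_
  refine (detW_scale g Λ' (fun s i => if i ∈ S then n s * k i else 0)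
    (h _ fun i => ?_)).mono fun x => ?_
  · by_cases hi : i ∈ S
    · simp only [if_pos hi]
      exact hin i hi (k i) (fun s => Λ' s i) fun s m => h2 s i hi m
    · simp only [if_neg hi, Real.exp_zero, Complex.ofReal_one, one_smul, h1 _ i hi]
      exact hout i hi
  · rw [Finset.sum_ite_mem, Finset.univ_inter, ← Finset.mul_sum, ← Nat.cast_sum]
    exact add_le_add le_rfl (mul_le_mul_of_nonneg_left (Nat.cast_le.2 hk) (hn x))

theorem BWStep_scale {F : X → ℂ} {μ : X → ℝ} (h : Bw F μ) (a : X → ℝ) :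
    Bw (fun s => (Real.exp (a s) : ℂ) * F s) fun s => μ s - a s := by
  refine (((bw_exp fun s => -a s).mul h).congr fun s => by rw [neg_neg]).mono fun s => ?_
  linarith

theorem BWStep_self (c : X → ℂ) (μ : X → ℝ) : Bw (fun s => c s - c s) μ :=
  (bw_zero μ).congr fun _ => (sub_self _).symm

theorem ClW.stepZ (h : ClW g z w l l' ν) (S : Finset κ) (hi n : X → ℝ) (hn : ∀ x, 0 ≤ n x)
    (hl : ∀ x, ∀ i ∈ S, l x i + n x ≤ hi x)
    (hz : ∀ i ∈ S, ∀ j ∈ S, Bw (fun x => z x i - z x j) hi) :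
    ClW g z w (fun x i => if i ∈ S then hi x else l x i) l'
      fun x => ν x + n x * gmin (wZ (e := e)) S.card := by
  rcases S.eq_empty_or_nonempty with rfl | ⟨i₀, h₀⟩
  · simpa [DStep_gmin] using h
  intro Λ hΛ
  refine BWStep_core h S (fun s => mono (z s i₀) 0) (fun s => mono_indep _ _)
    (fun s => DStep_span _ _) wZ n hn Λ (fun i hS => by simpa only [if_neg hS] using hΛ i)
    fun i hS k Λ' hc => ?_
  have h1 : IntW e (fun s => Λ s i) (fun s => z s i₀) (fun s => w s i) hi fun s => l' s i :=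
    IntW.recentre (by simpa only [if_pos hS] using hΛ i) (hz i hS i₀ h₀) (BWStep_self _ _)
  have h2 : IntW e (fun s => (Real.exp (n s * k) : ℂ) • Λ' s) (fun s => z s i₀) (fun s => w s i)
      (fun s => hi s - n s) fun s => l' s i := fun m => by
    have h3 : ∀ s, Λ' s (mono (z s i₀) (w s i) m) =
        if (m.1 : ℕ) = k then Λ s i (mono (z s i₀) (w s i) m) else 0 := fun s => by
      rw [mono_shift (z s i₀) 0 (z s i₀) (w s i)]
      exact DStep_cut (hc s) fun m' hm' => mul_eq_zero_of_left (DStep_coef hm' _) _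
    simp only [LinearMap.smul_apply, smul_eq_mul, h3]
    by_cases hk : (m.1 : ℕ) = k
    · simp only [if_pos hk]
      refine (BWStep_scale (h1 m) _).mono fun s => le_of_eq ?_
      rw [← hk]
      ring
    · simpa only [if_neg hk, mul_zero] using bw_zero _
  exact (h2.recentre ((hz i₀ h₀ i hS).mono fun s => by linarith [hn s])
    (BWStep_self _ _)).mono_level (fun s => by linarith [hl s i hS]) fun s => le_rfl

theorem ClW.stepW (h : ClW g z w l l' ν) (S : Finset κ) (hi n : X → ℝ) (hn : ∀ x, 0 ≤ n x)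
    (hl : ∀ x, ∀ i ∈ S, l' x i + n x ≤ hi x)
    (hw : ∀ i ∈ S, ∀ j ∈ S, Bw (fun x => w x i - w x j) hi) :
    ClW g z w l (fun x i => if i ∈ S then hi x else l' x i)
      fun x => ν x + n x * gmin (wW (e := e)) S.card := by
  rcases S.eq_empty_or_nonempty with rfl | ⟨i₀, h₀⟩
  · simpa [DStep_gmin] using h
  intro Λ hΛ
  refine BWStep_core h S (fun s => mono 0 (w s i₀)) (fun s => mono_indep _ _)
    (fun s => DStep_span _ _) wW n hn Λ (fun i hS => by simpa only [if_neg hS] using hΛ i)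
    fun i hS k Λ' hc => ?_
  have h1 : IntW e (fun s => Λ s i) (fun s => z s i) (fun s => w s i₀) (fun s => l s i) hi :=
    IntW.recentre (by simpa only [if_pos hS] using hΛ i) (BWStep_self _ _) (hw i hS i₀ h₀)
  have h2 : IntW e (fun s => (Real.exp (n s * k) : ℂ) • Λ' s) (fun s => z s i) (fun s => w s i₀)
      (fun s => l s i) fun s => hi s - n s := fun m => by
    have h3 : ∀ s, Λ' s (mono (z s i) (w s i₀) m) =
        if (m.2 : ℕ) = k then Λ s i (mono (z s i) (w s i₀) m) else 0 := fun s => by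
      rw [mono_shift 0 (w s i₀) (z s i) (w s i₀)]
      exact DStep_cut (hc s) fun m' hm' => mul_eq_zero_of_right _ (DStep_coef hm' _)
    simp only [LinearMap.smul_apply, smul_eq_mul, h3]
    by_cases hk : (m.2 : ℕ) = k
    · simp only [if_pos hk]
      refine (BWStep_scale (h1 m) _).mono fun s => le_of_eq ?_
      rw [← hk]
      ring
    · simpa only [if_neg hk, mul_zero] using bw_zero _
  exact (h2.recentre (BWStep_self _ _) ((hw i₀ h₀ i hS).mono
    fun s => by linarith [hn s])).mono_level (fun s => le_rfl) fun s => by linarith [hl s i hS]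

end Pool.Agent.P.MP_a62d3c_co.FF
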